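import Pool.Agent.KAT.St

/-!
# KAT, B2 (helper63): the row 0 is full, two incomplete rows of order two
-/

set_option autoImplicit false

noncomputable section

open Finset Pool.Agent.Helper64.Rho Pool.Agent.SDG Pool.Agent.MDR Pool.Agent.SSE
open scoped Classical Pointwise

namespace Pool.Agent.KAT

private theorem B2_mem3 {G : Type} [AddCommGroup G] (D : Finset G) (a b c : G) (ha : a ∈ D) (hb : b ∈ D)
    (hc : c ∈ D) : a + b + c ∈ it D 3 := by
  have h1 : a ∈ it D 1 := by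
    have : it D 1 = {0} + D := rfl
    rw [this]
    exact mem_add.2 ⟨0, mem_singleton_self 0, a, ha, zero_add a⟩
  have h2 : a + b ∈ it D 2 := by
    have : it D 2 = it D 1 + D := rfl
    rw [this]
    exact add_mem_add h1 hb
  have h3 : it D 3 = it D 2 + D := rfl
  rw [h3]
  exact add_mem_add h2 hc

private theorem B2_row {G : Type} [AddCommGroup G] (D : Finset G) (K : AddSubgroup G) (γ : G ⧸ K)
    (h : 1 ≤ (rq D K γ).card) : ∃ y ∈ D, (QuotientAddGroup.mk y : G ⧸ K) = γ := by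
  obtain ⟨y, hy⟩ := card_pos.1 h
  exact ⟨y, (mem_filter.1 hy).1, (mem_filter.1 hy).2⟩

/-- **B2.** -/
theorem thm_B2 : St_Rw → St_Fr → St_Sg → St_K4 → St_B2 := by
  intro hRw hFr _ hK4 G _ _ κ l D d γ1 γ2 hH _ hT h1 h2 h11
  obtain ⟨hd, hne, hw1, hw2, -, -, hfull, hsum⟩ := hT
  obtain ⟨-, -, -, -, him, hneg, -, hall, hpar, -⟩ := hRw G D (AddSubgroup.zmultiples d)
  obtain ⟨-, -, -, -, hmono, -⟩ := hFr G D (AddSubgroup.zmultiples d)
  obtain ⟨hpar0, hodd⟩ := hpar hH.sy
  obtain ⟨h0D, hsym, -⟩ := hH.sy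
  have hneg' := hneg hsym
  have h0im : (0 : G ⧸ AddSubgroup.zmultiples d) ∈ im D (AddSubgroup.zmultiples d) := by
    unfold im
    exact mem_image.2 ⟨0, h0D, rfl⟩
  have hw0 := hfull 0 h0im h1.symm h2.symm
  have h22 : γ2 + γ2 = 0 := by
    have h3 : -γ2 = γ2 := by
      by_contra hcon
      have h4 : -γ2 ≠ γ1 := by
        intro h5
        apply hne
        have h6 : γ2 = -γ1 := by rw [← h5, neg_neg]
        rw [h6]
        exact eq_neg_of_add_eq_zero_left h11
      have h7 : -γ2 ∈ im D (AddSubgroup.zmultiples d) := by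
        rw [him, hneg']
        exact hw2
      have h8 := hfull _ h7 h4 hcon
      rw [hneg'] at h8
      omega
    calc γ2 + γ2 = -γ2 + γ2 := by rw [h3]
      _ = 0 := neg_add_cancel γ2
  have he1 := hpar0 γ1 h11 h1
  have he2 := hpar0 γ2 h22 h2
  have hdd : ∀ δ ∈ im D (AddSubgroup.zmultiples d), δ + δ = 0 := by
    intro δ hδ
    by_contra hcon
    have h3 : δ ≠ γ1 := fun h => hcon (h ▸ h11)
    have h4 : δ ≠ γ2 := fun h => hcon (h ▸ h22)
    have h5 := hfull δ hδ h3 h4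
    have h6 := hH.dc (AddSubgroup.zmultiples d) δ (by
      intro h
      exact hd (AddSubgroup.zmultiples_eq_bot.1 h)) hcon (by omega)
    rcases hH.kl with ⟨h7, -⟩ | ⟨h7, -⟩ <;> omega
  obtain ⟨-, hcos⟩ := hK4 G κ l D (AddSubgroup.zmultiples d) γ1 γ2 hH hdd ((him γ1).2 hw1)
    ((him γ2).2 hw2) h1 h2 hne
  have hK : ∀ x : G, (QuotientAddGroup.mk x : G ⧸ AddSubgroup.zmultiples d) = 0 → x ∈ D := (hall 0).1 hw0
  obtain ⟨y1, hy1, hy1'⟩ := B2_row D _ γ1 hw1
  obtain ⟨y2, hy2, hy2'⟩ := B2_row D _ γ2 hw2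
  have hmem : ∀ x : G, x ∈ it D 3 := by
    intro x
    rcases hcos (QuotientAddGroup.mk x) with h | h | h | h
    · have h3 := B2_mem3 D 0 0 x h0D h0D (hK x h)
      rwa [zero_add, zero_add] at h3
    · have h4 : (QuotientAddGroup.mk (x - y1) : G ⧸ AddSubgroup.zmultiples d) = 0 := by
        rw [QuotientAddGroup.mk_sub, h, hy1', sub_self]
      have h3 := B2_mem3 D (x - y1) y1 0 (hK _ h4) hy1 h0D
      rwa [sub_add_cancel, add_zero] at h3
    · have h4 : (QuotientAddGroup.mk (x - y2) : G ⧸ AddSubgroup.zmultiples d) = 0 := by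
        rw [QuotientAddGroup.mk_sub, h, hy2', sub_self]
      have h3 := B2_mem3 D (x - y2) y2 0 (hK _ h4) hy2 h0D
      rwa [sub_add_cancel, add_zero] at h3
    · have h4 : (QuotientAddGroup.mk (x - y1 - y2) : G ⧸ AddSubgroup.zmultiples d) = 0 := by
        rw [QuotientAddGroup.mk_sub, QuotientAddGroup.mk_sub, h, hy1', hy2']
        abel
      have h3 := B2_mem3 D (x - y1 - y2) y2 y1 (hK _ h4) hy2 hy1
      rwa [sub_add_cancel, sub_add_cancel] at h3
  intro i hi
  left
  have hu : (it D i : Set G) = Set.univ := by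
    ext x
    simp only [Set.mem_univ, iff_true]
    exact mem_coe.2 (hmono h0D 3 i hi (hmem x))
  have h5 : Nat.card G = (it D i).card := by
    rw [← Set.ncard_univ, ← hu, Set.ncard_coe_finset]
  omega

end Pool.Agent.KAT
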