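import Pool.Agent.KAT.St

/-!
# KAT, module B4: exactly three rows
-/

set_option autoImplicit false

noncomputable section

open Finset Pool.Agent.Helper64.Rho Pool.Agent.SDG Pool.Agent.MDR Pool.Agent.SSE
open scoped Classical Pointwise

namespace Pool.Agent.KAT

private theorem B4_low {G : Type} [AddCommGroup G] [Finite G] (E : Finset G)
    (K : AddSubgroup G) (T : Finset (G ⧸ K)) : ∑ γ ∈ T, (rq E K γ).card ≤ E.card := by
  have h1 : ∑ γ ∈ T, (rq E K γ).card =
      (E.filter fun x => (QuotientAddGroup.mk x : G ⧸ K) ∈ T).card := by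
    have h0 : ∀ x ∈ E.filter fun x => (QuotientAddGroup.mk x : G ⧸ K) ∈ T,
        (QuotientAddGroup.mk x : G ⧸ K) ∈ T := fun x hx => (Finset.mem_filter.1 hx).2
    rw [Finset.card_eq_sum_card_fiberwise h0]
    refine Finset.sum_congr rfl fun γ hγ => ?_
    congr 1
    ext x
    simp only [rq, Finset.mem_filter]
    constructor
    · rintro ⟨h2, h3⟩
      exact ⟨⟨h2, h3 ▸ hγ⟩, h3⟩
    · rintro ⟨⟨h2, _⟩, h3⟩
      exact ⟨h2, h3⟩
  rw [h1]
  exact Finset.card_filter_le _ _

private theorem B4_sym {G : Type} [AddCommGroup G] (D : Finset G) (hs : ∀ y ∈ D, -y ∈ D) :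
    ∀ m, ∀ y ∈ it D m, -y ∈ it D m := by
  intro m
  induction m with
  | zero =>
    intro y hy
    have h1 : y = 0 := Finset.mem_singleton.1 hy
    rw [h1, neg_zero]
    exact Finset.mem_singleton_self _
  | succ m ih =>
    intro y hy
    obtain ⟨a, ha, b, hb, rfl⟩ := Finset.mem_add.1 hy
    rw [neg_add]
    exact Finset.add_mem_add (ih a ha) (hs b hb)

private theorem B4_mul {G : Type} [AddCommGroup G] (D : Finset G) (h0 : (0 : G) ∈ D) (x : G)
    (hx : x ∈ D) (hx' : -x ∈ D) : ∀ (m : ℕ) (j : ℤ), |j| ≤ m → j • x ∈ it D m := by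
  intro m
  induction m with
  | zero =>
    intro j hj
    have h1 : j = 0 := by
      have := abs_nonpos_iff.1 (by simpa using hj : |j| ≤ 0)
      exact this
    rw [h1, zero_smul]
    exact Finset.mem_singleton_self _
  | succ m ih =>
    intro j hj
    push_cast at hj
    by_cases h1 : |j| ≤ m
    · have h2 := Finset.add_mem_add (ih j h1) h0
      rwa [add_zero] at h2
    · rcases le_total 0 j with h2 | h2
      · rw [abs_of_nonneg h2] at hj h1
        have h3 : |j - 1| ≤ m := by
          rw [abs_le]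
          constructor <;> omega
        have h4 := Finset.add_mem_add (ih (j - 1) h3) hx
        rw [sub_smul, one_smul, sub_add_cancel] at h4
        exact h4
      · rw [abs_of_nonpos h2] at hj h1
        have h3 : |j + 1| ≤ m := by
          rw [abs_le]
          constructor <;> omega
        have h4 := Finset.add_mem_add (ih (j + 1) h3) hx'
        rw [add_smul, one_smul, add_neg_cancel_right] at h4
        exact h4

private theorem B4_top {G : Type} [AddCommGroup G] (D : Finset G) (x d : G) (w : ℕ)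
    (hw : 1 ≤ w) (h : ∀ j : ℕ, j < w → x - j • d ∈ D) :
    ∀ (m j : ℕ), j ≤ m * (w - 1) → m • x - j • d ∈ it D m := by
  intro m
  induction m with
  | zero =>
    intro j hj
    rw [zero_mul] at hj
    have h1 : j = 0 := by omega
    rw [h1, zero_smul, zero_smul, sub_zero]
    exact Finset.mem_singleton_self _
  | succ m ih =>
    intro j hj
    have h1 : j - min j (w - 1) ≤ m * (w - 1) := by
      rw [Nat.succ_mul] at hj
      omega
    have h2 := Finset.add_mem_add (ih _ h1) (h (min j (w - 1)) (by omega))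
    have h3 : m • x - (j - min j (w - 1)) • d + (x - min j (w - 1) • d) =
        (m + 1) • x - j • d := by
      have h4 : j • d = (j - min j (w - 1)) • d + min j (w - 1) • d := by
        rw [← add_smul]
        congr 1
        omega
      rw [h4, add_smul, one_smul]
      abel
    rw [h3] at h2
    exact h2

/-- the top row -/
private theorem B4_v {G : Type} [AddCommGroup G] [Finite G] (D : Finset G) (x d : G) (w : ℕ)
    (hw : 1 ≤ w) (h : ∀ j : ℕ, j < w → x - j • d ∈ D) (m : ℕ) :
    min (Nat.card (AddSubgroup.zmultiples d)) (m * (w - 1) + 1) ≤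
      (rq (it D m) (AddSubgroup.zmultiples d)
        (m • (QuotientAddGroup.mk x : G ⧸ AddSubgroup.zmultiples d))).card := by
  have h1 : ((Finset.range (min (Nat.card (AddSubgroup.zmultiples d)) (m * (w - 1) + 1))).image
      fun j : ℕ => m • x - j • d) ⊆ rq (it D m) (AddSubgroup.zmultiples d)
        (m • (QuotientAddGroup.mk x : G ⧸ AddSubgroup.zmultiples d)) := by
    intro y hy
    obtain ⟨j, hj, rfl⟩ := Finset.mem_image.1 hy
    rw [Finset.mem_range] at hj
    unfold rq
    rw [Finset.mem_filter]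
    refine ⟨B4_top D x d w hw h m j (by omega), ?_⟩
    have h2 : (QuotientAddGroup.mk d : G ⧸ AddSubgroup.zmultiples d) = 0 :=
      (QuotientAddGroup.eq_zero_iff d).2 (AddSubgroup.mem_zmultiples d)
    rw [QuotientAddGroup.mk_sub, QuotientAddGroup.mk_nsmul, QuotientAddGroup.mk_nsmul, h2,
      smul_zero, sub_zero]
  have h2 := Finset.card_le_card h1
  rw [Finset.card_image_of_injOn, Finset.card_range] at h2
  · exact h2
  · intro j hj j' hj' hjj
    rw [Finset.mem_coe, Finset.mem_range] at hj hj'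
    have h3 : j • d = j' • d := by
      have h4 : m • x - j • d = m • x - j' • d := hjj
      exact sub_right_injective h4
    rw [Nat.card_zmultiples] at hj hj'
    exact nsmul_injOn_Iio_addOrderOf (Set.mem_Iio.2 (by omega)) (Set.mem_Iio.2 (by omega)) h3

private theorem B4_main (hRw : St_Rw) (hFr : St_Fr) {G : Type} [AddCommGroup G] [Finite G]
    (κ l : ℕ) (D : Finset G) (K : AddSubgroup G) (γ : G ⧸ K) (hH : Hyp κ l D)
    (hγne : γ ≠ -γ) (hw1 : 1 ≤ (rq D K γ).card) (hw2 : 1 ≤ (rq D K (-γ)).card)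
    (hfull : ∀ δ ∈ im D K, δ ≠ γ → δ ≠ -γ → (rq D K δ).card = Nat.card K)
    (hsum : (rq D K γ).card + (rq D K (-γ)).card + 1 ≤ Nat.card K) (hγ0 : γ ≠ 0)
    (hrow : ∀ δ ∈ im D K, δ = 0 ∨ δ = γ ∨ δ = -γ) (x : G)
    (hxγ : (QuotientAddGroup.mk x : G ⧸ K) = γ) (hxD : x ∈ D) (i : ℕ) (hi : 3 ≤ i)
    (hv : min (Nat.card K) (i * ((rq D K γ).card - 1) + 1) ≤ (rq (it D i) K (i • γ)).card) :
    Nat.card G ≤ (it D i).card + κ ∨ i * (2 * l + 2) ≤ (it D i).card + 1 ∨
      (i * (2 * l + 2) ≤ (it D i).card + 2 ∧ κ = 1) := by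
  obtain ⟨r1, r2, r3, r4, r5, r6, r7, r8, r9, r10⟩ := hRw G D K
  have h0D : (0 : G) ∈ D := hH.sy.1
  have hsD : ∀ y ∈ D, -y ∈ D := hH.sy.2.1
  have hww : (rq D K (-γ)).card = (rq D K γ).card := r6 hsD γ
  rw [hww] at hsum
  have h0im : (0 : G ⧸ K) ∈ im D K := Finset.mem_image.2 ⟨0, h0D, rfl⟩
  have hnγ0 : (0 : G ⧸ K) ≠ -γ := fun h => hγ0 (neg_eq_zero.1 h.symm)
  have hw0 : (rq D K 0).card = Nat.card K := hfull 0 h0im (fun h => hγ0 h.symm) hnγ0
  have hkodd : Nat.card K % 2 = 1 := by
    rw [← hw0]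
    exact (r9 hH.sy).2
  have hcard : D.card = Nat.card K + 2 * (rq D K γ).card := by
    have h1 : im D K = {0, γ, -γ} := by
      ext δ
      simp only [Finset.mem_insert, Finset.mem_singleton]
      constructor
      · exact hrow δ
      · rintro (rfl | rfl | rfl)
        · exact h0im
        · exact (r5 _).2 hw1
        · exact (r5 _).2 hw2
    rw [r2, h1, Finset.sum_insert, Finset.sum_insert, Finset.sum_singleton, hw0, hww]
    · ring
    · rw [Finset.mem_singleton]
      exact hγne
    · simp only [Finset.mem_insert, Finset.mem_singleton, not_or]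
      exact ⟨fun h => hγ0 h.symm, hnγ0⟩
  have hl : Nat.card K + 2 * (rq D K γ).card = 2 * l + 1 := by rw [← hcard, hH.cd]
  -- the quotient is generated by `γ`
  have hgen : ∀ g : G ⧸ K, g ∈ AddSubgroup.zmultiples γ := by
    have h1 : AddSubgroup.closure (D : Set G) ≤
        (AddSubgroup.zmultiples γ).comap (QuotientAddGroup.mk' K) := by
      rw [AddSubgroup.closure_le]
      intro y hy
      change (QuotientAddGroup.mk y : G ⧸ K) ∈ AddSubgroup.zmultiples γ
      rcases hrow _ (Finset.mem_image.2 ⟨y, hy, rfl⟩) with h | h | h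
      · rw [h]
        exact zero_mem _
      · rw [h]
        exact AddSubgroup.mem_zmultiples γ
      · rw [h]
        exact neg_mem (AddSubgroup.mem_zmultiples γ)
    rw [hH.cl] at h1
    intro g
    obtain ⟨y, rfl⟩ := QuotientAddGroup.mk_surjective g
    exact h1 (AddSubgroup.mem_top y)
  set q := addOrderOf γ with hq
  have hnq : Nat.card G = q * Nat.card K := by
    rw [AddSubgroup.card_eq_card_quotient_mul_card_addSubgroup K]
    congr 1
    have h1 : AddSubgroup.zmultiples γ = ⊤ := (AddSubgroup.eq_top_iff' _).2 hgen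
    rw [hq, ← Nat.card_zmultiples, h1, AddSubgroup.card_top]
  have hqpos : 0 < q := addOrderOf_pos γ
  have hinj : ∀ j j' : ℤ, |j - j'| < q → j • γ = j' • γ → j = j' := by
    intro j j' h1 h2
    have h3 : (j - j') • γ = 0 := by rw [sub_smul, h2, sub_self]
    have h4 : (q : ℤ) ∣ j - j' := addOrderOf_dvd_iff_zsmul_eq_zero.2 h3
    have h5 := Int.eq_zero_of_abs_lt_dvd h4 h1
    omega
  -- full rows
  have hrowfull : ∀ j : ℤ, |j| ≤ (i : ℤ) - 1 → (rq (it D i) K (j • γ)).card = Nat.card K := by
    intro j hj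
    obtain ⟨m, rfl⟩ : ∃ m, i = m + 1 := ⟨i - 1, by omega⟩
    have h1 : |j| ≤ (m : ℤ) := by push_cast at hj; omega
    have h2 := B4_mul D h0D x hxD (hsD x hxD) m j h1
    have h3 : j • γ ∈ im (it D m) K := Finset.mem_image.2 ⟨_, h2, by
      rw [← hxγ]
      exact QuotientAddGroup.mk_zsmul K x j⟩
    have h4 := (hFr G D K).2.1 D (it D m) 0 (j • γ) hw0 h3
    rw [zero_add, add_comm] at h4
    exact h4
  have hvn : (rq (it D i) K (-(i • γ))).card = (rq (it D i) K (i • γ)).card :=
    (hRw G (it D i) K).2.2.2.2.2.1 (B4_sym D hsD i) (i • γ)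
  have hv' : (rq (it D i) K (i • γ)).card ≤ Nat.card K := (hRw G (it D i) K).2.2.1 _
  -- the sum of the full rows
  set T0 : Finset (G ⧸ K) := (Finset.Icc (-((i : ℤ) - 1)) ((i : ℤ) - 1)).image fun j => j • γ
    with hT0
  have hT0sum : ∑ δ ∈ T0, (rq (it D i) K δ).card = T0.card * Nat.card K := by
    rw [Finset.sum_const_nat]
    intro δ hδ
    obtain ⟨j, hj, rfl⟩ := Finset.mem_image.1 hδ
    rw [Finset.mem_Icc] at hj
    exact hrowfull j (abs_le.2 hj)
  have hT0card : 2 * i - 1 ≤ q → T0.card = 2 * i - 1 := by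
    intro h1
    rw [hT0, Finset.card_image_of_injOn, Int.card_Icc]
    · omega
    · intro j hj j' hj' hjj
      rw [Finset.mem_coe, Finset.mem_Icc] at hj hj'
      refine hinj j j' ?_ hjj
      rw [abs_lt]
      constructor <;> omega
  set v := (rq (it D i) K (i • γ)).card with hvdef
  set w := (rq D K γ).card with hwdef
  set k := Nat.card K with hkdef
  have hnot : ∀ j : ℤ, j • γ ∈ T0 → |j| = i → q < 2 * i := by
    intro j hj hji
    obtain ⟨j', hj', hjj⟩ := Finset.mem_image.1 hj
    rw [Finset.mem_Icc] at hj'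
    by_contra h1
    have h2 := hinj j j' (by
      rw [abs_lt]
      rcases abs_cases j with h3 | h3 <;> constructor <;> omega) hjj.symm
    rcases abs_cases j with h3 | h3 <;> omega
  rcases Nat.lt_or_ge q (2 * i) with hq1 | hq1
  · -- everything
    left
    have h1 : ∀ g : G, g ∈ it D i := by
      intro g
      obtain ⟨z, hz⟩ := AddSubgroup.mem_zmultiples_iff.1 (hgen (QuotientAddGroup.mk g))
      have h2 : ∃ j : ℤ, |j| ≤ (i : ℤ) - 1 ∧ j • γ = (QuotientAddGroup.mk g : G ⧸ K) := by
        have h3 : (z % (q : ℤ)) • γ = z • γ := by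
          rw [hq]
          exact mod_addOrderOf_zsmul γ z
        have h4 := Int.emod_nonneg z (by omega : (q : ℤ) ≠ 0)
        have h5 := Int.emod_lt_of_pos z (by omega : (0 : ℤ) < q)
        rcases le_or_gt (z % (q : ℤ)) ((i : ℤ) - 1) with h6 | h6
        · exact ⟨z % (q : ℤ), by rw [abs_of_nonneg h4]; exact h6, by rw [h3, hz]⟩
        · refine ⟨z % (q : ℤ) - q, ?_, ?_⟩
          · rw [abs_le]
            constructor <;> omega
          · rw [sub_smul, h3, hz, natCast_zsmul, hq, addOrderOf_nsmul_eq_zero, sub_zero]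
      obtain ⟨j, hj, hjg⟩ := h2
      exact ((hRw G (it D i) K).2.2.2.2.2.2.2.1 (j • γ)).1 (hrowfull j hj) g hjg.symm
    have h2 : Nat.card G = (it D i).card := by
      let _ : Fintype G := Fintype.ofFinite G
      rw [Finset.eq_univ_iff_forall.2 h1, Finset.card_univ, Nat.card_eq_fintype_card]
    omega
  · have hT0c := hT0card (by omega)
    rw [hT0c] at hT0sum
    have hin1 : ((i : ℤ)) • γ ∉ T0 := fun h => by
      have := hnot (i : ℤ) h (by simp)
      omega
    have hin2 : (-(i : ℤ)) • γ ∉ T0 := fun h => by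
      have := hnot (-(i : ℤ)) h (by simp)
      omega
    rw [natCast_zsmul] at hin1
    rw [neg_smul, natCast_zsmul] at hin2
    have hA := B4_low (it D i) K (insert (i • γ) T0)
    rw [Finset.sum_insert hin1, hT0sum] at hA
    have hk1 : (2 * i - 1) * k + k = 2 * i * k := by
      obtain ⟨m, hm⟩ : ∃ m, 2 * i = m + 1 := ⟨2 * i - 1, by omega⟩
      rw [hm, Nat.add_sub_cancel]
      ring
    obtain ⟨w', hw'⟩ : ∃ w', w = w' + 1 := ⟨w - 1, by omega⟩
    rw [hw', Nat.add_sub_cancel] at hv
    rw [hw'] at hl hsum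
    have hl2 : 2 * l + 2 = k + 2 * w' + 3 := by omega
    rw [hl2]
    clear_value v w k q
    have hik : i * (2 * w' + 3) ≤ i * k := Nat.mul_le_mul_left i (by omega)
    rcases Nat.eq_or_lt_of_le hq1 with hq2 | hq2
    · -- `q = 2 i`
      rcases le_total k (i * w' + 1) with h | h
      · left
        rw [min_eq_left h] at hv
        rw [hnq, ← hq2]
        omega
      · rw [min_eq_right h] at hv
        rcases Nat.lt_or_ge k 5 with hk5 | hk5
        · have hk3 : k = 3 := by omega
          have hw0' : w' = 0 := by omega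
          subst hk3 hw0'
          rcases hH.kl with ⟨h1, -⟩ | ⟨h1, -⟩
          · left
            rw [hnq, ← hq2]
            omega
          · right
            right
            exact ⟨by omega, h1⟩
        · right
          left
          have h1 : 2 ≤ (i - 2) * (k - 3) :=
            (by norm_num : 2 ≤ 1 * 2).trans (Nat.mul_le_mul (by omega) (by omega))
          zify [(by omega : 2 ≤ i), (by omega : 3 ≤ k)] at h1
          zify at hik hA hk1 hv ⊢
          nlinarith
    · -- `q ≥ 2 i + 1`
      have hne : i • γ ≠ -(i • γ) := by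
        intro h
        have h1 : ((i : ℤ)) • γ = (-(i : ℤ)) • γ := by
          rw [neg_smul, natCast_zsmul]
          exact h
        have h2 := hinj _ _ (by rw [abs_lt]; constructor <;> omega) h1
        omega
      have hB := B4_low (it D i) K (insert (i • γ) (insert (-(i • γ)) T0))
      rw [Finset.sum_insert, Finset.sum_insert hin2, hT0sum, hvn] at hB
      · right
        left
        rcases le_total k (i * w' + 1) with h | h
        · rw [min_eq_left h] at hv
          nlinarith
        · rw [min_eq_right h] at hv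
          have h1 : 0 ≤ ((i : ℤ) - 1) * ((k : ℤ) - 3) :=
            mul_nonneg (by omega) (by omega)
          zify at hik hB hk1 hv ⊢
          nlinarith
      · rw [Finset.mem_insert, not_or]
        exact ⟨hne, hin1⟩

theorem thm_B4 : St_Rw → St_Sg → St_Fr → St_B4 := by
  intro hRw hSg hFr G _ _ κ l D d γ hH hN hT hγ0 hγγ hrow i hi
  obtain ⟨hd0, hγne, hw1, hw2, ht1, ht2, hfull, hsum⟩ := hT
  obtain ⟨-, x, hxγ, hxD, -, hxr⟩ := (hSg G D d γ).2.1 ht1
  have hxj : ∀ j : ℕ, j < (rq D (AddSubgroup.zmultiples d) γ).card → x - j • d ∈ D := by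
    intro j hj
    have h1 := (hxr (x - j • d)).2 ⟨j, hj, rfl⟩
    exact (Finset.mem_filter.1 h1).1
  have hv := B4_v D x d _ hw1 hxj i
  rw [hxγ] at hv
  exact B4_main hRw hFr κ l D _ γ hH hγne hw1 hw2 hfull hsum hγ0 hrow x hxγ hxD i hi hv

end Pool.Agent.KAT
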