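import Pool.Agent.KAT.St

/-!
# KAT, C1: `a, b` generate the group (Lean: helper6)

The complement of `D` in a coset of `Q = ⟨a, b⟩` with one top `x0` is at most the one element `z = x0 + a`.
-/

set_option autoImplicit false

noncomputable section

open Finset Pool.Agent.Helper64.Rho Pool.Agent.SDG Pool.Agent.MDR Pool.Agent.SSE
open scoped Classical Pointwise

namespace Pool.Agent.KAT

section

variable {G : Type} [AddCommGroup G]

private theorem C1_mk {K : AddSubgroup G} {x y : G} :
    (QuotientAddGroup.mk x : G ⧸ K) = QuotientAddGroup.mk y ↔ x - y ∈ K := by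
  rw [eq_comm, QuotientAddGroup.eq, neg_add_eq_sub]

/-- a coset -/
private def C1C [Finite G] (K : AddSubgroup G) (γ : G ⧸ K) : Finset G :=
  (Set.toFinite {x : G | (QuotientAddGroup.mk x : G ⧸ K) = γ}).toFinset

private theorem C1C_mem [Finite G] {K : AddSubgroup G} {γ : G ⧸ K} {x : G} :
    x ∈ C1C K γ ↔ (QuotientAddGroup.mk x : G ⧸ K) = γ := by
  unfold C1C
  simp

private theorem C1C_card [Finite G] (K : AddSubgroup G) (γ : G ⧸ K) :
    (C1C K γ).card = Nat.card K := by
  obtain ⟨a, rfl⟩ := QuotientAddGroup.mk_surjective γ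
  have h1 : ((Set.toFinite (K : Set G)).toFinset).card = Nat.card K := by
    rw [← Set.ncard_eq_toFinset_card (K : Set G) (Set.toFinite _)]
    rfl
  rw [← h1]
  have h3 : C1C K (QuotientAddGroup.mk a : G ⧸ K) =
      ((Set.toFinite (K : Set G)).toFinset).image fun k => a + k := by
    ext x
    rw [C1C_mem, mem_image]
    constructor
    · intro hx
      refine ⟨x - a, ?_, by abel⟩
      simpa using C1_mk.1 hx
    · rintro ⟨k, hk, rfl⟩
      have hk' : k ∈ K := by simpa using hk
      rw [C1_mk, add_sub_cancel_left]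
      exact hk'
  rw [h3, card_image_of_injective _ (add_right_injective a)]

private theorem C1_mem_rq {D : Finset G} {K : AddSubgroup G} {γ : G ⧸ K} {x : G} :
    x ∈ rq D K γ ↔ x ∈ D ∧ (QuotientAddGroup.mk x : G ⧸ K) = γ := by
  unfold rq
  rw [mem_filter]

private theorem C1_mem_tq {D : Finset G} {K : AddSubgroup G} {d : G} {γ : G ⧸ K} {x : G} :
    x ∈ tq D K d γ ↔ x ∈ rq D K γ ∧ x + d ∉ D := by
  unfold tq
  rw [mem_filter]

/-- a predicate stable under `+ a`, `+ b` is stable under `+ q`, `q ∈ ⟨a, b⟩` (finite group) -/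
private theorem C1_ind [Finite G] {a b : G} {P : G → Prop} (ha : ∀ y, P y → P (y + a))
    (hb : ∀ y, P y → P (y + b)) :
    ∀ q ∈ AddSubgroup.closure ({a, b} : Set G), ∀ y, P y → P (y + q) := by
  intro q hq
  induction hq using AddSubgroup.closure_induction with
  | mem x hx =>
    rcases hx with hx | hx
    · rw [hx]
      exact ha
    · rw [Set.mem_singleton_iff] at hx
      rw [hx]
      exact hb
  | zero =>
    intro y hy
    rwa [add_zero]
  | add x y _ _ h1 h2 =>
    intro z hz
    rw [← add_assoc]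
    exact h2 _ (h1 _ hz)
  | neg x _ h =>
    intro y hy
    have h1 : ∀ n : ℕ, P (y + n • x) := by
      intro n
      induction n with
      | zero => simpa using hy
      | succ n ih =>
        rw [succ_nsmul, ← add_assoc]
        exact h _ ih
    have h3 : 0 < addOrderOf x := addOrderOf_pos x
    have h2 : (addOrderOf x - 1) • x = -x := by
      have h4 : (addOrderOf x - 1) • x + x = 0 := by
        rw [← succ_nsmul, Nat.sub_add_cancel h3, addOrderOf_nsmul_eq_zero]
      exact eq_neg_of_add_eq_zero_left h4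
    rw [← h2]
    exact h1 _

/-- no tops: the coset is full -/
private theorem C1_F0 [Finite G] {D : Finset G} {a b : G} (hT : ∀ x ∈ D, x + b ∈ D ∨ x + b - a ∈ D)
    (Γ : G ⧸ AddSubgroup.closure ({a, b} : Set G))
    (h0 : (tq D (AddSubgroup.closure ({a, b} : Set G)) a Γ).card = 0)
    (h1 : 1 ≤ (rq D (AddSubgroup.closure ({a, b} : Set G)) Γ).card) :
    ∀ x : G, (QuotientAddGroup.mk x : G ⧸ AddSubgroup.closure ({a, b} : Set G)) = Γ → x ∈ D := by
  have haQ : a ∈ AddSubgroup.closure ({a, b} : Set G) :=
    AddSubgroup.subset_closure (Set.mem_insert _ _)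
  have hbQ : b ∈ AddSubgroup.closure ({a, b} : Set G) :=
    AddSubgroup.subset_closure (Set.mem_insert_of_mem _ (Set.mem_singleton _))
  have htop : ∀ y ∈ D, (QuotientAddGroup.mk y : G ⧸ AddSubgroup.closure ({a, b} : Set G)) = Γ →
      y + a ∈ D := by
    intro y hy hyΓ
    by_contra hn
    rw [card_eq_zero] at h0
    have : y ∈ tq D (AddSubgroup.closure ({a, b} : Set G)) a Γ :=
      C1_mem_tq.2 ⟨C1_mem_rq.2 ⟨hy, hyΓ⟩, hn⟩
    rw [h0] at this
    exact absurd this (notMem_empty _)
  have hmk : ∀ y q : G, q ∈ AddSubgroup.closure ({a, b} : Set G) →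
      (QuotientAddGroup.mk (y + q) : G ⧸ AddSubgroup.closure ({a, b} : Set G)) =
        QuotientAddGroup.mk y := by
    intro y q hq
    rw [C1_mk, add_sub_cancel_left]
    exact hq
  obtain ⟨x1, hx1⟩ := card_pos.1 h1
  rw [C1_mem_rq] at hx1
  have key := C1_ind (a := a) (b := b)
    (P := fun y => y ∈ D ∧ (QuotientAddGroup.mk y : G ⧸ AddSubgroup.closure ({a, b} : Set G)) = Γ)
    (fun y hy => ⟨htop y hy.1 hy.2, (hmk y a haQ).trans hy.2⟩)
    (fun y hy => by
      refine ⟨?_, (hmk y b hbQ).trans hy.2⟩
      rcases hT y hy.1 with h | h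
      · exact h
      · have h2 : (QuotientAddGroup.mk (y + b - a) :
            G ⧸ AddSubgroup.closure ({a, b} : Set G)) = Γ := by
          rw [← hy.2, C1_mk]
          have : y + b - a - y = b - a := by abel
          rw [this]
          exact AddSubgroup.sub_mem _ hbQ haQ
        have h3 := htop _ h h2
        rwa [sub_add_cancel] at h3)
  intro x hx
  have h2 : x - x1 ∈ AddSubgroup.closure ({a, b} : Set G) := by
    rw [← C1_mk, hx, hx1.2]
  have h3 := (key _ h2 x1 hx1).1
  rwa [add_sub_cancel] at h3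

/-- one top: at most one element of the coset is missing -/
private theorem C1_F1 [Finite G] {D : Finset G} {a b : G} (hT : ∀ x ∈ D, x + b ∈ D ∨ x + b - a ∈ D)
    (hb0 : b ≠ 0) (hab : a ≠ b) (Γ : G ⧸ AddSubgroup.closure ({a, b} : Set G))
    (h0 : (tq D (AddSubgroup.closure ({a, b} : Set G)) a Γ).card = 1) :
    Nat.card (AddSubgroup.closure ({a, b} : Set G)) ≤
      (rq D (AddSubgroup.closure ({a, b} : Set G)) Γ).card + 1 := by
  have haQ : a ∈ AddSubgroup.closure ({a, b} : Set G) :=
    AddSubgroup.subset_closure (Set.mem_insert _ _)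
  obtain ⟨x0, hx0⟩ := card_eq_one.1 h0
  have hx0' : x0 ∈ tq D (AddSubgroup.closure ({a, b} : Set G)) a Γ := by
    rw [hx0]
    exact mem_singleton_self _
  rw [C1_mem_tq, C1_mem_rq] at hx0'
  obtain ⟨⟨hxD, hxΓ⟩, hxa⟩ := hx0'
  have huniq : ∀ y ∈ D, (QuotientAddGroup.mk y : G ⧸ AddSubgroup.closure ({a, b} : Set G)) = Γ →
      y + a ∉ D → y = x0 := by
    intro y hy hyΓ hn
    have : y ∈ tq D (AddSubgroup.closure ({a, b} : Set G)) a Γ :=
      C1_mem_tq.2 ⟨C1_mem_rq.2 ⟨hy, hyΓ⟩, hn⟩
    rw [hx0] at this
    exact mem_singleton.1 this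
  -- two consecutive missing elements
  have hB : ∀ y, y ∉ D → y - a ∉ D → y - b ∉ D := by
    intro y h1 h2 h3
    rcases hT _ h3 with h | h
    · rw [sub_add_cancel] at h
      exact h1 h
    · rw [sub_add_cancel] at h
      exact h2 h
  -- every row of the coset is met
  have hmeet : ∀ y : G, (QuotientAddGroup.mk y : G ⧸ AddSubgroup.closure ({a, b} : Set G)) = Γ →
      ∃ k : ℤ, y + k • a ∈ D := by
    intro y hy
    by_contra hn
    push Not at hn
    have key := C1_ind (a := a) (b := b) (P := fun y => ∀ k : ℤ, -y + k • a ∉ D)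
      (fun y hy k => by
        have h1 := hy (k - 1)
        have h2 : -(y + a) + k • a = -y + (k - 1) • a := by
          rw [sub_smul, one_smul]
          abel
        rw [h2]
        exact h1)
      (fun y hy k => by
        have h1 := hy k
        have h2 := hy (k - 1)
        have h3 : -y + (k - 1) • a = -y + k • a - a := by
          rw [sub_smul, one_smul]
          abel
        rw [h3] at h2
        have h4 : -(y + b) + k • a = -y + k • a - b := by abel
        rw [h4]
        exact hB _ h1 h2)
    have h2 : y - x0 ∈ AddSubgroup.closure ({a, b} : Set G) := by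
      rw [← C1_mk, hy, hxΓ]
    have h3 := key _ h2 (-y) (by
      intro k
      rw [neg_neg]
      exact hn k) 0
    apply h3
    have h4 : -(-y + (y - x0)) + (0 : ℤ) • a = x0 := by
      rw [zero_smul]
      abel
    rw [h4]
    exact hxD
  -- a missing element is `x0 + (j + 1) a`
  have hA : ∀ y : G, (QuotientAddGroup.mk y : G ⧸ AddSubgroup.closure ({a, b} : Set G)) = Γ →
      y ∉ D → ∃ j : ℕ, y = x0 + a + j • a ∧ ∀ i ≤ j, x0 + a + i • a ∉ D := by
    intro y hy hyD
    obtain ⟨k, hk⟩ := hmeet y hy
    have hex : ∃ i : ℕ, y - i • a ∈ D := by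
      refine ⟨((-k) % (addOrderOf a : ℤ)).toNat, ?_⟩
      have hpos : 0 < addOrderOf a := addOrderOf_pos a
      have h1 : ((((-k) % (addOrderOf a : ℤ)).toNat : ℕ) : ℤ) = (-k) % (addOrderOf a : ℤ) :=
        Int.toNat_of_nonneg (Int.emod_nonneg _ (by exact_mod_cast hpos.ne'))
      have h2 : (((-k) % (addOrderOf a : ℤ)).toNat : ℕ) • a = (-k) • a := by
        rw [← natCast_zsmul, h1, mod_addOrderOf_zsmul]
      rw [h2, neg_smul, sub_neg_eq_add]
      exact hk
    obtain ⟨i, hi⟩ : ∃ i : ℕ, i = Nat.find hex := ⟨_, rfl⟩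
    have hi1 : y - i • a ∈ D := by
      rw [hi]
      exact Nat.find_spec hex
    have hi2 : ∀ i' < i, y - i' • a ∉ D := by
      intro i' h'
      rw [hi] at h'
      exact Nat.find_min hex h'
    have hi0 : i ≠ 0 := by
      intro h
      rw [h, zero_smul, sub_zero] at hi1
      exact hyD hi1
    obtain ⟨j, rfl⟩ := Nat.exists_eq_succ_of_ne_zero hi0
    have e1 : y - (j + 1) • a = x0 := by
      apply huniq _ hi1
      · rw [← hy, C1_mk]
        have : y - (j + 1) • a - y = -((j + 1) • a) := by abel
        rw [this]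
        exact AddSubgroup.neg_mem _ (AddSubgroup.nsmul_mem _ haQ _)
      · have := hi2 j (Nat.lt_succ_self j)
        have e : y - (j + 1) • a + a = y - j • a := by
          rw [succ_nsmul]
          abel
        rw [e]
        exact this
    refine ⟨j, ?_, ?_⟩
    · rw [← e1, succ_nsmul]
      abel
    · intro i hij
      have h1 := hi2 (j - i) (by omega)
      have e : x0 + a + i • a = y - (j - i) • a := by
        have h3 : (j - i) • a + i • a = j • a := by
          rw [← add_nsmul]
          congr 1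
          omega
        rw [← e1, succ_nsmul, ← h3]
        abel
      rw [e]
      exact h1
  -- the second missing element gives a contradiction
  have hsub : C1C (AddSubgroup.closure ({a, b} : Set G)) Γ ⊆
      insert (x0 + a) (rq D (AddSubgroup.closure ({a, b} : Set G)) Γ) := by
    intro y hy
    rw [C1C_mem] at hy
    rw [mem_insert, C1_mem_rq]
    by_cases hyD : y ∈ D
    · exact Or.inr ⟨hyD, hy⟩
    left
    obtain ⟨j, hj1, hj2⟩ := hA y hy hyD
    rcases Nat.eq_zero_or_pos j with rfl | hjpos
    · rw [hj1, zero_smul, add_zero]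
    exfalso
    have hza : x0 + a + 1 • a ∉ D := hj2 1 hjpos
    -- `m` minimal with `z + m a ∈ D`
    have hex : ∃ m : ℕ, x0 + a + m • a ∈ D := by
      refine ⟨addOrderOf a - 1, ?_⟩
      have hpos : 0 < addOrderOf a := addOrderOf_pos a
      have h4 : (addOrderOf a - 1) • a + a = 0 := by
        rw [← succ_nsmul, Nat.sub_add_cancel hpos, addOrderOf_nsmul_eq_zero]
      have h5 : x0 + a + (addOrderOf a - 1) • a = x0 + ((addOrderOf a - 1) • a + a) := by abel
      rw [h5, h4, add_zero]
      exact hxD
    obtain ⟨m, hm⟩ : ∃ m : ℕ, m = Nat.find hex := ⟨_, rfl⟩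
    have hm1 : x0 + a + m • a ∈ D := by
      rw [hm]
      exact Nat.find_spec hex
    have hm2 : ∀ i < m, x0 + a + i • a ∉ D := by
      intro i h'
      rw [hm] at h'
      exact Nat.find_min hex h'
    have hmk : (QuotientAddGroup.mk (x0 + a + 1 • a - b) :
        G ⧸ AddSubgroup.closure ({a, b} : Set G)) = Γ := by
      rw [← hxΓ, C1_mk]
      have : x0 + a + 1 • a - b - x0 = a + a - b := by
        rw [one_smul]
        abel
      rw [this]
      exact AddSubgroup.sub_mem _ (AddSubgroup.add_mem _ haQ haQ)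
        (AddSubgroup.subset_closure (Set.mem_insert_of_mem _ (Set.mem_singleton _)))
    have hn1 : x0 + a + 1 • a - b ∉ D := by
      apply hB _ hza
      have : x0 + a + 1 • a - a = x0 + a := by
        rw [one_smul]
        abel
      rw [this]
      exact hxa
    obtain ⟨t, ht1, ht2⟩ := hA _ hmk hn1
    -- `a - b = t a`
    have ht3 : a - b = t • a := by
      have h1 : x0 + a + 1 • a - b = x0 + a + (a - b) := by
        rw [one_smul]
        abel
      rw [h1] at ht1
      exact add_left_cancel ht1
    have htm : t < m := by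
      by_contra hge
      exact ht2 m (by omega) hm1
    have ht0 : t ≠ 0 := by
      rintro rfl
      rw [zero_smul, sub_eq_zero] at ht3
      exact hab ht3
    have ht1' : t ≠ 1 := by
      rintro rfl
      rw [one_smul] at ht3
      apply hb0
      have : a - b - a = -b := by abel
      rw [ht3, sub_self] at this
      exact (neg_eq_zero.1 this.symm)
    have hi : x0 + a + (m + 1 - t) • a - b ∉ D := by
      apply hB _ (hm2 _ (by omega))
      have e : x0 + a + (m + 1 - t) • a - a = x0 + a + (m - t) • a := by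
        have : m + 1 - t = (m - t) + 1 := by omega
        rw [this, succ_nsmul]
        abel
      rw [e]
      exact hm2 _ (by omega)
    apply hi
    have e : x0 + a + (m + 1 - t) • a - b = x0 + a + m • a := by
      have h1 : m + 1 - t = (m - t) + 1 := by omega
      have h2 : (m - t) • a + t • a = m • a := by
        rw [← add_nsmul]
        congr 1
        omega
      rw [h1, succ_nsmul, ← h2, ← ht3]
      abel
    rw [e]
    exact hm1
  have h2 := card_le_card hsub
  rw [C1C_card] at h2
  exact h2.trans (card_insert_le _ _)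

end

theorem thm_C1 : St_Rw → St_Sg → St_C1 := by
  intro hRw _ G _ _ D a b hNK hTri _ _
  obtain ⟨hlam, hT, _, ha0, hb0, hab⟩ := hTri
  by_contra hQ
  have haQ : a ∈ AddSubgroup.closure ({a, b} : Set G) :=
    AddSubgroup.subset_closure (Set.mem_insert _ _)
  have hbQ : b ∈ AddSubgroup.closure ({a, b} : Set G) :=
    AddSubgroup.subset_closure (Set.mem_insert_of_mem _ (Set.mem_singleton _))
  have hbot : AddSubgroup.closure ({a, b} : Set G) ≠ ⊥ := by
    intro h
    rw [h, AddSubgroup.mem_bot] at haQ
    exact ha0 haQ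
  have h1 := hNK _ hbot hQ
  obtain ⟨r1, r2, r3, r4, r5, _, _, r8, _, _⟩ := hRw G D (AddSubgroup.closure ({a, b} : Set G))
  have h4 := r4 a
  rw [hlam] at h4
  rw [r1, r2] at h1
  -- at least three elements
  have hN : 3 ≤ Nat.card (AddSubgroup.closure ({a, b} : Set G)) := by
    have e1 : ((Set.toFinite ((AddSubgroup.closure ({a, b} : Set G) : AddSubgroup G) :
        Set G)).toFinset).card = Nat.card (AddSubgroup.closure ({a, b} : Set G)) := by
      rw [← Set.ncard_eq_toFinset_card _ (Set.toFinite _)]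
      rfl
    rw [← e1]
    have e2 : ({0, a, b} : Finset G).card = 3 := by
      rw [card_eq_three]
      exact ⟨0, a, b, ha0.symm, hb0.symm, hab, rfl⟩
    rw [← e2]
    apply card_le_card
    intro x hx
    rw [Set.Finite.mem_toFinset, SetLike.mem_coe]
    simp only [mem_insert, mem_singleton] at hx
    rcases hx with rfl | rfl | rfl
    · exact AddSubgroup.zero_mem _
    · exact haQ
    · exact hbQ
  obtain ⟨N, hNdef⟩ : ∃ N, N = Nat.card (AddSubgroup.closure ({a, b} : Set G)) := ⟨_, rfl⟩
  rw [← hNdef] at h1 hN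
  -- the deficits
  have hdef : ∀ Γ ∈ im D (AddSubgroup.closure ({a, b} : Set G)),
      (tq D (AddSubgroup.closure ({a, b} : Set G)) a Γ).card ≤ 1 →
      N ≤ (rq D (AddSubgroup.closure ({a, b} : Set G)) Γ).card +
        (tq D (AddSubgroup.closure ({a, b} : Set G)) a Γ).card := by
    intro Γ hΓ h
    rw [hNdef]
    rcases Nat.eq_zero_or_pos (tq D (AddSubgroup.closure ({a, b} : Set G)) a Γ).card with h0 | h0
    · have := (r8 Γ).2 (C1_F0 hT Γ h0 ((r5 Γ).1 hΓ))
      omega
    · have h00 : (tq D (AddSubgroup.closure ({a, b} : Set G)) a Γ).card = 1 := le_antisymm h h0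
      have := C1_F1 hT hb0 hab Γ h00
      omega
  by_cases hall : ∀ Γ ∈ im D (AddSubgroup.closure ({a, b} : Set G)),
      (tq D (AddSubgroup.closure ({a, b} : Set G)) a Γ).card ≤ 1
  · have h5 : ∑ _Γ ∈ im D (AddSubgroup.closure ({a, b} : Set G)), N ≤
        ∑ Γ ∈ im D (AddSubgroup.closure ({a, b} : Set G)),
          ((rq D (AddSubgroup.closure ({a, b} : Set G)) Γ).card +
            (tq D (AddSubgroup.closure ({a, b} : Set G)) a Γ).card) :=
      sum_le_sum fun Γ hΓ => hdef Γ hΓ (hall Γ hΓ)
    rw [sum_const, smul_eq_mul, sum_add_distrib, ← h4, mul_comm] at h5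
    omega
  · push Not at hall
    obtain ⟨Γ0, hΓ0, h2⟩ := hall
    rw [← add_sum_erase _ _ hΓ0] at h4
    have h6 : ∀ Γ ∈ (im D (AddSubgroup.closure ({a, b} : Set G))).erase Γ0,
        (tq D (AddSubgroup.closure ({a, b} : Set G)) a Γ).card ≤ 1 := by
      intro Γ hΓ
      have := single_le_sum (f := fun Γ => (tq D (AddSubgroup.closure ({a, b} : Set G)) a Γ).card)
        (fun _ _ => Nat.zero_le _) hΓ
      omega
    have h5 : ∑ _Γ ∈ (im D (AddSubgroup.closure ({a, b} : Set G))).erase Γ0, N ≤
        ∑ Γ ∈ (im D (AddSubgroup.closure ({a, b} : Set G))).erase Γ0,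
          ((rq D (AddSubgroup.closure ({a, b} : Set G)) Γ).card +
            (tq D (AddSubgroup.closure ({a, b} : Set G)) a Γ).card) :=
      sum_le_sum fun Γ hΓ => hdef Γ (mem_of_mem_erase hΓ) (h6 Γ hΓ)
    rw [sum_const, smul_eq_mul, sum_add_distrib, card_erase_of_mem hΓ0, mul_comm] at h5
    rw [← add_sum_erase _ _ hΓ0] at h1
    have h7 := (r5 Γ0).1 hΓ0
    have h8 : 1 ≤ (im D (AddSubgroup.closure ({a, b} : Set G))).card := card_pos.2 ⟨_, hΓ0⟩
    have h9 : N * ((im D (AddSubgroup.closure ({a, b} : Set G))).card - 1) + N =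
        N * (im D (AddSubgroup.closure ({a, b} : Set G))).card := by
      rw [← Nat.mul_succ]
      congr 1
      omega
    omega

end Pool.Agent.KAT
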