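import Pool.Agent.KAT.St

/-!
# KAT, [C4]: three-element 2-atoms, index 2 is impossible
-/

set_option autoImplicit false

noncomputable section

open Finset Pool.Agent.Helper64.Rho Pool.Agent.SDG Pool.Agent.MDR Pool.Agent.SSE
open scoped Classical Pointwise

namespace Pool.Agent.KAT

/-- the number of elements of the second row -/
private theorem C4_comb (t : ℤ) (ht : 0 ≤ t) (P : ℤ → Prop) [DecidablePred P]
    (h2 : ∀ j, -t ≤ j → j ≤ t → P j ∨ P (j - 1))
    (he : ((Finset.Icc (-t - 1) t).filter P).card % 2 = 0)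
    (hT : (((Finset.Icc (-t - 1) t).filter P).filter fun i => ¬ P (i + 1)).card = 2) :
    (((Finset.Icc (-t - 1) t).filter P).card : ℤ) = 2 * t := by
  have hW : ((Finset.Icc (-t - 1) t).card : ℤ) = 2 * t + 2 := by
    rw [Int.card_Icc, Int.toNat_of_nonneg (by omega)]
    ring
  have hW' : ((Finset.Icc (-t) t).card : ℤ) = 2 * t + 1 := by
    rw [Int.card_Icc, Int.toNat_of_nonneg (by omega)]
    ring
  have h3 : ((Finset.Icc (-t) t).filter fun i => ¬ P i).card ≤
      (((Finset.Icc (-t - 1) t).filter P).filter fun i => ¬ P (i + 1)).card := by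
    refine Finset.card_le_card_of_injOn (fun j => j - 1) ?_ ?_
    · intro j hj
      rw [Finset.mem_coe, Finset.mem_filter, Finset.mem_Icc] at hj
      show j - 1 ∈ ((((Finset.Icc (-t - 1) t).filter P).filter fun i => ¬ P (i + 1) :
        Finset ℤ) : Set ℤ)
      rw [Finset.mem_coe, Finset.mem_filter, Finset.mem_filter, Finset.mem_Icc]
      refine ⟨⟨⟨by omega, by omega⟩, ?_⟩, ?_⟩
      · rcases h2 j hj.1.1 hj.1.2 with h | h
        · exact absurd h hj.2
        · exact h
      · rw [sub_add_cancel]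
        exact hj.2
    · intro x _ y _ h
      have h' : x - 1 = y - 1 := h
      omega
  have h4 : ((Finset.Icc (-t) t).filter P).card ≤ ((Finset.Icc (-t - 1) t).filter P).card := by
    refine Finset.card_le_card (Finset.filter_subset_filter _ ?_)
    exact Finset.Icc_subset_Icc (by omega) le_rfl
  have h5 := Finset.card_filter_add_card_filter_not (s := Finset.Icc (-t) t) P
  have h6 := Finset.card_filter_add_card_filter_not (s := Finset.Icc (-t - 1) t) P
  have h7 : ((Finset.Icc (-t - 1) t).filter P).card ≠ (Finset.Icc (-t - 1) t).card := by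
    intro h
    have h8 : (Finset.Icc (-t - 1) t).filter P = Finset.Icc (-t - 1) t :=
      Finset.eq_of_subset_of_card_le (Finset.filter_subset _ _) h.ge
    have h9 : (((Finset.Icc (-t - 1) t).filter P).filter fun i => ¬ P (i + 1)) ⊆ {t} := by
      intro i hi
      rw [Finset.mem_filter, Finset.mem_filter, Finset.mem_Icc] at hi
      rw [Finset.mem_singleton]
      by_contra hne
      apply hi.2
      have h10 : i + 1 ∈ (Finset.Icc (-t - 1) t).filter P := by
        rw [h8, Finset.mem_Icc]
        omega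
      exact (Finset.mem_filter.1 h10).2
    have h11 := Finset.card_le_card h9
    rw [hT, Finset.card_singleton] at h11
    omega
  omega

/-- the form of the second row -/
private theorem C4_comb2 (t : ℤ) (ht : 1 ≤ t) (P : ℤ → Prop) [DecidablePred P]
    (h2 : ∀ j, -t ≤ j → j ≤ t → P j ∨ P (j - 1))
    (hc : (((Finset.Icc (-t - 1) t).filter P).card : ℤ) = 2 * t)
    (hT : (((Finset.Icc (-t - 1) t).filter P).filter fun i => ¬ P (i + 1)).card = 2)
    (hn : ¬ P (t + 1)) :
    ∃ s π : ℤ, -t + 1 ≤ π ∧ π ≤ t - 1 ∧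
      (∀ j, -t ≤ j → j ≤ t → (P (j + s) ↔ j ≠ π)) ∧
      ∀ j, -t - 1 ≤ j → j ≤ t → P j → -t ≤ j - s ∧ j - s ≤ t := by
  have hW : ((Finset.Icc (-t - 1) t).card : ℤ) = 2 * t + 2 := by
    rw [Int.card_Icc, Int.toNat_of_nonneg (by omega)]
    ring
  have h6 := Finset.card_filter_add_card_filter_not (s := Finset.Icc (-t - 1) t) P
  have h7 : ((Finset.Icc (-t - 1) t).filter fun i => ¬ P i).card = 2 := by omega
  obtain ⟨p₀, p₁, hne, h8⟩ := Finset.card_eq_two.1 h7
  obtain ⟨p, q, hpq, h9⟩ : ∃ p q : ℤ, p < q ∧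
      ((Finset.Icc (-t - 1) t).filter fun i => ¬ P i) = {p, q} := by
    rcases lt_or_gt_of_ne hne with h | h
    · exact ⟨p₀, p₁, h, h8⟩
    · exact ⟨p₁, p₀, h, by rw [h8, Finset.pair_comm]⟩
  have hP : ∀ i, -t - 1 ≤ i → i ≤ t → (P i ↔ i ≠ p ∧ i ≠ q) := by
    intro i hi hi'
    have h10 : i ∈ ((Finset.Icc (-t - 1) t).filter fun i => ¬ P i) ↔ i = p ∨ i = q := by
      rw [h9, Finset.mem_insert, Finset.mem_singleton]
    rw [Finset.mem_filter, Finset.mem_Icc] at h10
    constructor
    · intro h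
      constructor
      · intro h'
        exact (h10.2 (Or.inl h')).2 h
      · intro h'
        exact (h10.2 (Or.inr h')).2 h
    · rintro ⟨h, h'⟩
      by_contra hcon
      rcases h10.1 ⟨⟨hi, hi'⟩, hcon⟩ with h'' | h''
      · exact h h''
      · exact h' h''
  have hpm : (-t - 1 ≤ p ∧ p ≤ t) ∧ ¬ P p := by
    have : p ∈ ((Finset.Icc (-t - 1) t).filter fun i => ¬ P i) := by
      rw [h9]
      exact Finset.mem_insert_self _ _
    rwa [Finset.mem_filter, Finset.mem_Icc] at this
  have hqm : (-t - 1 ≤ q ∧ q ≤ t) ∧ ¬ P q := by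
    have : q ∈ ((Finset.Icc (-t - 1) t).filter fun i => ¬ P i) := by
      rw [h9]
      exact Finset.mem_insert_of_mem (Finset.mem_singleton_self _)
    rwa [Finset.mem_filter, Finset.mem_Icc] at this
  have hcons : q ≠ p + 1 := by
    intro h
    rcases h2 q (by omega) (by omega) with h' | h'
    · exact hqm.2 h'
    · have e : q - 1 = p := by omega
      rw [e] at h'
      exact hpm.2 h'
  by_cases h10 : p = -t - 1
  · by_cases h11 : q = t
    · exfalso
      have h12 : (((Finset.Icc (-t - 1) t).filter P).filter fun i => ¬ P (i + 1)) ⊆ {t - 1} := by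
        intro i hi
        rw [Finset.mem_filter, Finset.mem_filter, Finset.mem_Icc] at hi
        obtain ⟨⟨⟨i1, i2⟩, i3⟩, i4⟩ := hi
        rw [Finset.mem_singleton]
        by_contra hne'
        have i5 := (hP i i1 i2).1 i3
        apply i4
        rw [hP (i + 1) (by omega) (by omega)]
        omega
      have h13 := Finset.card_le_card h12
      rw [hT, Finset.card_singleton] at h13
      omega
    · refine ⟨0, q, by omega, by omega, fun j hj hj' => ?_, fun j hj hj' hPj => ?_⟩
      · rw [add_zero, hP j (by omega) hj']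
        omega
      · have := (hP j hj hj').1 hPj
        omega
  · by_cases h11 : q = t
    · refine ⟨-1, p + 1, by omega, by omega, fun j hj hj' => ?_, fun j hj hj' hPj => ?_⟩
      · rw [hP (j + -1) (by omega) (by omega)]
        omega
      · have := (hP j hj hj').1 hPj
        omega
    · exfalso
      have h12 : ({p - 1, q - 1, t} : Finset ℤ) ⊆
          (((Finset.Icc (-t - 1) t).filter P).filter fun i => ¬ P (i + 1)) := by
        intro i hi
        rw [Finset.mem_insert, Finset.mem_insert, Finset.mem_singleton] at hi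
        rw [Finset.mem_filter, Finset.mem_filter, Finset.mem_Icc]
        rcases hi with rfl | rfl | rfl
        · refine ⟨⟨⟨by omega, by omega⟩, (hP _ (by omega) (by omega)).2 (by omega)⟩, ?_⟩
          rw [sub_add_cancel]
          exact hpm.2
        · refine ⟨⟨⟨by omega, by omega⟩, (hP _ (by omega) (by omega)).2 (by omega)⟩, ?_⟩
          rw [sub_add_cancel]
          exact hqm.2
        · exact ⟨⟨⟨by omega, by omega⟩, (hP _ (by omega) (by omega)).2 (by omega)⟩, hn⟩
      have h13 := Finset.card_le_card h12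
      rw [hT, Finset.card_insert_of_notMem, Finset.card_pair (by omega)] at h13
      · omega
      · rw [Finset.mem_insert, Finset.mem_singleton]
        omega

theorem thm_C4 : St_Rw → St_Sg → St_C4 := by
  intro hRw hSg G _ _ κ l D a b hyp hnk htri hcl hw htq hwk hidx
  obtain ⟨-, hD, -, hlam, him, -, -, -, hpar, -⟩ := hRw G D (AddSubgroup.zmultiples a)
  obtain ⟨hlam3, htri2, -, -⟩ := htri
  have hsy := hyp.sy
  -- the group
  have hr : Nat.card (AddSubgroup.zmultiples a) = addOrderOf a := Nat.card_zmultiples a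
  have hn : Nat.card (AddSubgroup.zmultiples a) * 2 = Nat.card G := by
    rw [← hidx]
    exact AddSubgroup.card_mul_index _
  have hb0 : (QuotientAddGroup.mk b : G ⧸ AddSubgroup.zmultiples a) ≠ 0 := by
    intro h
    rw [QuotientAddGroup.eq_zero_iff] at h
    have h1 : AddSubgroup.zmultiples a = ⊤ := by
      rw [eq_top_iff, ← hcl, AddSubgroup.closure_le]
      intro x hx
      rcases hx with rfl | hx
      · exact AddSubgroup.mem_zmultiples _
      · rw [Set.mem_singleton_iff] at hx
        rw [hx]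
        exact h
    rw [h1, AddSubgroup.index_top] at hidx
    omega
  have hq : ∀ γ : G ⧸ AddSubgroup.zmultiples a, γ = 0 ∨ γ = QuotientAddGroup.mk b := by
    intro γ
    by_contra hcon
    push Not at hcon
    obtain ⟨y, -, hy⟩ := (Nat.card_eq_two_iff' (0 : G ⧸ AddSubgroup.zmultiples a)).1 hidx
    exact hcon.2 ((hy γ hcon.1).trans (hy _ hb0).symm)
  have hbb : (QuotientAddGroup.mk b : G ⧸ AddSubgroup.zmultiples a) + QuotientAddGroup.mk b = 0 := by
    rcases hq (QuotientAddGroup.mk b + QuotientAddGroup.mk b) with h | h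
    · exact h
    · exact absurd (add_eq_left.1 h) hb0
  have himD : im D (AddSubgroup.zmultiples a) =
      {0, (QuotientAddGroup.mk b : G ⧸ AddSubgroup.zmultiples a)} := by
    ext γ
    rw [Finset.mem_insert, Finset.mem_singleton]
    exact ⟨fun _ => hq γ, fun _ => (him γ).2 (hw γ)⟩
  have hl := hlam a
  rw [hlam3, himD, Finset.sum_pair hb0.symm] at hl
  rw [himD, Finset.sum_pair hb0.symm, hyp.cd] at hD
  -- the number of tops
  have hcyc : ∀ g : G, (QuotientAddGroup.mk g : G ⧸ AddSubgroup.zmultiples a) =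
      QuotientAddGroup.mk b → a ∈ AddSubgroup.zmultiples g → False := by
    intro g hg ha
    apply hyp.nc
    have h1 : AddSubgroup.zmultiples g = ⊤ := by
      rw [eq_top_iff, ← hcl, AddSubgroup.closure_le]
      intro x hx
      rcases hx with rfl | hx
      · exact ha
      · rw [Set.mem_singleton_iff] at hx
        rw [hx]
        rw [QuotientAddGroup.eq] at hg
        have h2 : AddSubgroup.zmultiples a ≤ AddSubgroup.zmultiples g :=
          AddSubgroup.zmultiples_le_of_mem ha
        have h3 := (AddSubgroup.zmultiples g).add_mem (AddSubgroup.mem_zmultiples g) (h2 hg)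
        rwa [add_neg_cancel_left] at h3
    refine ⟨g, fun x => ?_⟩
    have h5 : x ∈ AddSubgroup.zmultiples g := by
      rw [h1]
      exact AddSubgroup.mem_top x
    exact h5
  have ht2 : (tq D (AddSubgroup.zmultiples a) a (QuotientAddGroup.mk b)).card ≠ 1 := by
    intro h
    obtain ⟨-, g, hg, hgg⟩ := (hSg G D a (QuotientAddGroup.mk b)).2.2.1 hsy h hbb hb0
    refine hcyc g hg ?_
    rw [← hgg]
    exact (AddSubgroup.zmultiples g).add_mem (AddSubgroup.mem_zmultiples g)
      (AddSubgroup.mem_zmultiples g)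
  have ht0 := htq 0
  have htb := htq (QuotientAddGroup.mk b)
  obtain ⟨t, hw0, hrow0⟩ := (hSg G D a 0).2.2.2 hsy (by omega) rfl
  have hw0' := hwk 0
  rw [hw0, hr] at hw0'
  -- multiples of `a`
  have hmk : ∀ j : ℤ, (QuotientAddGroup.mk (j • a) : G ⧸ AddSubgroup.zmultiples a) = 0 := fun j =>
    (QuotientAddGroup.eq_zero_iff _).2 ⟨j, rfl⟩
  have hinj : ∀ i j : ℤ, i • a = j • a → i - j < addOrderOf a → j - i < addOrderOf a →
      i = j := by
    intro i j h h1 h2
    have h3 : (addOrderOf a : ℤ) ∣ i - j := by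
      rw [addOrderOf_dvd_iff_zsmul_eq_zero, sub_zsmul, h, add_neg_cancel]
    obtain ⟨c, hc⟩ := h3
    have h4 : (0 : ℤ) < addOrderOf a := by omega
    rcases lt_trichotomy c 0 with h5 | h5 | h5
    · nlinarith
    · rw [h5, mul_zero] at hc
      omega
    · nlinarith
  have hZ0 : ∀ j : ℤ, j • a ∈ D ↔ ∃ i : ℤ, -(t : ℤ) ≤ i ∧ i ≤ t ∧ i • a = j • a := by
    intro j
    have h1 : j • a ∈ D ↔ j • a ∈ rq D (AddSubgroup.zmultiples a) 0 := by
      unfold rq
      rw [Finset.mem_filter]
      exact ⟨fun h => ⟨h, hmk j⟩, fun h => h.1⟩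
    rw [h1, hrow0]
    constructor
    · rintro ⟨i, hi, h | h⟩
      · exact ⟨i, by omega, by omega, by rw [h, natCast_zsmul]⟩
      · exact ⟨-i, by omega, by omega, by rw [h, neg_zsmul, natCast_zsmul]⟩
    · rintro ⟨i, hi1, hi2, h⟩
      rcases le_total 0 i with h0 | h0
      · refine ⟨i.toNat, by omega, Or.inl ?_⟩
        rw [← natCast_zsmul, Int.toNat_of_nonneg h0, h]
      · refine ⟨(-i).toNat, by omega, Or.inr ?_⟩
        rw [← natCast_zsmul, Int.toNat_of_nonneg (by omega), neg_zsmul, neg_neg, h]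
  have hP1 : ∀ j : ℤ, b + j • a ∈ D → ∃ i : ℤ, -(t : ℤ) - 1 ≤ i ∧ i ≤ t ∧ i • a = j • a := by
    intro j hj
    rcases htri2 _ (hsy.2.1 _ hj) with h | h
    · have e : -(b + j • a) + b = (-j) • a := by
        rw [neg_zsmul]
        abel
      rw [e, hZ0] at h
      obtain ⟨i, h1, h2, h3⟩ := h
      exact ⟨-i, by omega, by omega, by rw [neg_zsmul, h3, neg_zsmul, neg_neg]⟩
    · have e : -(b + j • a) + b - a = (-j - 1) • a := by
        rw [sub_zsmul, neg_zsmul, one_zsmul]
        abel
      rw [e, hZ0] at h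
      obtain ⟨i, h1, h2, h3⟩ := h
      refine ⟨-i - 1, by omega, by omega, ?_⟩
      rw [sub_zsmul, neg_zsmul, h3, sub_zsmul, neg_zsmul]
      abel
  have hP2 : ∀ j : ℤ, -(t : ℤ) ≤ j → j ≤ t → b + j • a ∈ D ∨ b + (j - 1) • a ∈ D := by
    intro j hj hj'
    rcases htri2 _ ((hZ0 j).2 ⟨j, hj, hj', rfl⟩) with h | h
    · left
      rwa [add_comm]
    · right
      have e : b + (j - 1) • a = j • a + b - a := by
        rw [sub_zsmul, one_zsmul]
        abel
      rwa [e]
  -- the second row
  have hφ : Set.InjOn (fun i : ℤ => b + i • a)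
      ((Finset.Icc (-(t : ℤ) - 1) t).filter fun i => b + i • a ∈ D : Finset ℤ) := by
    intro i hi j hj hij
    rw [Finset.mem_coe, Finset.mem_filter, Finset.mem_Icc] at hi hj
    have hij' : b + i • a = b + j • a := hij
    exact hinj i j (add_left_cancel hij') (by omega) (by omega)
  have hrowb : rq D (AddSubgroup.zmultiples a) (QuotientAddGroup.mk b) =
      ((Finset.Icc (-(t : ℤ) - 1) t).filter fun i => b + i • a ∈ D).image
        fun i => b + i • a := by
    ext y
    unfold rq
    rw [Finset.mem_filter, Finset.mem_image]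
    constructor
    · rintro ⟨hy, hyb⟩
      rw [eq_comm, QuotientAddGroup.eq] at hyb
      obtain ⟨j, hj⟩ := hyb
      have hj' : j • a = -b + y := hj
      have hy' : y = b + j • a := by rw [hj', add_neg_cancel_left]
      rw [hy'] at hy
      obtain ⟨i, h1, h2, h3⟩ := hP1 j hy
      refine ⟨i, ?_, by rw [hy', h3]⟩
      rw [Finset.mem_filter, Finset.mem_Icc, h3]
      exact ⟨⟨h1, h2⟩, hy⟩
    · rintro ⟨i, hi, rfl⟩
      rw [Finset.mem_filter] at hi
      refine ⟨hi.2, ?_⟩
      rw [QuotientAddGroup.mk_add, hmk, add_zero]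
  have hcardb : (rq D (AddSubgroup.zmultiples a) (QuotientAddGroup.mk b)).card =
      ((Finset.Icc (-(t : ℤ) - 1) t).filter fun i => b + i • a ∈ D).card := by
    rw [hrowb, Finset.card_image_of_injOn hφ]
  have htopb : (tq D (AddSubgroup.zmultiples a) a (QuotientAddGroup.mk b)).card =
      (((Finset.Icc (-(t : ℤ) - 1) t).filter fun i => b + i • a ∈ D).filter
        fun i => ¬ (b + (i + 1) • a ∈ D)).card := by
    unfold tq
    rw [hrowb, Finset.filter_image, Finset.card_image_of_injOn
      (hφ.mono (Finset.coe_subset.2 (Finset.filter_subset _ _)))]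
    congr 1
    refine Finset.filter_congr fun i _ => ?_
    have e : b + i • a + a = b + (i + 1) • a := by
      rw [add_zsmul, one_zsmul, add_assoc]
    rw [e]
  have heven := (hpar hsy).1 _ hbb hb0
  rw [hcardb] at heven
  have hT2 : (((Finset.Icc (-(t : ℤ) - 1) t).filter fun i => b + i • a ∈ D).filter
      fun i => ¬ (b + (i + 1) • a ∈ D)).card = 2 := by
    rw [← htopb]
    omega
  have hc := C4_comb t (by omega) (fun i => b + i • a ∈ D) hP2 heven hT2
  have hwb := hw (QuotientAddGroup.mk b)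
  rw [hcardb] at hwb
  rw [hcardb, hw0] at hD
  have hnG := hyp.nG
  have hr4 : 4 * t + 1 ≤ addOrderOf a := by omega
  have ht1 : 1 ≤ t := by omega
  have hnt : ¬ (b + ((t : ℤ) + 1) • a ∈ D) := by
    intro h
    obtain ⟨i, h1, h2, h3⟩ := hP1 _ h
    have := hinj i _ h3 (by omega) (by omega)
    omega
  obtain ⟨s, π, hπ1, hπ2, hQ, hQ'⟩ := C4_comb2 t (by omega) (fun i => b + i • a ∈ D) hP2 hc hT2 hnt
  obtain ⟨g, hg⟩ : ∃ g : G, g = b + s • a := ⟨_, rfl⟩
  have hgj : ∀ j : ℤ, g + j • a = b + (j + s) • a := by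
    intro j
    rw [hg, add_zsmul]
    abel
  have hmg : (QuotientAddGroup.mk g : G ⧸ AddSubgroup.zmultiples a) = QuotientAddGroup.mk b := by
    rw [hg, QuotientAddGroup.mk_add, hmk, add_zero]
  have hQ1 : ∀ j : ℤ, -(t : ℤ) ≤ j → j ≤ t → (g + j • a ∈ D ↔ j ≠ π) := by
    intro j hj hj'
    rw [hgj]
    exact hQ j hj hj'
  have hQ2 : ∀ j : ℤ, g + j • a ∈ D → ∃ i : ℤ, -(t : ℤ) ≤ i ∧ i ≤ t ∧ i • a = j • a := by
    intro j hj
    rw [hgj] at hj
    obtain ⟨i, h1, h2, h3⟩ := hP1 _ hj
    rw [← h3] at hj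
    obtain ⟨h4, h5⟩ := hQ' i h1 h2 hj
    refine ⟨i - s, h4, h5, ?_⟩
    rw [sub_zsmul, h3, add_zsmul, add_neg_cancel_right]
  -- `g + g = 0`
  obtain ⟨c, hc2⟩ : ∃ c : ℤ, c • a = g + g := by
    have h1 : (QuotientAddGroup.mk (g + g) : G ⧸ AddSubgroup.zmultiples a) = 0 := by
      rw [QuotientAddGroup.mk_add, hmg, hbb]
    rw [QuotientAddGroup.eq_zero_iff] at h1
    obtain ⟨c, hc⟩ := h1
    exact ⟨c, hc⟩
  have hneg : ∀ j : ℤ, -(g + j • a) = g + (-c - j) • a := by
    intro j
    rw [sub_zsmul, neg_zsmul, hc2]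
    abel
  have hgg : g + g = 0 := by
    have h1 := hsy.2.1 _ ((hQ1 t (by omega) (by omega)).2 (by omega))
    have h2 := hsy.2.1 _ ((hQ1 (-t) (by omega) (by omega)).2 (by omega))
    rw [hneg] at h1 h2
    obtain ⟨i1, a1, a2, a3⟩ := hQ2 _ h1
    obtain ⟨i2, b1, b2, b3⟩ := hQ2 _ h2
    have h3 : (i2 - i1) • a = (2 * (t : ℤ)) • a := by
      rw [sub_zsmul, a3, b3, ← sub_zsmul]
      congr 1
      ring
    have h4 := hinj _ _ h3 (by omega) (by omega)
    have h5 : i1 = -t := by omega
    rw [h5] at a3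
    have h6 : c • a = 0 := by
      have h7 : (-c - (t : ℤ)) • a = -(c • a) + (-(t : ℤ)) • a := by
        rw [sub_eq_add_neg, add_zsmul, neg_zsmul a c]
      rw [h7] at a3
      have h8 : -(c • a) = 0 := by
        have := sub_eq_zero.2 a3
        have h9 : (-(t : ℤ)) • a - (-(c • a) + (-(t : ℤ)) • a) = c • a := by abel
        rw [h9] at this
        rw [this, neg_zero]
      exact neg_eq_zero.1 h8
    rw [← hc2, h6]
  have hngg : -g = g := neg_eq_of_add_eq_zero_left hgg
  have hπ0 : π = 0 := by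
    by_contra hne
    have h1 := hsy.2.1 _ ((hQ1 (-π) (by omega) (by omega)).2 (by omega))
    have h2 : -(g + (-π) • a) = g + π • a := by
      rw [neg_add, neg_zsmul, neg_neg, hngg]
    rw [h2, hQ1 π (by omega) (by omega)] at h1
    exact h1 rfl
  -- the group generated by `g`
  have hg0 : g ≠ 0 := by
    rintro h
    rw [h] at hmg
    exact hb0 (hmg.symm.trans (QuotientAddGroup.mk_zero _))
  have hHb : AddSubgroup.zmultiples g ≠ ⊥ := by
    rw [Ne, AddSubgroup.zmultiples_eq_bot]
    exact hg0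
  have hHt : AddSubgroup.zmultiples g ≠ ⊤ := by
    intro h
    refine hyp.nc ⟨g, fun x => ?_⟩
    have h5 : x ∈ AddSubgroup.zmultiples g := by
      rw [h]
      exact AddSubgroup.mem_top x
    exact h5
  have h1 := hnk _ hHb hHt
  have h2 : Nat.card (AddSubgroup.zmultiples g) = 2 := by
    rw [Nat.card_zmultiples]
    refine addOrderOf_eq_prime ?_ hg0
    rw [two_nsmul, hgg]
  have h3 : ∀ y ∈ D, y + g ∈ insert g D := by
    intro y hy
    rcases hq (QuotientAddGroup.mk y) with h | h
    · rw [QuotientAddGroup.eq_zero_iff] at h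
      obtain ⟨j, hj⟩ := h
      have hj' : j • a = y := hj
      rw [← hj'] at hy ⊢
      obtain ⟨i, h1, h2, h3⟩ := (hZ0 j).1 hy
      rw [← h3, Finset.mem_insert]
      by_cases h4 : i = 0
      · left
        rw [h4, zero_zsmul, zero_add]
      · right
        rw [add_comm, hQ1 i h1 h2, hπ0]
        exact h4
    · rw [← hmg, eq_comm, QuotientAddGroup.eq] at h
      obtain ⟨j, hj⟩ := h
      have hj' : j • a = -g + y := hj
      have hy' : y = g + j • a := by rw [hj', add_neg_cancel_left]
      rw [hy'] at hy ⊢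
      obtain ⟨i, h1, h2, h3⟩ := hQ2 j hy
      rw [Finset.mem_insert]
      right
      have e : g + j • a + g = i • a := by
        have e' : g + j • a + g = g + g + j • a := by abel
        rw [e', hgg, zero_add, h3]
      rw [e]
      exact (hZ0 i).2 ⟨i, h1, h2, rfl⟩
  have h4 : st D (AddSubgroup.zmultiples g) ⊆ insert g D := by
    intro x hx
    unfold st at hx
    rw [Set.Finite.mem_toFinset] at hx
    obtain ⟨y, hy, k, hk⟩ := hx
    have hk' : k • g = x - y := hk
    have hxy : x = y + k • g := by rw [hk', add_sub_cancel]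
    rcases Int.even_or_odd' k with ⟨m, hm | hm⟩
    · have e : k • g = 0 := by
        rw [hm, mul_comm, mul_zsmul, two_zsmul, hgg, zsmul_zero]
      rw [hxy, e, add_zero]
      exact Finset.mem_insert_of_mem hy
    · have e : k • g = g := by
        rw [hm, add_zsmul, mul_comm, mul_zsmul, two_zsmul, hgg, zsmul_zero, zero_add, one_zsmul]
      rw [hxy, e]
      exact h3 y hy
  have h5 := Finset.card_le_card h4
  have h6 := Finset.card_insert_le g D
  omega

end Pool.Agent.KAT
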