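import Pool.Agent.KAT.St
import Pool.Agent.SSE.GS

/-!
# KAT, module Co (MP_ec93d3_co): the core
-/

set_option autoImplicit false

noncomputable section

open Finset Pool.Agent.Helper64.Rho Pool.Agent.SDG Pool.Agent.MDR Pool.Agent.SSE
open scoped Classical Pointwise

namespace Pool.Agent.KAT

private theorem Co_mem_st {G : Type} [AddCommGroup G] [Finite G] {A : Finset G}
    {H : AddSubgroup G} {x : G} : x ∈ st A H ↔ ∃ a ∈ A, x - a ∈ H := by
  unfold st
  rw [Set.Finite.mem_toFinset]
  rfl

private theorem Co_it_one {Q : Type} [AddCommGroup Q] (E : Finset Q) : it E 1 = E := by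
  show ({0} : Finset Q) + E = E
  rw [singleton_zero, zero_add]

private theorem Co_apk {G : Type} [AddCommGroup G] [Finite G] (D : Finset G)
    (h : ¬ IsAddCyclic G) : ¬ APK D ⊥ := by
  rintro ⟨d, a, hd, -⟩
  apply h
  refine ⟨⟨d, fun x => ?_⟩⟩
  obtain ⟨k, hk⟩ := hd x
  rw [AddSubgroup.mem_bot, sub_eq_zero] at hk
  rw [hk]
  exact AddSubgroup.nsmul_mem_zmultiples d k

private theorem Co_shift {G : Type} [AddCommGroup G] (A D : Finset G) (d : G) (h0 : (0 : G) ∈ A)
    (hd : d ∈ A) : D ∪ D.image (· + d) ⊆ A + D := by
  intro x hx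
  rcases mem_union.1 hx with h | h
  · exact mem_add.2 ⟨0, h0, x, h, zero_add x⟩
  · obtain ⟨y, hy, rfl⟩ := mem_image.1 h
    exact mem_add.2 ⟨d, hd, y, hy, add_comm d y⟩

/-- one step -/
private theorem Co_step (hC1 : St_C1) (hC2 : St_C2) (hC3 : St_C3) (hC4 : St_C4) {G : Type}
    [AddCommGroup G] [Finite G] (κ l : ℕ) (D : Finset G) (H : Hyp κ l D) (hN : NK1 D)
    (hl : ∀ x : G, x ≠ 0 → 3 ≤ lam D x) (E : Finset G) (hE : 2 ≤ E.card)
    (hED : (E + D).card + 2 ≤ Nat.card G) : E.card + D.card + 1 ≤ (E + D).card := by
  haveI : Fintype G := Fintype.ofFinite G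
  have hst : ∀ K : AddSubgroup G, st D K = Helper58.sat D K := by
    intro K
    ext x
    rw [Co_mem_st, Helper58.mem_sat]
  have hFc : ∀ K : AddSubgroup G, Nat.card K = (Helper58.F K).card := by
    intro K
    rw [Nat.card_eq_fintype_card, Helper58.F]
    exact Fintype.card_subtype _
  have hl1 : 1 ≤ l := by rcases H.kl with h | h <;> omega
  have hcd := H.cd
  by_contra hcon
  have hle : (E + D).card ≤ E.card + D.card + 0 := by omega
  rcases two_atom 0 (D := D) (X := E) (by omega) hE
    (by rw [← Nat.card_eq_fintype_card]; exact hED) hle with ⟨K, hK1, hK2, hK3⟩ | ⟨A, h0, -, hA2,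
      hA3, hA4, -⟩
  · have h1 := hN K hK1 hK2
    rw [hst, hFc] at h1
    omega
  · have hcase : A.card = 2 ∨ A.card = 3 := by omega
    rcases hcase with hc | hc
    · obtain ⟨d, hd, hd0⟩ : ∃ d ∈ A, d ≠ 0 := by
        by_contra hno
        push Not at hno
        have h1 : A ⊆ {0} := fun x hx => mem_singleton.2 (hno x hx)
        have h2 := card_le_card h1
        rw [card_singleton] at h2
        omega
      have h1 := card_le_card (Co_shift A D d h0 hd)
      rw [card_union_shift] at h1
      have h2 := hl d hd0
      omega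
    · have h3 : (A.erase 0).card = 2 := by
        rw [card_erase_of_mem h0, hc]
      obtain ⟨a, b, hab, hA⟩ := card_eq_two.1 h3
      have ha : a ∈ A.erase 0 := by
        rw [hA]
        exact mem_insert_self _ _
      have hb : b ∈ A.erase 0 := by
        rw [hA]
        exact mem_insert_of_mem (mem_singleton_self _)
      obtain ⟨ha0, haA⟩ := mem_erase.1 ha
      obtain ⟨hb0, hbA⟩ := mem_erase.1 hb
      have hsub := Co_shift A D a h0 haA
      have h1 := card_le_card hsub
      rw [card_union_shift] at h1
      have h2 := hl a ha0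
      have hla : lam D a = 3 := by omega
      have heq : D ∪ D.image (· + a) = A + D := by
        refine eq_of_subset_of_card_le hsub ?_
        rw [card_union_shift]
        omega
      have hT : Tri D a b := by
        refine ⟨hla, fun x hx => ?_, hl, ha0, hb0, hab⟩
        have h4 : x + b ∈ D ∪ D.image (· + a) := by
          rw [heq]
          exact mem_add.2 ⟨b, hbA, x, hx, add_comm b x⟩
        rcases mem_union.1 h4 with h5 | h5
        · exact Or.inl h5
        · right
          obtain ⟨y, hy, hyx⟩ := mem_image.1 h5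
          have h6 : x + b - a = y := by
            rw [← hyx]
            simp
          rw [h6]
          exact hy
      have hcl := hC1 G D a b hN hT H.sy.2.1 H.sy.1
      obtain ⟨r1, r2, r3, r4⟩ := hC2 G κ l D a b H hN hT hcl
      rcases r4 with r4 | r4
      · exact hC4 G κ l D a b H hN hT hcl r1 r2 r3 r4
      · exact hC3 G κ l D a b H hN hT hcl r1 r2 r3 r4

theorem thm_Co : St_Ka → St_Kb → St_C1 → St_C2 → St_C3 → St_C4 → St_Co := by
  intro hKa hKb hC1 hC2 hC3 hC4 G _ _ κ l D H i hi
  have hκ : 1 ≤ κ := by rcases H.kl with h | h <;> omega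
  have hl1 : 1 ≤ l := by rcases H.kl with h | h <;> omega
  have hcd := H.cd
  have hapk := Co_apk D H.nc
  rcases Nat.lt_or_ge i 3 with hi3 | hi3
  · have hcase : i = 1 ∨ i = 2 := by omega
    rcases hcase with rfl | rfl
    · right; left
      rw [Co_it_one]
      omega
    · have h2 : it D 2 = D + D := by
        show it D 1 + D = D + D
        rw [Co_it_one]
      rw [h2]
      by_cases hc : (D + D).card + 2 ≤ Nat.card G
      · have h3 := thm_GS G D D H.sy.1 H.sy.2.1 (by omega) H.nf hapk (by omega) hc
        right; right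
        exact ⟨by omega, Or.inl rfl⟩
      · left
        omega
  · have hgr3 : Gr3 κ l D → (Nat.card G ≤ (it D i).card + κ ∨ i * (2 * l + 2) ≤ (it D i).card + 1 ∨
        (i * (2 * l + 2) ≤ (it D i).card + 2 ∧ (i = 2 ∨ κ = 1))) := by
      intro h
      rcases h i hi3 with h | h | ⟨h, h'⟩
      · exact Or.inl h
      · exact Or.inr (Or.inl h)
      · exact Or.inr (Or.inr ⟨h, Or.inr h'⟩)
    by_cases hex : ∃ K : AddSubgroup G, K ≠ ⊥ ∧ K ≠ ⊤ ∧ (st D K).card ≤ D.card + Nat.card K
    · exact hgr3 (hKa G κ l D H hex)
    · have hN : NK1 D := by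
        intro K hK1 hK2
        by_contra hcon
        exact hex ⟨K, hK1, hK2, by omega⟩
      by_cases hd : ∃ d : G, d ≠ 0 ∧ lam D d ≤ 2
      · obtain ⟨d, hd0, hd2⟩ := hd
        exact hgr3 (hKb G κ l D d H hN hd0 hd2)
      · have hl : ∀ x : G, x ≠ 0 → 3 ≤ lam D x := by
          intro x hx
          by_contra hcon
          exact hd ⟨x, hx, by omega⟩
        have hind : ∀ j, 1 ≤ j → D.card ≤ (it D j).card ∧
            (Nat.card G ≤ (it D j).card + 1 ∨ j * (2 * l + 2) ≤ (it D j).card + 1) := by
          intro j hj
          induction j, hj using Nat.le_induction with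
          | base =>
            rw [Co_it_one]
            exact ⟨le_rfl, Or.inr (by omega)⟩
          | succ j hj ih =>
            obtain ⟨ih1, ih2⟩ := ih
            have hsub : it D j ⊆ it D j + D := by
              intro x hx
              exact mem_add.2 ⟨x, hx, 0, H.sy.1, add_zero x⟩
            have hle : (it D j).card ≤ (it D j + D).card := card_le_card hsub
            have hit : it D (j + 1) = it D j + D := rfl
            rw [hit]
            refine ⟨ih1.trans hle, ?_⟩
            by_cases hc : (it D j + D).card + 2 ≤ Nat.card G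
            · right
              have h3 := Co_step hC1 hC2 hC3 hC4 κ l D H hN hl (it D j) (by omega) hc
              rcases ih2 with h4 | h4
              · omega
              · rw [add_mul, one_mul]
                omega
            · left
              omega
        rcases (hind i hi).2 with h | h
        · exact Or.inl (by omega)
        · exact Or.inr (Or.inl h)

end Pool.Agent.KAT
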