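import Pool.Agent.KAT.St

/-!
# KAT: module Df (from families to sets)
-/

set_option autoImplicit false

noncomputable section

open Finset Pool.Agent.Helper64.Rho Pool.Agent.SDG Pool.Agent.MDR Pool.Agent.SSE
open scoped Classical Pointwise

namespace Pool.Agent.KAT

private theorem Df_mem {G ι : Type} [AddCommGroup G] {u : Finset ι} {f : ι → G} {x : G} :
    x ∈ sym u f ↔ x = 0 ∨ (∃ i ∈ u, f i = x) ∨ ∃ i ∈ u, -f i = x := by
  unfold sym
  simp only [mem_union, mem_singleton, mem_image]

private theorem Df_sy {G ι : Type} [AddCommGroup G] (u : Finset ι) (f : ι → G) (h : AE u f) :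
    SY (sym u f) := by
  refine ⟨Df_mem.mpr (Or.inl rfl), ?_, ?_⟩
  · intro y hy
    rcases Df_mem.mp hy with rfl | ⟨i, hi, rfl⟩ | ⟨i, hi, rfl⟩
    · exact Df_mem.mpr (Or.inl neg_zero)
    · exact Df_mem.mpr (Or.inr (Or.inr ⟨i, hi, rfl⟩))
    · exact Df_mem.mpr (Or.inr (Or.inl ⟨i, hi, (neg_neg _).symm⟩))
  · intro y hy h2
    rcases Df_mem.mp hy with rfl | ⟨i, hi, rfl⟩ | ⟨i, hi, rfl⟩
    · rfl
    · exact absurd h2 (h.2 i hi)
    · refine absurd ?_ (h.2 i hi)
      have h3 : -(f i + f i) = 0 := by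
        rw [neg_add]
        exact h2
      exact neg_eq_zero.mp h3

private theorem Df_row {G ι : Type} [AddCommGroup G] (u : Finset ι) (f : ι → G)
    (K : AddSubgroup G) (c : G) (hc : c + c ∉ K) :
    (rq (sym u f) K (QuotientAddGroup.mk c)).card ≤
      (u.filter fun i => f i - c ∈ K ∨ f i + c ∈ K).card := by
  have h1 : rq (sym u f) K (QuotientAddGroup.mk c) ⊆
      (u.filter fun i => f i - c ∈ K ∨ f i + c ∈ K).image
        (fun i => if f i - c ∈ K then f i else -f i) := by
    intro x hx
    unfold rq at hx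
    rw [mem_filter] at hx
    obtain ⟨hx1, hx2⟩ := hx
    have hx3 : -x + c ∈ K := QuotientAddGroup.eq.mp hx2
    rw [mem_image]
    rcases Df_mem.mp hx1 with rfl | ⟨i, hi, rfl⟩ | ⟨i, hi, rfl⟩
    · exfalso
      apply hc
      have h3 : c ∈ K := by
        rw [neg_zero, zero_add] at hx3
        exact hx3
      exact K.add_mem h3 h3
    · have h3 : f i - c ∈ K := by
        have h4 := K.neg_mem hx3
        have h5 : -(-f i + c) = f i - c := by abel
        rw [h5] at h4
        exact h4
      exact ⟨i, mem_filter.mpr ⟨hi, Or.inl h3⟩, if_pos h3⟩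
    · have h3 : f i + c ∈ K := by
        rw [neg_neg] at hx3
        exact hx3
      have h4 : f i - c ∉ K := by
        intro h5
        apply hc
        have h6 := K.sub_mem h3 h5
        have h7 : f i + c - (f i - c) = c + c := by abel
        rw [h7] at h6
        exact h6
      exact ⟨i, mem_filter.mpr ⟨hi, Or.inr h3⟩, if_neg h4⟩
  exact (card_le_card h1).trans card_image_le

private theorem Df_zero {G ι : Type} [AddCommGroup G] (u : Finset ι) (f : ι → G)
    (K : AddSubgroup G) :
    (rq (sym u f) K 0).card ≤ 1 + 2 * (ins u f K).card := by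
  have h1 : rq (sym u f) K 0 ⊆
      {0} ∪ ((ins u f K).image f ∪ (ins u f K).image (fun i => -f i)) := by
    intro x hx
    unfold rq at hx
    rw [mem_filter] at hx
    obtain ⟨hx1, hx2⟩ := hx
    have hx3 : x ∈ K := (QuotientAddGroup.eq_zero_iff x).mp hx2
    rw [mem_union, mem_union, mem_singleton, mem_image, mem_image]
    rcases Df_mem.mp hx1 with rfl | ⟨i, hi, rfl⟩ | ⟨i, hi, rfl⟩
    · exact Or.inl rfl
    · exact Or.inr (Or.inl ⟨i, mem_filter.mpr ⟨hi, hx3⟩, rfl⟩)
    · refine Or.inr (Or.inr ⟨i, mem_filter.mpr ⟨hi, ?_⟩, rfl⟩)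
      have h4 := K.neg_mem hx3
      rw [neg_neg] at h4
      exact h4
  refine (card_le_card h1).trans ((card_union_le _ _).trans ?_)
  rw [card_singleton]
  have h2 : ((ins u f K).image f ∪ (ins u f K).image (fun i => -f i)).card ≤
      (ins u f K).card + (ins u f K).card :=
    (card_union_le _ _).trans (add_le_add card_image_le card_image_le)
  omega

theorem thm_Df : St_Rw → St_Df := by
  intro _ G ι _ _ u f hAE hD
  refine ⟨?_, Df_sy u f hAE⟩
  intro K γ hK hγ hk
  obtain ⟨c, rfl⟩ := QuotientAddGroup.mk_surjective γ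
  have hc : c + c ∉ K := by
    intro h
    apply hγ
    have h1 : (QuotientAddGroup.mk (c + c) : G ⧸ K) = 0 := (QuotientAddGroup.eq_zero_iff _).mpr h
    exact h1
  refine hD K c hK hc ?_
  have h1 := Df_row u f K c hc
  have h2 := Df_zero u f K
  omega

end Pool.Agent.KAT
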