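import Pool.Agent.KAT.St

/-!
# KAT, module Fr: full rows and sum sets (helper81)

Statement of helper86, `KAT.St_Fr`.
-/

set_option autoImplicit false

noncomputable section

open Finset Pool.Agent.Helper64.Rho Pool.Agent.SDG Pool.Agent.MDR Pool.Agent.SSE
open scoped Classical Pointwise

namespace Pool.Agent.KAT

/-- the elements of a coset -/
private def Fr_cos {G : Type} [AddCommGroup G] [Finite G] (K : AddSubgroup G) (γ : G ⧸ K) :
    Finset G :=
  (Set.toFinite {x : G | (QuotientAddGroup.mk x : G ⧸ K) = γ}).toFinset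

private theorem Fr_mem_cos {G : Type} [AddCommGroup G] [Finite G] (K : AddSubgroup G)
    (γ : G ⧸ K) (x : G) : x ∈ Fr_cos K γ ↔ (QuotientAddGroup.mk x : G ⧸ K) = γ := by
  unfold Fr_cos
  rw [Set.Finite.mem_toFinset]
  rfl

private theorem Fr_card_cos {G : Type} [AddCommGroup G] [Finite G] (K : AddSubgroup G)
    (γ : G ⧸ K) : (Fr_cos K γ).card = Nat.card K := by
  have := Fintype.ofFinite K
  obtain ⟨g, rfl⟩ := QuotientAddGroup.mk_surjective γ
  have h : Fr_cos K (QuotientAddGroup.mk g) = (univ : Finset K).image (fun k : K => g + (k : G)) := by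
    ext x
    rw [Fr_mem_cos, mem_image]
    constructor
    · intro hx
      rw [eq_comm, QuotientAddGroup.eq] at hx
      exact ⟨⟨-g + x, hx⟩, mem_univ _, by simp⟩
    · rintro ⟨k, _, rfl⟩
      rw [eq_comm, QuotientAddGroup.eq]
      simp
  rw [h, card_image_of_injective _ (fun a b hab => Subtype.ext (add_left_cancel hab)), card_univ,
    Nat.card_eq_fintype_card]

private theorem Fr_mem_rq {G : Type} [AddCommGroup G] (D : Finset G) (K : AddSubgroup G)
    (γ : G ⧸ K) (x : G) : x ∈ rq D K γ ↔ x ∈ D ∧ (QuotientAddGroup.mk x : G ⧸ K) = γ := by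
  unfold rq
  rw [mem_filter]

private theorem Fr_rq_sub {G : Type} [AddCommGroup G] [Finite G] (D : Finset G)
    (K : AddSubgroup G) (γ : G ⧸ K) : rq D K γ ⊆ Fr_cos K γ := by
  intro x hx
  rw [Fr_mem_cos]
  exact ((Fr_mem_rq D K γ x).1 hx).2

private theorem Fr_full {G : Type} [AddCommGroup G] [Finite G] (D : Finset G)
    (K : AddSubgroup G) (γ : G ⧸ K) : (rq D K γ).card = Nat.card K ↔
      ∀ x : G, (QuotientAddGroup.mk x : G ⧸ K) = γ → x ∈ D := by
  constructor
  · intro h x hx
    have h1 : rq D K γ = Fr_cos K γ :=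
      eq_of_subset_of_card_le (Fr_rq_sub D K γ) (by rw [h, Fr_card_cos])
    have h2 : x ∈ rq D K γ := by
      rw [h1, Fr_mem_cos]
      exact hx
    exact ((Fr_mem_rq D K γ x).1 h2).1
  · intro h
    have h1 : rq D K γ = Fr_cos K γ := by
      refine Subset.antisymm (Fr_rq_sub D K γ) fun x hx => ?_
      rw [Fr_mem_cos] at hx
      exact (Fr_mem_rq D K γ x).2 ⟨h x hx, hx⟩
    rw [h1, Fr_card_cos]

private theorem Fr_mem_im {G : Type} [AddCommGroup G] (D : Finset G) (K : AddSubgroup G)
    (γ : G ⧸ K) : γ ∈ im D K ↔ ∃ x ∈ D, (QuotientAddGroup.mk x : G ⧸ K) = γ := by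
  unfold im
  rw [mem_image]

private theorem Fr_add {G : Type} [AddCommGroup G] (E F : Finset G) (x : G) :
    x ∈ E + F ↔ ∃ a ∈ E, ∃ b ∈ F, a + b = x := mem_add

private theorem Fr_it_succ {G : Type} [AddCommGroup G] (D : Finset G) (i : ℕ) (x : G) :
    x ∈ it D (i + 1) ↔ ∃ a ∈ it D i, ∃ b ∈ D, a + b = x := by
  show x ∈ it D i + D ↔ _
  exact mem_add

theorem thm_Fr : St_Fr := by
  intro G _ _ D K
  have h6 : ∀ i j, it D (i + j) = it D i + it D j := by
    intro i j
    induction j with
    | zero =>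
      ext x
      rw [Fr_add]
      constructor
      · intro hx
        exact ⟨x, hx, 0, mem_singleton_self _, add_zero _⟩
      · rintro ⟨a, ha, b, hb, rfl⟩
        have hb' : b = 0 := mem_singleton.1 hb
        subst hb'
        rw [add_zero a]
        exact ha
    | succ j ih =>
      show it D (i + j) + D = it D i + (it D j + D)
      rw [ih, add_assoc]
  refine ⟨?_, ?_, ?_, ?_, ?_, h6⟩
  · intro i
    induction i with
    | zero =>
      ext γ
      rw [Fr_mem_im]
      constructor
      · rintro ⟨x, hx, rfl⟩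
        rw [show x = 0 from mem_singleton.1 hx]
        exact mem_singleton_self _
      · intro h
        rw [show γ = 0 from mem_singleton.1 h]
        exact ⟨0, mem_singleton_self _, rfl⟩
    | succ i ih =>
      ext γ
      rw [Fr_it_succ, ← ih, Fr_mem_im]
      constructor
      · rintro ⟨x, hx, rfl⟩
        obtain ⟨a, ha, b, hb, rfl⟩ := (Fr_it_succ _ _ _).1 hx
        exact ⟨QuotientAddGroup.mk a, (Fr_mem_im _ _ _).2 ⟨a, ha, rfl⟩, QuotientAddGroup.mk b,
          (Fr_mem_im _ _ _).2 ⟨b, hb, rfl⟩, rfl⟩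
      · rintro ⟨α, hα, β, hβ, rfl⟩
        obtain ⟨a, ha, rfl⟩ := (Fr_mem_im _ _ _).1 hα
        obtain ⟨b, hb, rfl⟩ := (Fr_mem_im _ _ _).1 hβ
        exact ⟨a + b, (Fr_it_succ _ _ _).2 ⟨a, ha, b, hb, rfl⟩, rfl⟩
  · intro E F α β hE hF
    rw [Fr_full] at hE ⊢
    obtain ⟨b, hb, rfl⟩ := (Fr_mem_im _ _ _).1 hF
    intro x hx
    refine (Fr_add _ _ _).2 ⟨x - b, hE (x - b) ?_, b, hb, sub_add_cancel _ _⟩
    have h1 : (QuotientAddGroup.mk (x - b) : G ⧸ K) =
        (QuotientAddGroup.mk x : G ⧸ K) - QuotientAddGroup.mk b := rfl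
    rw [h1, hx]
    abel
  · intro E F α β _ _ hc
    rw [Fr_full]
    intro x hx
    have hsub : (rq F K β).image (fun y => x - y) ⊆ Fr_cos K α := by
      intro z hz
      obtain ⟨y, hy, rfl⟩ := mem_image.1 hz
      rw [Fr_mem_cos]
      have h1 : (QuotientAddGroup.mk (x - y) : G ⧸ K) =
        (QuotientAddGroup.mk x : G ⧸ K) - QuotientAddGroup.mk y := rfl
      rw [h1, hx, ((Fr_mem_rq _ _ _ _).1 hy).2]
      abel
    have hcard : ((rq F K β).image (fun y => x - y)).card = (rq F K β).card :=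
      card_image_of_injective _ fun a b hab => sub_right_injective hab
    have hnd : ¬ Disjoint (rq E K α) ((rq F K β).image fun y => x - y) := by
      intro hd
      have h1 := card_union_of_disjoint hd
      have h2 := card_le_card (union_subset (Fr_rq_sub E K α) hsub)
      rw [h1, hcard, Fr_card_cos] at h2
      omega
    rw [not_disjoint_iff] at hnd
    obtain ⟨z, hz1, hz2⟩ := hnd
    obtain ⟨y, hy, rfl⟩ := mem_image.1 hz2
    exact (Fr_add _ _ _).2 ⟨x - y, ((Fr_mem_rq _ _ _ _).1 hz1).1, y,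
      ((Fr_mem_rq _ _ _ _).1 hy).1, sub_add_cancel _ _⟩
  · intro E X e hf he
    have hsub : st E K ⊆ E ∪ X.biUnion fun γ => Fr_cos K γ \ rq E K γ := by
      intro x hx
      by_cases hxE : x ∈ E
      · exact mem_union_left _ hxE
      refine mem_union_right _ (mem_biUnion.2 ⟨QuotientAddGroup.mk x, ?_, ?_⟩)
      · by_contra hX
        unfold st at hx
        rw [Set.Finite.mem_toFinset] at hx
        obtain ⟨a, ha, hxa⟩ := hx
        have h1 : (QuotientAddGroup.mk x : G ⧸ K) ∈ im E K := by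
          refine (Fr_mem_im _ _ _).2 ⟨a, ha, ?_⟩
          rw [QuotientAddGroup.eq]
          have h2 : -a + x = x - a := by abel
          rw [h2]
          exact hxa
        exact hxE ((Fr_full E K _).1 (hf _ h1 hX) x rfl)
      · rw [mem_sdiff, Fr_mem_cos, Fr_mem_rq]
        exact ⟨rfl, fun h => hxE h.1⟩
    refine (card_le_card hsub).trans ((card_union_le _ _).trans ?_)
    refine Nat.add_le_add_left ?_ _
    refine (card_biUnion_le_card_mul _ _ e fun γ hγ => ?_)
    rw [card_sdiff_of_subset (Fr_rq_sub E K γ), Fr_card_cos]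
    have := he γ hγ
    omega
  · intro h0 i j hij
    obtain ⟨m, rfl⟩ := Nat.exists_eq_add_of_le hij
    clear hij
    induction m with
    | zero => exact Subset.refl _
    | succ m ih =>
      refine ih.trans ?_
      intro x hx
      show x ∈ it D (i + m) + D
      exact (Fr_add _ _ _).2 ⟨x, hx, 0, h0, add_zero _⟩

end Pool.Agent.KAT
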