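import Pool.Agent.KAT.St
import Pool.Agent.SSE.GS
import Pool.Agent.SSE.GwE
import Pool.Agent.SSE.Gk
import Pool.Agent.SSE.Mx
import Pool.Agent.SSE.Cy
import Pool.Agent.SSE.SyE

/-!
# KAT GRO: the growth theorem (helper86)
-/

set_option autoImplicit false

noncomputable section

open Finset Pool.Agent.Helper64.Rho Pool.Agent.SDG Pool.Agent.MDR Pool.Agent.SSE
open scoped Classical Pointwise

namespace Pool.Agent.KAT

private theorem GRO_mem_st {G : Type} [AddCommGroup G] [Finite G] {A : Finset G} {H : AddSubgroup G} {x : G} :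
    x ∈ st A H ↔ ∃ a ∈ A, x - a ∈ H := by
  unfold st
  simp

private theorem GRO_mk {G : Type} [AddCommGroup G] {K : AddSubgroup G} {x y : G} :
    (QuotientAddGroup.mk x : G ⧸ K) = QuotientAddGroup.mk y ↔ x - y ∈ K := by
  rw [eq_comm, QuotientAddGroup.eq, neg_add_eq_sub]

private theorem GRO_mk0 {G : Type} [AddCommGroup G] {K : AddSubgroup G} {x : G} :
    (QuotientAddGroup.mk x : G ⧸ K) = 0 ↔ x ∈ K :=
  QuotientAddGroup.eq_zero_iff x

private theorem GRO_st_bot {Q : Type} [AddCommGroup Q] [Finite Q] (E : Finset Q) :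
    st E (⊥ : AddSubgroup Q) = E := by
  ext x
  rw [GRO_mem_st]
  constructor
  · rintro ⟨a, ha, h⟩
    rw [AddSubgroup.mem_bot, sub_eq_zero] at h
    rw [h]
    exact ha
  · intro hx
    exact ⟨x, hx, by rw [sub_self]; exact AddSubgroup.zero_mem _⟩

private theorem GRO_it_one {Q : Type} [AddCommGroup Q] (E : Finset Q) : it E 1 = E := by
  show ({0} : Finset Q) + E = E
  rw [singleton_zero, zero_add]

/-- induction with GS -/
private theorem GRO_ind {Q : Type} [AddCommGroup Q] [Finite Q] (E : Finset Q)
    (h0 : (0 : Q) ∈ E) (hs : ∀ y ∈ E, -y ∈ E) (h2 : 2 ≤ E.card) (hN : ¬ NearP E)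
    (hA : ¬ APK E ⊥) : ∀ i, 1 ≤ i → E.card ≤ (it E i).card ∧
      (i * E.card ≤ (it E i).card ∨ Nat.card Q ≤ (it E i).card + 1) := by
  intro i hi
  induction i, hi using Nat.le_induction with
  | base =>
    rw [GRO_it_one]
    exact ⟨le_rfl, Or.inl (by omega)⟩
  | succ i hi ih =>
    obtain ⟨ih1, ih2⟩ := ih
    have hsub : it E i ⊆ it E i + E := by
      intro x hx
      rw [mem_add]
      exact ⟨x, hx, 0, h0, add_zero x⟩
    have hle : (it E i).card ≤ (it E i + E).card := card_le_card hsub
    have hit : it E (i + 1) = it E i + E := rfl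
    rw [hit]
    refine ⟨ih1.trans hle, ?_⟩
    by_cases hc : (it E i + E).card + 2 ≤ Nat.card Q
    · left
      have h3 := thm_GS Q E (it E i) h0 hs h2 hN hA (h2.trans ih1) hc
      rcases ih2 with h4 | h4
      · rw [add_mul, one_mul]
        omega
      · omega
    · right
      omega

theorem thm_GRO : St_Rw → St_Fr → St_Co → St_Df → St_E4 → St_Qt → St_GRO := by
  intro hRw hFr hCo hDf hE4 hQt G ι _ _ u f hR hnc hAE hgen hu hDC hn
  obtain ⟨hcard, h0, hs, hcl, -, -, -⟩ := thm_SyE G ι u f hAE
  obtain ⟨hDCs, hSY⟩ := hDf G ι u f hAE hDC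
  have he4 := hE4.1 G hR
  rw [hgen] at hcl
  set D := sym u f with hD
  set l := u.card with hl
  by_cases hN : NearP D
  swap
  · -- the set is not nearly filled
    right
    have hHyp : Hyp 4 l D := ⟨hnc, he4, hSY, hcl, hcard, hn, hN, hDCs, Or.inl ⟨rfl, hu⟩⟩
    intro i hi
    rcases hCo G 4 l D hHyp i hi with h | h | ⟨h, h2 | h2⟩
    · exact Or.inl h
    · exact Or.inr (Or.inl h)
    · right; right
      refine ⟨h2, ?_⟩
      rw [h2] at h ⊢
      omega
    · omega
  -- the nearly filled case
  obtain ⟨K, ⟨hKb, hKt, hst⟩, hcst, hNear⟩ := thm_Mx G D hN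
  obtain ⟨-, hsum, hwle, -, him, hrneg, -, -, hpar, -⟩ := hRw G D K
  have hK2 : 2 ≤ Nat.card K := by
    have h1 : 1 < Nat.card K := by
      rw [AddSubgroup.one_lt_card_iff_ne_bot]
      exact hKb
    omega
  have hNG : Nat.card G = Nat.card (G ⧸ K) * Nat.card K :=
    AddSubgroup.card_eq_card_quotient_mul_card_addSubgroup K
  have h0' : (0 : G ⧸ K) ∈ im D K := by
    unfold im
    rw [mem_image]
    exact ⟨0, h0, rfl⟩
  have hs' : ∀ q ∈ im D K, -q ∈ im D K := by
    intro q hq
    unfold im at hq ⊢
    rw [mem_image] at hq ⊢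
    obtain ⟨a, ha, rfl⟩ := hq
    exact ⟨-a, hs a ha, rfl⟩
  have hmem : ∀ y ∈ D, (QuotientAddGroup.mk y : G ⧸ K) ∈ im D K := by
    intro y hy
    unfold im
    rw [mem_image]
    exact ⟨y, hy, rfl⟩
  -- D generates
  have hgenL : ∀ L : AddSubgroup G, (∀ y ∈ D, y ∈ L) → L = ⊤ := by
    intro L hL
    rw [eq_top_iff, ← hcl, AddSubgroup.closure_le]
    intro y hy
    exact hL y (by exact_mod_cast hy)
  have hm2 : 2 ≤ (im D K).card := by
    by_contra hc
    apply hKt
    apply hgenL
    intro y hy
    have h1 := card_le_one.1 (show (im D K).card ≤ 1 by omega) _ (hmem y hy) _ h0'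
    exact GRO_mk0.1 h1
  -- a row of order different from two
  have hrow : ∃ γ ∈ im D K, γ + γ ≠ 0 := by
    by_contra hc
    push Not at hc
    have h1 : ∀ x : G, x + x ∈ K := by
      intro x
      set L : AddSubgroup G := K.comap (AddMonoidHom.id G + AddMonoidHom.id G) with hL
      have h2 : L = ⊤ := by
        apply hgenL
        intro y hy
        rw [hL, AddSubgroup.mem_comap]
        have h3 := hc _ (hmem y hy)
        rw [← QuotientAddGroup.mk_add] at h3
        exact GRO_mk0.1 h3
      have h3 : x ∈ L := by rw [h2]; exact AddSubgroup.mem_top x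
      rw [hL, AddSubgroup.mem_comap] at h3
      exact h3
    have h2 : K.index ≤ 4 := he4 K h1
    have h3 : Nat.card (G ⧸ K) ≤ 4 := h2
    by_cases hm3 : 3 ≤ (im D K).card
    · have h4 : 3 * Nat.card K ≤ Nat.card K * (im D K).card := by
        rw [mul_comm]; exact Nat.mul_le_mul_left _ hm3
      have h5 : Nat.card (G ⧸ K) * Nat.card K ≤ 4 * Nat.card K := Nat.mul_le_mul_right _ h3
      omega
    · -- two rows
      obtain ⟨γ, hγ, hγ0⟩ : ∃ γ ∈ im D K, γ ≠ 0 := by
        obtain ⟨a, ha, hne⟩ := exists_mem_ne (show 1 < (im D K).card by omega) 0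
        exact ⟨a, ha, hne⟩
      have h4 : ∀ δ ∈ im D K, δ = 0 ∨ δ = γ := by
        intro δ hδ
        by_contra hcon
        push Not at hcon
        have h5 : ({0, γ, δ} : Finset (G ⧸ K)) ⊆ im D K := by
          intro x hx
          rw [mem_insert, mem_insert, mem_singleton] at hx
          rcases hx with rfl | rfl | rfl
          · exact h0'
          · exact hγ
          · exact hδ
        have h6 := card_le_card h5
        rw [card_insert_of_notMem, card_insert_of_notMem, card_singleton] at h6
        · omega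
        · rw [mem_singleton]; exact fun h => hcon.2 h.symm
        · rw [mem_insert, mem_singleton]
          rintro (h | h)
          · exact hγ0 h.symm
          · exact hcon.1 h.symm
      have h5 : (AddSubgroup.zmultiples γ).comap (QuotientAddGroup.mk' K) = ⊤ := by
        apply hgenL
        intro y hy
        rw [AddSubgroup.mem_comap]
        rcases h4 _ (hmem y hy) with h | h
        · have : (QuotientAddGroup.mk' K) y = 0 := h
          rw [this]; exact AddSubgroup.zero_mem _
        · have : (QuotientAddGroup.mk' K) y = γ := h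
          rw [this]; exact AddSubgroup.mem_zmultiples γ
      have h6 : AddSubgroup.zmultiples γ = ⊤ := by
        rw [eq_top_iff]
        intro x _
        obtain ⟨y, rfl⟩ := QuotientAddGroup.mk_surjective x
        have h7 : y ∈ (AddSubgroup.zmultiples γ).comap (QuotientAddGroup.mk' K) := by
          rw [h5]; exact AddSubgroup.mem_top y
        rw [AddSubgroup.mem_comap] at h7
        exact h7
      have h7 : Nat.card (G ⧸ K) ≤ 2 := by
        have h8 : Nat.card (AddSubgroup.zmultiples γ) = addOrderOf γ := Nat.card_zmultiples γ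
        rw [h6] at h8
        have h9 : Nat.card (⊤ : AddSubgroup (G ⧸ K)) = Nat.card (G ⧸ K) :=
          Nat.card_congr AddSubgroup.topEquiv.toEquiv
        rw [← h9, h8]
        apply addOrderOf_le_of_nsmul_eq_zero (by norm_num)
        rw [two_nsmul]
        exact hc γ hγ
      have h8 : 2 * Nat.card K ≤ Nat.card K * (im D K).card := by
        rw [mul_comm]; exact Nat.mul_le_mul_left _ hm2
      have h9 : Nat.card (G ⧸ K) * Nat.card K ≤ 2 * Nat.card K := Nat.mul_le_mul_right _ h7
      omega
  obtain ⟨γ, hγ, hγγ⟩ := hrow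
  have hγ0 : γ ≠ 0 := by
    rintro rfl
    exact hγγ (add_zero 0)
  have hγn : γ ≠ -γ := fun h => hγγ (by nth_rewrite 2 [h]; exact add_neg_cancel γ)
  have hK4 : Nat.card K ≤ 4 := by
    apply hDCs K γ hKb hγγ
    have h1 : ({0, γ, -γ} : Finset (G ⧸ K)) ⊆ im D K := by
      intro x hx
      rw [mem_insert, mem_insert, mem_singleton] at hx
      rcases hx with rfl | rfl | rfl
      · exact h0'
      · exact hγ
      · exact hs' _ hγ
    have h2 : ∑ δ ∈ ({0, γ, -γ} : Finset (G ⧸ K)), (Nat.card K - (rq D K δ).card) ≤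
        ∑ δ ∈ im D K, (Nat.card K - (rq D K δ).card) :=
      sum_le_sum_of_subset h1
    have h3 : ∑ δ ∈ im D K, (Nat.card K - (rq D K δ).card) + D.card = Nat.card K * (im D K).card := by
      rw [hsum, ← sum_add_distrib]
      rw [sum_congr rfl (fun δ _ => Nat.sub_add_cancel (hwle δ)), sum_const, smul_eq_mul, mul_comm]
    rw [sum_insert, sum_insert, sum_singleton, hrneg hs] at h2
    · have h4 := hwle 0
      have h5 := hwle γ
      omega
    · rw [mem_singleton]; exact hγn
    · rw [mem_insert, mem_singleton]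
      rintro (h | h)
      · exact hγ0 h.symm
      · exact hγ0 (neg_eq_zero.1 h.symm)
  have hy : ∃ y ∈ D, y + y ∉ K := by
    unfold im at hγ
    rw [mem_image] at hγ
    obtain ⟨y, hy, rfl⟩ := hγ
    refine ⟨y, hy, fun h => hγγ ?_⟩
    rw [← QuotientAddGroup.mk_add]
    exact GRO_mk0.2 h
  have hsubst : D ⊆ st D K := fun x hx => GRO_mem_st.2 ⟨x, hx, by rw [sub_self]; exact K.zero_mem⟩
  have hlow := card_le_card hsubst
  by_cases hA : APK (im D K) ⊥
  · left
    refine ⟨K, ⟨hKb, hKt, hst⟩, hK4, ?_⟩
    obtain ⟨d', a, hd1, hd2, hd3⟩ := hA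
    obtain ⟨d, rfl⟩ := QuotientAddGroup.mk_surjective d'
    have hmd : ∀ k : ℕ, k • (QuotientAddGroup.mk d : G ⧸ K) = QuotientAddGroup.mk (k • d) :=
      fun k => rfl
    refine ⟨d, a, ?_, ?_, ?_⟩
    · intro x
      obtain ⟨k, hk⟩ := hd1 (QuotientAddGroup.mk x)
      refine ⟨k, ?_⟩
      rw [AddSubgroup.mem_bot, sub_eq_zero, hmd] at hk
      exact GRO_mk.1 hk
    · rw [GRO_st_bot, AddSubgroup.card_bot, one_mul] at hd2
      rw [hcst, hd2]
    · intro y hyD
      obtain ⟨k, hk, h2⟩ := hd3 _ (hmem y hyD)
      refine ⟨k, hk, ?_⟩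
      rcases h2 with h2 | h2
      · left
        rw [AddSubgroup.mem_bot, sub_eq_zero, hmd] at h2
        exact GRO_mk.1 h2
      · right
        rw [AddSubgroup.mem_bot, hmd] at h2
        exact GRO_mk0.1 h2
  · right
    intro i hi1
    rcases Nat.lt_or_ge i 2 with hi | hi
    · have hi' : i = 1 := by omega
      right; left
      rw [hi', GRO_it_one]
      omega
    have hcK := thm_Gk G D K h0 hs hy hst i hi
    obtain ⟨-, hor⟩ := GRO_ind (im D K) h0' hs' hm2 hNear hA i (by omega)
    set m := (im D K).card with hm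
    set c := (it (im D K) i).card with hc
    set q := Nat.card (G ⧸ K) with hq
    have hκ : ∃ κ, κ = Nat.card K := ⟨_, rfl⟩
    obtain ⟨κ, hκ⟩ := hκ
    rw [← hκ] at hcK hK2 hK4 hNG hst hcst
    rcases hor with h1 | h1
    · -- the first case
      by_cases hmu : 2 * l + 2 ≤ κ * m
      · right
        left
        rw [hcK]
        calc i * (2 * l + 2) ≤ i * (κ * m) := Nat.mul_le_mul_left _ hmu
          _ = κ * (i * m) := by ring
          _ ≤ κ * c := Nat.mul_le_mul_left _ h1
          _ ≤ κ * c + 1 := Nat.le_succ _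
      · have hmu' : κ * m = 2 * l + 1 := by omega
        have hk3 : κ = 3 := by
          have h2 : κ = 2 ∨ κ = 3 ∨ κ = 4 := by omega
          rcases h2 with h2 | h2 | h2
          · rw [h2] at hmu'
            omega
          · exact h2
          · rw [h2] at hmu'
            omega
        have hstD : (st D K).card = D.card := by omega
        rw [hk3] at hmu' hcK hNG
        obtain ⟨l', hl'⟩ : ∃ l', m = 2 * l' + 1 := ⟨(m - 1) / 2, by omega⟩
        have hl1 : 1 ≤ l' := by omega
        have hll : l = 3 * l' + 1 := by omega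
        have h3 : q ≤ c + 1 ∨ i * (2 * l' + 2) ≤ c + 2 := by
          by_cases hcyc : IsAddCyclic (G ⧸ K)
          · have h3 := thm_GwE thm_Cy thm_GS (G ⧸ K) (im D K) l' hcyc hl1 h0' hs' hl' hNear hA i (by omega)
            have h4 := (thm_Cy (G ⧸ K) hcyc).2.2.2.2.2.2 (it (im D K) i)
            rw [← hc, ← hq] at h3
            rcases h3 with h3 | h3
            · exact Or.inl h3
            · right; omega
          · obtain ⟨l'', hl'', hH⟩ := hQt G l D K he4 hSY hcl hcard hn hDCs hu (hκ ▸ hk3) hstD hNear hcyc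
            have hle : l'' = l' := by omega
            rw [hle] at hH
            rcases hCo (G ⧸ K) 1 l' (im D K) hH i (by omega) with h | h | ⟨h, -⟩
            · exact Or.inl h
            · right; omega
            · exact Or.inr h
        rcases h3 with h3 | h5
        · left
          rw [hcK, hNG]
          omega
        · by_cases hi2 : i = 2
          · right
            right
            refine ⟨hi2, ?_⟩
            rw [hi2] at h5
            rw [hcK]
            omega
          · right
            left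
            rw [hcK, hll]
            have hi3 : 3 ≤ i := by omega
            have h6 : 3 * (i * (2 * l' + 2)) = i * (2 * (3 * l' + 1) + 2) + 2 * i := by ring
            omega
    · left
      rw [hcK, hNG]
      have h2 : q * κ ≤ (c + 1) * κ := Nat.mul_le_mul_right _ h1
      have h3 : (c + 1) * κ = κ * c + κ := by ring
      omega

end Pool.Agent.KAT
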