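import Pool.Agent.KAT.St

/-!
# KAT K4: quotients of exponent two (helper5)
-/

set_option autoImplicit false

noncomputable section

open Finset Pool.Agent.Helper64.Rho Pool.Agent.SDG Pool.Agent.MDR Pool.Agent.SSE
open scoped Classical Pointwise

namespace Pool.Agent.KAT

theorem thm_K4 : St_K4 := by
  intro G _ _ κ l D K α β hH hD hα hβ hα0 hβ0 hαβ
  have hall : ∀ x : G, x + x ∈ K := by
    have h1 : AddSubgroup.closure (D : Set G) ≤ AddSubgroup.comap (nsmulAddMonoidHom 2 : G →+ G) K := by
      rw [AddSubgroup.closure_le]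
      intro y hy
      have h2 : (QuotientAddGroup.mk y : G ⧸ K) ∈ im D K := mem_image.2 ⟨y, hy, rfl⟩
      have h3 := hD _ h2
      have h4 : (QuotientAddGroup.mk (y + y) : G ⧸ K) = 0 := h3
      have h5 := (QuotientAddGroup.eq_zero_iff (y + y)).1 h4
      show 2 • y ∈ K
      rw [two_nsmul]
      exact h5
    rw [hH.cl] at h1
    intro x
    have h2 : 2 • x ∈ K := h1 (AddSubgroup.mem_top x)
    rwa [two_nsmul] at h2
  have hq : ∀ γ : G ⧸ K, γ + γ = 0 := by
    intro γ
    induction γ using QuotientAddGroup.induction_on with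
    | H x => exact (QuotientAddGroup.eq_zero_iff (x + x)).2 (hall x)
  have h4 := hH.e4 K hall
  have hneg : α + β ≠ 0 := by
    intro h
    apply hαβ
    have h1 := hq β
    exact add_right_cancel (h.trans h1.symm)
  have h5 : α + β ≠ α := fun h => hβ0 (by simpa using h)
  have h6 : α + β ≠ β := fun h => hα0 (by simpa using h)
  have hc : ({0, α, β, α + β} : Finset (G ⧸ K)).card = 4 := by
    rw [card_insert_of_notMem, card_insert_of_notMem, card_insert_of_notMem, card_singleton]
    · rw [mem_singleton]
      exact fun h => h6 h.symm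
    · rw [mem_insert, mem_singleton, not_or]
      exact ⟨hαβ, fun h => h5 h.symm⟩
    · rw [mem_insert, mem_insert, mem_singleton, not_or, not_or]
      exact ⟨fun h => hα0 h.symm, fun h => hβ0 h.symm, fun h => hneg h.symm⟩
  have : Fintype (G ⧸ K) := Fintype.ofFinite _
  have hi : K.index = Fintype.card (G ⧸ K) := by
    rw [AddSubgroup.index, Nat.card_eq_fintype_card]
  have hle := card_le_univ ({0, α, β, α + β} : Finset (G ⧸ K))
  have h7 : Fintype.card (G ⧸ K) = 4 := by omega
  refine ⟨by omega, fun γ => ?_⟩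
  have h8 : ({0, α, β, α + β} : Finset (G ⧸ K)) = univ :=
    eq_univ_of_card _ (by rw [hc, h7])
  have h9 : γ ∈ ({0, α, β, α + β} : Finset (G ⧸ K)) := by
    rw [h8]
    exact mem_univ _
  simpa only [mem_insert, mem_singleton] using h9

end Pool.Agent.KAT
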