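import Pool.Agent.KAT.St
import Pool.Agent.SSE.GS

/-!
# KAT, Ka: almost nearly filled sets (helper30)
-/

set_option autoImplicit false

noncomputable section

open Finset Pool.Agent.Helper64.Rho Pool.Agent.SDG Pool.Agent.MDR Pool.Agent.SSE
open scoped Classical Pointwise

namespace Pool.Agent.KAT

section

private theorem Ka_mem_st {G : Type} [AddCommGroup G] [Finite G] {A : Finset G}
    {H : AddSubgroup G} {x : G} : x ∈ st A H ↔ ∃ a ∈ A, x - a ∈ H := by
  unfold st
  simp

private theorem Ka_st_bot {Q : Type} [AddCommGroup Q] [Finite Q] (E : Finset Q) :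
    st E (⊥ : AddSubgroup Q) = E := by
  ext x
  rw [Ka_mem_st]
  constructor
  · rintro ⟨a, ha, h⟩
    rw [AddSubgroup.mem_bot, sub_eq_zero] at h
    rw [h]
    exact ha
  · intro hx
    exact ⟨x, hx, by rw [sub_self]; exact AddSubgroup.zero_mem _⟩

private theorem Ka_it_one {Q : Type} [AddCommGroup Q] (E : Finset Q) : it E 1 = E := by
  show ({0} : Finset Q) + E = E
  rw [singleton_zero, zero_add]

/-- induction with GS -/
private theorem Ka_ind {Q : Type} [AddCommGroup Q] [Finite Q] (E : Finset Q)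
    (h0 : (0 : Q) ∈ E) (hs : ∀ y ∈ E, -y ∈ E) (h2 : 2 ≤ E.card) (hN : ¬ NearP E)
    (hA : ¬ APK E ⊥) : ∀ i, 1 ≤ i → E.card ≤ (it E i).card ∧
      (i * E.card ≤ (it E i).card ∨ Nat.card Q ≤ (it E i).card + 1) := by
  intro i hi
  induction i, hi using Nat.le_induction with
  | base =>
    rw [Ka_it_one]
    exact ⟨le_rfl, Or.inl (by omega)⟩
  | succ i hi ih =>
    obtain ⟨ih1, ih2⟩ := ih
    have hsub : it E i ⊆ it E i + E := by
      intro x hx
      rw [mem_add]
      exact ⟨x, hx, 0, h0, add_zero x⟩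
    have hle : (it E i).card ≤ (it E i + E).card := card_le_card hsub
    have hit : it E (i + 1) = it E i + E := rfl
    rw [hit]
    refine ⟨ih1.trans hle, ?_⟩
    by_cases hc : (it E i + E).card + 2 ≤ Nat.card Q
    · left
      have h3 := SSE.thm_GS Q E (it E i) h0 hs h2 hN hA (h2.trans ih1) hc
      rcases ih2 with h4 | h4
      · rw [add_mul, one_mul]
        omega
      · omega
    · right
      omega

private theorem Ka_card {G : Type} [AddCommGroup G] [Finite G] (K : AddSubgroup G)
    (T : Finset (G ⧸ K)) (S : Finset G) (hS : ∀ x, x ∈ S ↔ (QuotientAddGroup.mk x : G ⧸ K) ∈ T) :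
    S.card = Nat.card K * T.card := by
  have h1 : Nat.card {x : G // (QuotientAddGroup.mk x : G ⧸ K) ∈ T} =
      Nat.card K * Nat.card (T : Set (G ⧸ K)) := by
    rw [← Nat.card_prod]
    exact Nat.card_congr (QuotientAddGroup.preimageMkEquivAddSubgroupProdSet K (T : Set (G ⧸ K)))
  rw [Nat.card_coe_set_eq, Set.ncard_coe_finset, Nat.subtype_card S hS] at h1
  exact h1

/-- a symmetric set with an even number of elements which contains `0` contains an involution -/
private theorem Ka_par {Q : Type} [AddCommGroup Q] (E : Finset Q) (h0 : (0 : Q) ∈ E)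
    (hs : ∀ y ∈ E, -y ∈ E) (hev : E.card % 2 = 0) : ∃ η ∈ E, η ≠ 0 ∧ η + η = 0 := by
  by_contra hno
  push Not at hno
  have h1 : ∑ x ∈ E.erase 0, (1 : ZMod 2) = 0 := by
    refine Finset.sum_involution (fun x _ => -x) (fun x _ => by decide) (fun x hx _ => ?_)
      (fun x hx => ?_) (fun x _ => neg_neg x)
    · intro h
      rw [mem_erase] at hx
      refine hno x hx.2 hx.1 ?_
      have h2 : x + x = x + -x := by rw [h]
      rw [h2, add_neg_cancel]
    · rw [mem_erase] at hx ⊢
      exact ⟨neg_ne_zero.2 hx.1, hs x hx.2⟩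
  rw [sum_const, nsmul_eq_mul, mul_one, ZMod.natCast_eq_zero_iff] at h1
  have h2 := card_erase_of_mem h0
  have h3 : 1 ≤ E.card := card_pos.2 ⟨0, h0⟩
  omega

/-- sums of at least three elements contain two nonzero summands -/
private theorem Ka_dec {Q : Type} [AddCommGroup Q] (E : Finset Q) (γ : Q) (hγ : γ ∈ E)
    (hγ' : -γ ∈ E) (hγ0 : γ ≠ 0) : ∀ (j : ℕ), ∀ γ' ∈ it E (j + 3),
    ∃ δ ∈ E, ∃ δ' ∈ E, ∃ β ∈ it E (j + 1), δ ≠ 0 ∧ δ' ≠ 0 ∧ γ' = δ + δ' + β := by
  intro j
  induction j with
  | zero =>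
    intro γ' h
    have h3 : it E 3 = ((({0} : Finset Q) + E) + E) + E := rfl
    rw [h3, singleton_zero, zero_add] at h
    obtain ⟨ab, hab, c, hc, rfl⟩ := mem_add.1 h
    obtain ⟨a, ha, b, hb, rfl⟩ := mem_add.1 hab
    rw [Nat.zero_add, Ka_it_one]
    have hγn : -γ ≠ 0 := neg_ne_zero.2 hγ0
    by_cases ha0 : a = 0
    · by_cases hb0 : b = 0
      · exact ⟨γ, hγ, -γ, hγ', c, hc, hγ0, hγn, by rw [ha0, hb0]; abel⟩
      · by_cases hc0 : c = 0
        · exact ⟨γ, hγ, -γ, hγ', b, hb, hγ0, hγn, by rw [ha0, hc0]; abel⟩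
        · exact ⟨b, hb, c, hc, a, ha, hb0, hc0, by abel⟩
    · by_cases hb0 : b = 0
      · by_cases hc0 : c = 0
        · exact ⟨γ, hγ, -γ, hγ', a, ha, hγ0, hγn, by rw [hb0, hc0]; abel⟩
        · exact ⟨a, ha, c, hc, b, hb, ha0, hc0, by abel⟩
      · exact ⟨a, ha, b, hb, c, hc, ha0, hb0, rfl⟩
  | succ j ih =>
    intro γ' h
    have h3 : it E (j + 1 + 3) = it E (j + 3) + E := rfl
    rw [h3] at h
    obtain ⟨x, hx, d, hd, rfl⟩ := mem_add.1 h
    obtain ⟨δ, hδ, δ', hδ', β, hβ, h1, h2, rfl⟩ := ih x hx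
    refine ⟨δ, hδ, δ', hδ', β + d, ?_, h1, h2, by abel⟩
    have h4 : it E (j + 1 + 1) = it E (j + 1) + E := rfl
    rw [h4]
    exact add_mem_add hβ hd

end

theorem thm_Ka : St_Rw → St_Fr → St_Ka := by
  intro hRw hFr G _ _ κ l D hyp hex
  obtain ⟨K0, hK0⟩ := hex
  obtain ⟨K, hK, hmax⟩ := Set.exists_max_image
    {K : AddSubgroup G | K ≠ ⊥ ∧ K ≠ ⊤ ∧ (st D K).card ≤ D.card + Nat.card K}
    (fun K => Nat.card K) (Set.toFinite _) ⟨K0, hK0⟩
  obtain ⟨hKb, hKt, hKst⟩ := hK
  obtain ⟨w1, w2, w3, -, w5, w6, -, -, w9, -⟩ := hRw G D K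
  obtain ⟨f1, f2, f3, -, f5, f6⟩ := hFr G D K
  have h0D : (0 : G) ∈ D := hyp.sy.1
  have hsD : ∀ y ∈ D, -y ∈ D := hyp.sy.2.1
  have hcd := hyp.cd
  have hnG := hyp.nG
  have heq : (st D K).card = D.card + Nat.card K := by
    refine le_antisymm hKst ?_
    by_contra hlt
    exact hyp.nf ⟨K, hKb, hKt, by omega⟩
  have hkm : Nat.card K * (im D K).card = 2 * l + 1 + Nat.card K := by
    rw [← w1, heq, hcd]
  have h0' : (0 : G ⧸ K) ∈ im D K := by
    unfold im
    rw [mem_image]
    exact ⟨0, h0D, rfl⟩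
  have hs' : ∀ q ∈ im D K, -q ∈ im D K := by
    intro q hq
    unfold im at hq ⊢
    rw [mem_image] at hq ⊢
    obtain ⟨a, ha, rfl⟩ := hq
    exact ⟨-a, hsD a ha, rfl⟩
  have hm1 : 1 ≤ (im D K).card := card_pos.2 ⟨0, h0'⟩
  have hk2 : 2 ≤ Nat.card K := by
    have h1 : 1 < Nat.card K := by
      rw [AddSubgroup.one_lt_card_iff_ne_bot]
      exact hKb
    omega
  -- parity
  obtain ⟨m', hm'⟩ : ∃ m', (im D K).card = m' + 1 := ⟨(im D K).card - 1, by omega⟩
  have hkm' : Nat.card K * m' = 2 * l + 1 := by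
    rw [hm', mul_add, mul_one] at hkm
    omega
  have hodd : Odd (Nat.card K * m') := ⟨l, hkm'⟩
  obtain ⟨hko, hmo⟩ := Nat.odd_mul.1 hodd
  rw [Nat.odd_iff] at hko hmo
  have hme : (im D K).card % 2 = 0 := by omega
  have hG : Nat.card G = Nat.card (G ⧸ K) * Nat.card K :=
    AddSubgroup.card_eq_card_quotient_mul_card_addSubgroup K
  have hAPK : ¬ APK D ⊥ := by
    rintro ⟨d, a, hd, -, -⟩
    apply hyp.nc
    refine ⟨⟨d, fun x => ?_⟩⟩
    obtain ⟨k, hk⟩ := hd x
    rw [AddSubgroup.mem_bot, sub_eq_zero] at hk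
    refine ⟨(k : ℤ), ?_⟩
    show (k : ℤ) • d = x
    rw [natCast_zsmul, hk]
  by_cases hA : ∀ γ ∈ im D K, γ + γ = 0
  · -- all rows are of order two
    have hall : ∀ x : G, x + x ∈ K := by
      have hle : AddSubgroup.closure (D : Set G) ≤ K.comap (nsmulAddMonoidHom 2 : G →+ G) := by
        rw [AddSubgroup.closure_le]
        intro x hx
        show (2 : ℕ) • x ∈ K
        have h1 := hA (QuotientAddGroup.mk x) (by
          unfold im
          exact mem_image_of_mem _ hx)
        rw [two_nsmul]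
        exact (QuotientAddGroup.eq_zero_iff (x + x)).1 h1
      rw [hyp.cl] at hle
      intro x
      have h1 : (2 : ℕ) • x ∈ K := hle (AddSubgroup.mem_top x)
      rwa [two_nsmul] at h1
    have hidx : Nat.card (G ⧸ K) ≤ 4 := hyp.e4 K hall
    have hmle : (im D K).card ≤ Nat.card (G ⧸ K) := by
      have := Fintype.ofFinite (G ⧸ K)
      rw [Nat.card_eq_fintype_card]
      exact card_le_univ _
    have hm24 : (im D K).card = 2 ∨ (im D K).card = 4 := by omega
    rcases hm24 with hm2 | hm4
    · -- index two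
      obtain ⟨γ, hγ, hγ0, hγγ⟩ := Ka_par (im D K) h0' hs' hme
      have hDim : im D K = {0, γ} := by
        symm
        apply eq_of_subset_of_card_le
        · intro x hx
          rw [mem_insert, mem_singleton] at hx
          rcases hx with rfl | rfl
          · exact h0'
          · exact hγ
        · rw [hm2, card_pair (Ne.symm hγ0)]
      have htop : AddSubgroup.zmultiples γ = ⊤ := by
        have hle : AddSubgroup.closure (D : Set G) ≤
            (AddSubgroup.zmultiples γ).comap (QuotientAddGroup.mk' K) := by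
          rw [AddSubgroup.closure_le]
          intro x hx
          show (QuotientAddGroup.mk x : G ⧸ K) ∈ AddSubgroup.zmultiples γ
          have h1 : (QuotientAddGroup.mk x : G ⧸ K) ∈ im D K := by
            unfold im
            exact mem_image_of_mem _ hx
          rw [hDim, mem_insert, mem_singleton] at h1
          rcases h1 with h1 | h1
          · rw [h1]
            exact AddSubgroup.zero_mem _
          · rw [h1]
            exact AddSubgroup.mem_zmultiples γ
        rw [hyp.cl] at hle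
        rw [eq_top_iff]
        intro y _
        obtain ⟨x, rfl⟩ := QuotientAddGroup.mk_surjective y
        exact hle (AddSubgroup.mem_top x)
      have hq2 : Nat.card (G ⧸ K) = 2 := by
        have h1 : addOrderOf γ = 2 := by
          have : Fact (Nat.Prime 2) := ⟨Nat.prime_two⟩
          exact addOrderOf_eq_prime (by rw [two_nsmul]; exact hγγ) hγ0
        rw [← h1, ← Nat.card_zmultiples γ, htop, AddSubgroup.card_top]
      rw [hq2] at hG
      rw [hm2] at hkm
      have hn : Nat.card G = 4 * l + 2 := by omega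
      have hit2 : it D 2 = D + D := by
        have h1 : it D 2 = it D 1 + D := rfl
        rw [h1, Ka_it_one]
      have hkl : 1 ≤ κ ∧ 2 ≤ l := by
        rcases hyp.kl with ⟨h1, h2⟩ | ⟨h1, h2, -⟩ <;> omega
      have hD2 : Nat.card G ≤ (D + D).card + 1 := by
        by_contra hlt
        have h3 := SSE.thm_GS G D D h0D hsD (by omega) hyp.nf hAPK (by omega) (by omega)
        omega
      intro i hi
      left
      have h4 := card_le_card (f5 h0D 2 i (by omega))
      rw [hit2] at h4
      omega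
    · -- index four is impossible
      exfalso
      rw [hm4] at hkm hmle
      have hq4 : Nat.card (G ⧸ K) = 4 := by omega
      rw [hq4] at hG
      omega
  · push Not at hA
    obtain ⟨γ, hγ, hγγ⟩ := hA
    obtain ⟨η, hη, hη0, hηη⟩ := Ka_par (im D K) h0' hs' hme
    have hγ0 : γ ≠ 0 := fun h => hγγ (by rw [h, add_zero])
    have hγn : γ ≠ -γ := fun h => hγγ (by nth_rewrite 2 [h]; exact add_neg_cancel γ)
    -- deficits
    obtain ⟨e, he⟩ : ∃ e : G ⧸ K → ℕ, ∀ δ, e δ = Nat.card K - (rq D K δ).card :=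
      ⟨_, fun _ => rfl⟩
    have hsum : ∑ δ ∈ im D K, e δ = Nat.card K := by
      have h1 : ∑ δ ∈ im D K, (e δ + (rq D K δ).card) = (im D K).card * Nat.card K := by
        rw [sum_congr rfl fun δ _ => show e δ + (rq D K δ).card = Nat.card K by
          rw [he, Nat.sub_add_cancel (w3 δ)], sum_const, smul_eq_mul]
      rw [sum_add_distrib, ← w2, hcd, mul_comm (im D K).card, hkm] at h1
      omega
    have hsub : ∀ S ⊆ im D K, ∑ δ ∈ S, e δ ≤ Nat.card K := fun S hS => by
      rw [← hsum]
      exact sum_le_sum_of_subset hS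
    have hwη : (rq D K η).card % 2 = 0 := (w9 hyp.sy).1 η hηη hη0
    have hwγ := w6 hsD γ
    have hk4 : Nat.card K ≤ κ := by
      refine hyp.dc K γ hKb hγγ ?_
      have hηγ : η ≠ γ := fun h => hγγ (by rw [← h]; exact hηη)
      have hηγ' : η ≠ -γ := fun h => hγγ (by
        have h1 : -γ + -γ = 0 := by rw [← h]; exact hηη
        have h2 : γ + γ = -(-γ + -γ) := by abel
        rw [h2, h1, neg_zero])
      have hS := hsub {0, η, γ, -γ} (by
        intro x hx
        simp only [mem_insert, mem_singleton] at hx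
        rcases hx with rfl | rfl | rfl | rfl
        · exact h0'
        · exact hη
        · exact hγ
        · exact hs' _ hγ)
      rw [sum_insert (by
          simp only [mem_insert, mem_singleton, not_or]
          exact ⟨hη0.symm, hγ0.symm, fun h => hγ0 (neg_eq_zero.1 h.symm)⟩),
        sum_insert (by
          simp only [mem_insert, mem_singleton, not_or]
          exact ⟨hηγ, hηγ'⟩),
        sum_insert (by
          rw [mem_singleton]
          exact hγn), sum_singleton, he, he, he, he, hwγ] at hS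
      have h1 := w3 η
      have h2 := w3 γ
      have h3 := w3 0
      omega
    have hκ : κ = 4 := by
      rcases hyp.kl with ⟨h1, -⟩ | ⟨h1, -⟩
      · exact h1
      · omega
    have hk3 : Nat.card K = 3 := by omega
    have hw2 : ∀ δ ∈ im D K, δ ≠ 0 → 2 ≤ (rq D K δ).card := by
      intro δ hδ hδ0
      have h1 := (w5 δ).1 hδ
      by_cases hδδ : δ + δ = 0
      · have h2 := (w9 hyp.sy).1 δ hδδ hδ0
        omega
      · have hδn : δ ≠ -δ := fun h => hδδ (by nth_rewrite 2 [h]; exact add_neg_cancel δ)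
        have hS := hsub {δ, -δ} (by
          intro x hx
          rw [mem_insert, mem_singleton] at hx
          rcases hx with rfl | rfl
          · exact hδ
          · exact hs' _ hδ)
        rw [sum_pair hδn, he, he, w6 hsD δ, hk3] at hS
        omega
    have hfull2 : ∀ δ ∈ im D K, ∀ δ' ∈ im D K, δ ≠ 0 → δ' ≠ 0 →
        (rq (D + D) K (δ + δ')).card = Nat.card K := by
      intro δ hδ δ' hδ' h1 h2
      have h3 := hw2 δ hδ h1
      have h4 := hw2 δ' hδ' h2
      exact f3 D D δ δ' (by omega) (by omega) (by omega)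
    have hit2 : it D 2 = D + D := by
      have h1 : it D 2 = it D 1 + D := rfl
      rw [h1, Ka_it_one]
    have hfull : ∀ j, ∀ γ' ∈ im (it D (j + 3)) K,
        (rq (it D (j + 3)) K γ').card = Nat.card K := by
      intro j γ' hγ'
      rw [f1] at hγ'
      obtain ⟨δ, hδ, δ', hδ', β, hβ, h1, h2, rfl⟩ := Ka_dec (im D K) γ hγ (hs' γ hγ) hγ0 j γ' hγ'
      have h3 : j + 3 = 2 + (j + 1) := by omega
      rw [h3, f6 2 (j + 1), hit2]
      exact f2 (D + D) (it D (j + 1)) (δ + δ') β (hfull2 δ hδ δ' hδ' h1 h2) (by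
        rw [f1]
        exact hβ)
    have hcard : ∀ j, (it D (j + 3)).card = Nat.card K * (it (im D K) (j + 3)).card := by
      intro j
      obtain ⟨-, v2, -⟩ := hRw G (it D (j + 3)) K
      rw [v2, sum_congr rfl (hfull j), sum_const, smul_eq_mul, f1, mul_comm]
    -- the image is not nearly filled
    have hnear : ¬ NearP (im D K) := by
      rintro ⟨K1, h1, h2, h3⟩
      set K' : AddSubgroup G := K1.comap (QuotientAddGroup.mk' K) with hK'
      have hmem : ∀ x, x ∈ K' ↔ (QuotientAddGroup.mk x : G ⧸ K) ∈ K1 := fun x => Iff.rfl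
      have hcardK : Nat.card K' = Nat.card K * Nat.card K1 := by
        have e1 := Ka_card K ((K1 : Set (G ⧸ K)).toFinite.toFinset)
          ((K' : Set G).toFinite.toFinset) (fun x => by
            rw [Set.Finite.mem_toFinset, Set.Finite.mem_toFinset]
            exact hmem x)
        rw [← Set.ncard_eq_toFinset_card, ← Set.ncard_eq_toFinset_card] at e1
        exact e1
      have hst : (st D K').card = Nat.card K * (st (im D K) K1).card := by
        refine Ka_card K _ _ fun x => ?_
        rw [Ka_mem_st, Ka_mem_st]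
        unfold im
        constructor
        · rintro ⟨a, ha, h⟩
          exact ⟨_, Finset.mem_image_of_mem _ ha, h⟩
        · rintro ⟨b, hb', h⟩
          obtain ⟨a, ha, rfl⟩ := Finset.mem_image.1 hb'
          exact ⟨a, ha, h⟩
      have hK1 : 1 < Nat.card K1 := (AddSubgroup.one_lt_card_iff_ne_bot K1).2 h1
      have hKpos : 0 < Nat.card K := Nat.card_pos
      have hlt : Nat.card K < Nat.card K' := by
        rw [hcardK]
        exact lt_mul_of_one_lt_right hKpos hK1
      have hin : K' ≠ ⊥ ∧ K' ≠ ⊤ ∧ (st D K').card ≤ D.card + Nat.card K' := by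
        refine ⟨?_, ?_, ?_⟩
        · intro h
          rw [h, AddSubgroup.card_bot] at hlt
          omega
        · intro h
          apply h2
          rw [eq_top_iff]
          intro y _
          obtain ⟨x, rfl⟩ := QuotientAddGroup.mk_surjective y
          rw [← hmem, h]
          trivial
        · rw [hst, hcardK, hk3, hcd]
          rw [hk3] at hkm
          omega
      have := hmax K' hin
      omega
    have hAP : ¬ APK (im D K) ⊥ := by
      rintro ⟨d, a, -, hd, -⟩
      rw [Ka_st_bot, AddSubgroup.card_bot, one_mul] at hd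
      omega
    have hm2 : 2 ≤ (im D K).card :=
      Nat.succ_le_iff.2 (one_lt_card.2 ⟨γ, hγ, 0, h0', hγ0⟩)
    intro i hi
    obtain ⟨j, rfl⟩ : ∃ j, i = j + 3 := ⟨i - 3, by omega⟩
    obtain ⟨-, hor⟩ := Ka_ind (im D K) h0' hs' hm2 hnear hAP (j + 3) (by omega)
    rw [hk3] at hkm
    rcases hor with h1 | h1
    · right
      left
      rw [hcard, hk3]
      have h2 : (j + 3) * (2 * l + 2) ≤ (j + 3) * (3 * (im D K).card) :=
        Nat.mul_le_mul_left _ (by omega)
      have h3 : (j + 3) * (3 * (im D K).card) = 3 * ((j + 3) * (im D K).card) := by ring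
      omega
    · left
      rw [hcard, hG, hk3, hκ]
      omega

end Pool.Agent.KAT
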