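import Pool.Agent.KAT.St

/-!
# KAT.Kb: assembly of the case of at most two strings (MP_ec93d3_co)

Architect helper86, module by helper82.
-/

set_option autoImplicit false

noncomputable section

open Finset Pool.Agent.Helper64.Rho Pool.Agent.SDG Pool.Agent.MDR Pool.Agent.SSE
open scoped Classical Pointwise

namespace Pool.Agent.KAT

private theorem Kb_sym {G : Type} [AddCommGroup G] [Finite G] (D : Finset G) (d : G)
    (γ1 γ2 : G ⧸ AddSubgroup.zmultiples d) (h : Two D d γ1 γ2) : Two D d γ2 γ1 := by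
  obtain ⟨h1, h2, h3, h4, h5, h6, h7, h8⟩ := h
  exact ⟨h1, fun e => h2 e.symm, h4, h3, h6, h5, fun γ hγ a b => h7 γ hγ b a, by omega⟩

private theorem Kb_other {G : Type} [AddCommGroup G] [Finite G] (hRw : St_Rw) (D : Finset G) (d : G)
    (hs : ∀ y ∈ D, -y ∈ D)
    (γ1 γ2 : G ⧸ AddSubgroup.zmultiples d) (h : Two D d γ1 γ2) (hne : γ1 + γ1 ≠ 0) : -γ1 = γ2 := by
  obtain ⟨h1, h2, h3, h4, h5, h6, h7, h8⟩ := h
  obtain ⟨_, _, _, _, r5, r6, _⟩ := hRw G D (AddSubgroup.zmultiples d)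
  have hc := r6 hs γ1
  by_contra hcon
  have hn1 : -γ1 ≠ γ1 := by
    intro e
    apply hne
    calc γ1 + γ1 = -γ1 + γ1 := by rw [e]
      _ = 0 := neg_add_cancel γ1
  have hin : -γ1 ∈ im D (AddSubgroup.zmultiples d) := (r5 (-γ1)).2 (by rw [hc]; exact h3)
  have := h7 (-γ1) hin hn1 hcon
  omega

theorem thm_Kb : St_Rw → St_Kt → St_B1 → St_B2 → St_B3 → St_B4 → St_Kb := by
  intro hRw hKt hB1 hB2 hB3 hB4 G _ _ κ l D d hH hN hd hl
  obtain ⟨γ1, γ2, hT⟩ := hKt G κ l D d hH hN hd hl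
  have hT' := Kb_sym D d γ1 γ2 hT
  have hs : ∀ y ∈ D, -y ∈ D := hH.sy.2.1
  by_cases h1 : γ1 = 0
  · subst h1
    exact hB1 G κ l D d γ2 hH hN hT
  by_cases h2 : γ2 = 0
  · subst h2
    exact hB1 G κ l D d γ1 hH hN hT'
  by_cases h3 : γ1 + γ1 = 0
  · exact hB2 G κ l D d γ1 γ2 hH hN hT h1 h2 h3
  by_cases h4 : γ2 + γ2 = 0
  · exact hB2 G κ l D d γ2 γ1 hH hN hT' h2 h1 h4
  have h5 := Kb_other hRw D d hs γ1 γ2 hT h3
  subst h5
  by_cases h6 : ∃ δ ∈ im D (AddSubgroup.zmultiples d), δ ≠ 0 ∧ δ ≠ γ1 ∧ δ ≠ -γ1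
  · obtain ⟨δ, hδ, a, b, c⟩ := h6
    exact hB3 G κ l D d γ1 δ hH hN hT h1 h3 hδ a b c
  · refine hB4 G κ l D d γ1 hH hN hT h1 h3 ?_
    intro δ hδ
    by_contra hcon
    apply h6
    refine ⟨δ, hδ, ?_, ?_, ?_⟩
    · intro e; exact hcon (Or.inl e)
    · intro e; exact hcon (Or.inr (Or.inl e))
    · intro e; exact hcon (Or.inr (Or.inr e))

end Pool.Agent.KAT
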