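import Pool.Agent.KAT.St

/-!
# KAT Kt: `lam D d ≤ 2` gives exactly two incomplete rows (helper72)
-/

set_option autoImplicit false

noncomputable section

open Finset Pool.Agent.Helper64.Rho Pool.Agent.SDG Pool.Agent.MDR Pool.Agent.SSE
open scoped Classical Pointwise

namespace Pool.Agent.KAT

private theorem Kt_core {G : Type} [AddCommGroup G] [Finite G] (D : Finset G) (d : G)
    (K : AddSubgroup G)
    (r1 : (st D K).card = Nat.card K * (im D K).card)
    (r2 : D.card = ∑ γ ∈ im D K, (rq D K γ).card)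
    (r3 : ∀ γ, (rq D K γ).card ≤ Nat.card K)
    (r4 : lam D d = ∑ γ ∈ im D K, (tq D K d γ).card)
    (r5 : ∀ γ, γ ∈ im D K ↔ 1 ≤ (rq D K γ).card)
    (hsg : ∀ γ, (tq D K d γ).card = 0 → (rq D K γ).card = 0 ∨ (rq D K γ).card = Nat.card K)
    (hNK : D.card + Nat.card K + 1 ≤ (st D K).card) (hlam : lam D d ≤ 2) :
    ∃ γ1 γ2 : G ⧸ K, γ1 ≠ γ2 ∧ 1 ≤ (rq D K γ1).card ∧ 1 ≤ (rq D K γ2).card ∧
      (tq D K d γ1).card = 1 ∧ (tq D K d γ2).card = 1 ∧
      (∀ γ ∈ im D K, γ ≠ γ1 → γ ≠ γ2 → (rq D K γ).card = Nat.card K) ∧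
      (rq D K γ1).card + (rq D K γ2).card + 1 ≤ Nat.card K := by
  obtain ⟨k, hk⟩ : ∃ k, k = Nat.card K := ⟨_, rfl⟩
  rw [← hk] at r1 hNK
  have r3' : ∀ γ, (rq D K γ).card ≤ k := by rw [hk]; exact r3
  have hsg' : ∀ γ, (tq D K d γ).card = 0 → (rq D K γ).card = 0 ∨ (rq D K γ).card = k := by
    rw [hk]; exact hsg
  -- the deficits
  have hdef : k + 1 ≤ ∑ γ ∈ im D K, (k - (rq D K γ).card) := by
    have e1 : ∑ γ ∈ im D K, (k - (rq D K γ).card) + ∑ γ ∈ im D K, (rq D K γ).card =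
        k * (im D K).card := by
      rw [← Finset.sum_add_distrib, Finset.sum_congr rfl (fun γ _ => Nat.sub_add_cancel (r3' γ)),
        Finset.sum_const, smul_eq_mul, mul_comm]
    rw [← r2] at e1
    omega
  obtain ⟨T, hT⟩ : ∃ T, T = (im D K).filter fun γ => (tq D K d γ).card ≠ 0 := ⟨_, rfl⟩
  have hTI : T ⊆ im D K := by rw [hT]; exact filter_subset _ _
  have hfull : ∀ γ ∈ im D K, γ ∉ T → (rq D K γ).card = k := by
    intro γ hγ hγT
    have h0 : (tq D K d γ).card = 0 := by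
      by_contra h1
      exact hγT (by rw [hT]; exact mem_filter.2 ⟨hγ, h1⟩)
    rcases hsg' γ h0 with h1 | h1
    · have := (r5 γ).1 hγ
      omega
    · exact h1
  have hdefT : k + 1 ≤ ∑ γ ∈ T, (k - (rq D K γ).card) := by
    rw [Finset.sum_subset hTI (fun γ hγ hγT => by rw [hfull γ hγ hγT, Nat.sub_self])]
    exact hdef
  have hT1 : ∀ γ ∈ T, 1 ≤ (tq D K d γ).card := by
    intro γ hγ
    rw [hT] at hγ
    have := (mem_filter.1 hγ).2
    omega
  have hsum : ∑ γ ∈ T, (tq D K d γ).card ≤ 2 := by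
    have := Finset.sum_le_sum_of_subset (f := fun γ => (tq D K d γ).card) hTI
    omega
  have hTc : T.card ≤ 2 := by
    have h1 : T.card • 1 ≤ ∑ γ ∈ T, (tq D K d γ).card := Finset.card_nsmul_le_sum T _ 1 hT1
    rw [smul_eq_mul, mul_one] at h1
    omega
  have hTw : ∀ γ ∈ T, k - (rq D K γ).card ≤ k - 1 := by
    intro γ hγ
    have := (r5 γ).1 (hTI hγ)
    omega
  have hT2 : T.card = 2 := by
    have h1 : ∑ γ ∈ T, (k - (rq D K γ).card) ≤ T.card • (k - 1) :=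
      Finset.sum_le_card_nsmul T _ _ hTw
    rw [smul_eq_mul] at h1
    have h2 : T.card ≠ 0 := by
      intro h0
      rw [h0, zero_mul] at h1
      omega
    have h3 : T.card ≠ 1 := by
      intro h0
      rw [h0, one_mul] at h1
      omega
    omega
  obtain ⟨γ1, γ2, hne, hTe⟩ := Finset.card_eq_two.1 hT2
  have m1 : γ1 ∈ T := by rw [hTe]; exact mem_insert_self _ _
  have m2 : γ2 ∈ T := by rw [hTe]; exact mem_insert_of_mem (mem_singleton_self _)
  have t1 := hT1 γ1 m1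
  have t2 := hT1 γ2 m2
  rw [hTe, Finset.sum_pair hne] at hsum hdefT
  have w1 := (r5 γ1).1 (hTI m1)
  have w2 := (r5 γ2).1 (hTI m2)
  have w1' := r3' γ1
  have w2' := r3' γ2
  have e1 : (tq D K d γ1).card = 1 := by omega
  have e2 : (tq D K d γ2).card = 1 := by omega
  have e3 : ∀ γ ∈ im D K, γ ≠ γ1 → γ ≠ γ2 → (rq D K γ).card = Nat.card K := by
    intro γ hγ h1 h2
    rw [← hk]
    apply hfull γ hγ
    rw [hTe]
    intro h3
    rcases mem_insert.1 h3 with h4 | h4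
    · exact h1 h4
    · exact h2 (mem_singleton.1 h4)
  have e4 : (rq D K γ1).card + (rq D K γ2).card + 1 ≤ Nat.card K := by
    rw [← hk]
    omega
  exact ⟨γ1, γ2, hne, w1, w2, e1, e2, e3, e4⟩

theorem thm_Kt : St_Rw → St_Sg → St_Kt := by
  intro hRw hSg G _ _ κ l D d hH hN hd hlam
  obtain ⟨r1, r2, r3, r4, r5, -, -, -, -, -⟩ := hRw G D (AddSubgroup.zmultiples d)
  have hbot : AddSubgroup.zmultiples d ≠ ⊥ := by
    rw [ne_eq, AddSubgroup.zmultiples_eq_bot]
    exact hd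
  have htop : AddSubgroup.zmultiples d ≠ ⊤ := by
    intro h
    apply hH.nc
    refine ⟨d, fun x => ?_⟩
    have hx : x ∈ AddSubgroup.zmultiples d := by
      rw [h]
      exact AddSubgroup.mem_top x
    exact AddSubgroup.mem_zmultiples_iff.1 hx
  obtain ⟨γ1, γ2, h⟩ := Kt_core D d (AddSubgroup.zmultiples d) r1 r2 r3 (r4 d) r5
    (fun γ => (hSg G D d γ).1) (hN _ hbot htop) hlam
  exact ⟨γ1, γ2, hd, h⟩

end Pool.Agent.KAT
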