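import Pool.Agent.KAT.St
import Pool.Agent.SDG.Kn

/-!
# KAT, module Pk: growth by Kneser for almost K-periodic multiples (Lean: helper34)
-/

set_option autoImplicit false

noncomputable section

open Finset Pool.Agent.Helper64.Rho Pool.Agent.SDG Pool.Agent.MDR Pool.Agent.SSE
open scoped Classical Pointwise

namespace Pool.Agent.KAT

section

variable {G : Type} [AddCommGroup G]

private theorem Pk_mem_st [Finite G] {A : Finset G} {H : AddSubgroup G} {x : G} :
    x ∈ st A H ↔ ∃ a ∈ A, x - a ∈ H := by
  unfold st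
  rw [Set.Finite.mem_toFinset]
  rfl

/-- the group of periods -/
private def PkS (E : Finset G) : AddSubgroup G where
  carrier := {g | ∀ x, x + g ∈ E ↔ x ∈ E}
  add_mem' := by
    intro a b ha hb x
    have h1 := hb (x + a)
    rw [← add_assoc, h1]
    exact ha x
  zero_mem' := by
    intro x
    rw [add_zero]
  neg_mem' := by
    intro a ha x
    have h1 := ha (x + -a)
    rw [neg_add_cancel_right] at h1
    exact h1.symm

private theorem Pk_mem_S {E : Finset G} {g : G} : g ∈ PkS E ↔ ∀ x, x + g ∈ E ↔ x ∈ E := Iff.rfl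

private theorem Pk_mem_S' {E : Finset G} {g : G} (h : ∀ x ∈ E, x + g ∈ E) : g ∈ PkS E := by
  rw [Pk_mem_S]
  have h1 : (E.image fun x => x + g) ⊆ E := by
    intro y hy
    obtain ⟨x, hx, rfl⟩ := mem_image.1 hy
    exact h x hx
  have h2 : (E.image fun x => x + g) = E := by
    apply eq_of_subset_of_card_le h1
    rw [card_image_of_injective _ (add_left_injective g)]
  intro x
  refine ⟨fun hx => ?_, h x⟩
  rw [← h2] at hx
  obtain ⟨y, hy, hyx⟩ := mem_image.1 hx
  have h3 : y = x := add_right_cancel hyx
  rw [← h3]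
  exact hy

private theorem Pk_mk {K : AddSubgroup G} {x y : G} :
    (QuotientAddGroup.mk x : G ⧸ K) = QuotientAddGroup.mk y ↔ x - y ∈ K := by
  rw [eq_comm, QuotientAddGroup.eq, neg_add_eq_sub]

private theorem Pk_ind [Finite G] (D : Finset G) (hD : D.Nonempty)
    (hadd : ∀ i j, it D (i + j) = it D i + it D j) (i : ℕ) (hA : Aper (it D i)) :
    ∀ j, j ≤ i → (it D j).Nonempty ∧ j * D.card + 1 ≤ (it D j).card + j := by
  intro j
  induction j with
  | zero =>
    intro _
    refine ⟨⟨0, mem_singleton_self 0⟩, ?_⟩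
    show 0 * D.card + 1 ≤ ({0} : Finset G).card + 0
    rw [card_singleton]
    omega
  | succ j ih =>
    intro hj
    obtain ⟨h1, h2⟩ := ih (by omega)
    have h3 : it D (j + 1) = it D j + D := rfl
    have h4 : Aper (it D (j + 1)) := by
      have h5 : it D i = it D (j + 1) + it D (i - (j + 1)) := by
        rw [← hadd]
        congr 1
        omega
      rw [h5] at hA
      exact Kn_left _ _ hA
    rw [h3] at h4
    have h6 := Kn_one (it D j) D h1 hD h4
    rw [h3]
    refine ⟨h1.add hD, ?_⟩
    rw [add_mul, one_mul]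
    omega

end

theorem thm_Pk : St_Rw → St_Fr → St_Pk := by
  intro hRw hFr G _ _ D K i e h0 hNK hK hi hc
  have hT0 : (0 : G) ∈ it D i := by
    have h1 := (hFr G D K).2.2.2.2.1 h0 0 i (Nat.zero_le i)
    exact h1 (mem_singleton_self 0)
  set S : AddSubgroup G := PkS (st (it D i) K) with hS
  have hKS : K ≤ S := by
    intro k hk
    rw [hS, Pk_mem_S]
    intro x
    rw [Pk_mem_st, Pk_mem_st]
    constructor
    · rintro ⟨a, ha, hxa⟩
      refine ⟨a, ha, ?_⟩
      have h1 := K.sub_mem hxa hk
      rwa [show x + k - a - k = x - a by abel] at h1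
    · rintro ⟨a, ha, hxa⟩
      refine ⟨a, ha, ?_⟩
      have h1 := K.add_mem hxa hk
      rwa [show x - a + k = x + k - a by abel] at h1
  have hE : st (it D i) K = st (it D i) S := by
    ext x
    constructor
    · intro hx
      obtain ⟨a, ha, hxa⟩ := Pk_mem_st.1 hx
      exact Pk_mem_st.2 ⟨a, ha, hKS hxa⟩
    · intro hx
      obtain ⟨a, ha, hxa⟩ := Pk_mem_st.1 hx
      have h1 : a ∈ st (it D i) K := Pk_mem_st.2 ⟨a, ha, by rw [sub_self]; exact K.zero_mem⟩
      have h2 := (Pk_mem_S.1 hxa a).2 h1
      rwa [add_sub_cancel] at h2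
  by_cases hST : S = ⊤
  · left
    have h1 : (st (it D i) K).card = Nat.card G := by
      have : Fintype G := Fintype.ofFinite G
      have h2 : st (it D i) K = univ := by
        rw [eq_univ_iff_forall]
        intro x
        have h3 : x ∈ S := by
          rw [hST]
          exact AddSubgroup.mem_top x
        have h4 : (0 : G) ∈ st (it D i) K := Pk_mem_st.2 ⟨0, hT0, by rw [sub_self]; exact K.zero_mem⟩
        have h5 := (Pk_mem_S.1 h3 0).2 h4
        rwa [zero_add] at h5
      rw [h2, card_univ, Nat.card_eq_fintype_card]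
    omega
  · right
    have hSB : S ≠ ⊥ := by
      intro h
      apply hK
      rw [eq_bot_iff, ← h]
      exact hKS
    have h1 := hNK S hSB hST
    have h2 := (hRw G D S).1
    have h3 := (hRw G (it D i) S).1
    have h4 := (hFr G D S).1 i
    have hDn : (im D S).Nonempty := by
      refine ⟨QuotientAddGroup.mk 0, ?_⟩
      unfold im
      rw [mem_image]
      exact ⟨0, h0, rfl⟩
    have hadd := (hFr (G ⧸ S) (im D S) ⊥).2.2.2.2.2
    have hmem : ∀ x : G, (QuotientAddGroup.mk x : G ⧸ S) ∈ im (it D i) S ↔ x ∈ st (it D i) K := by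
      intro x
      rw [hE, Pk_mem_st]
      unfold im
      rw [mem_image]
      constructor
      · rintro ⟨a, ha, hax⟩
        exact ⟨a, ha, Pk_mk.1 hax.symm⟩
      · rintro ⟨a, ha, hax⟩
        exact ⟨a, ha, (Pk_mk.2 hax).symm⟩
    have hA : Aper (it (im D S) i) := by
      intro g' hg'
      obtain ⟨g, rfl⟩ := QuotientAddGroup.mk_surjective g'
      rw [← h4] at hg'
      have h5 : g ∈ S := by
        apply Pk_mem_S'
        intro x hx
        rw [← hmem] at hx ⊢
        exact hg' _ hx
      exact (QuotientAddGroup.eq_zero_iff g).2 h5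
    have h5 := (Pk_ind (im D S) hDn hadd i hA i le_rfl).2
    rw [h4] at h3
    rw [← hE] at h3
    have h6 : Nat.card K ≤ Nat.card S :=
      Nat.card_le_card_of_injective _ (AddSubgroup.inclusion_injective hKS)
    have h7 := Nat.mul_le_mul_left (Nat.card S) h5
    have h8 : Nat.card S * ((it (im D S) i).card + i) = (st (it D i) K).card + i * Nat.card S := by
      rw [h3]
      ring
    have h9 : Nat.card S * (i * (im D S).card + 1) = i * (st D S).card + Nat.card S := by
      rw [h2]
      ring
    have h10 : i * (D.card + Nat.card S + 1) ≤ i * (st D S).card := Nat.mul_le_mul_left _ h1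
    have h11 : i * (D.card + Nat.card S + 1) = i * (D.card + 1) + i * Nat.card S := by ring
    omega

end Pool.Agent.KAT
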