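import Pool.Agent.KAT.St

/-!
# KAT, module Qt: the hypotheses pass to the quotient by a group of order 3
-/

set_option autoImplicit false

noncomputable section

open Finset Pool.Agent.Helper64.Rho Pool.Agent.SDG Pool.Agent.MDR Pool.Agent.SSE
open scoped Classical Pointwise

namespace Pool.Agent.KAT

private theorem Qt_card {G : Type} [AddCommGroup G] [Finite G] (K : AddSubgroup G)
    (T : Finset (G ⧸ K)) (S : Finset G) (hS : ∀ x, x ∈ S ↔ (QuotientAddGroup.mk x : G ⧸ K) ∈ T) :
    S.card = Nat.card K * T.card := by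
  have h1 : Nat.card {x : G // (QuotientAddGroup.mk x : G ⧸ K) ∈ T} =
      Nat.card K * Nat.card (T : Set (G ⧸ K)) := by
    rw [← Nat.card_prod]
    exact Nat.card_congr (QuotientAddGroup.preimageMkEquivAddSubgroupProdSet K (T : Set (G ⧸ K)))
  rw [Nat.card_coe_set_eq, Set.ncard_coe_finset, Nat.subtype_card S hS] at h1
  exact h1

/-- **Qt** -/
theorem thm_Qt : St_Rw → St_Fr → St_Qt := by
  intro hRw _ G _ _ l D K he4 hsy hcl hcd hnG hdc hl hK3 hst hnf hnc
  obtain ⟨r1, r2, r3, _, r5, r6, _, r8, r9, _⟩ := hRw G D K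
  obtain ⟨hr9, _⟩ := r9 hsy
  rw [hst, hK3] at r1
  -- all rows are full
  have hfull : ∀ γ ∈ im D K, (rq D K γ).card = 3 := by
    by_contra hc
    push Not at hc
    obtain ⟨γ, hγ, hne⟩ := hc
    have h1 : ∑ γ ∈ im D K, (rq D K γ).card < ∑ γ ∈ im D K, 3 := by
      refine Finset.sum_lt_sum (fun i _ => ?_) ⟨γ, hγ, ?_⟩
      · have := r3 i; rw [hK3] at this; exact this
      · have := r3 γ; rw [hK3] at this; omega
    rw [Finset.sum_const, smul_eq_mul, ← r2] at h1
    omega
  have hmem : ∀ x : G, x ∈ D ↔ (QuotientAddGroup.mk x : G ⧸ K) ∈ im D K := by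
    intro x
    constructor
    · intro hx
      unfold im
      exact Finset.mem_image_of_mem _ hx
    · intro hx
      have h1 := hfull _ hx
      rw [← hK3] at h1
      exact (r8 _).1 h1 x rfl
  obtain ⟨h0, hneg, hinv⟩ := hsy
  have hodd : (im D K).card % 2 = 1 := by omega
  obtain ⟨l', hl'⟩ : ∃ l', (im D K).card = 2 * l' + 1 := ⟨(im D K).card / 2, by omega⟩
  refine ⟨l', by omega, ?_⟩
  have hGK : Nat.card G = 3 * Nat.card (G ⧸ K) := by
    rw [AddSubgroup.card_eq_card_quotient_mul_card_addSubgroup K, hK3, mul_comm]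
  refine ⟨hnc, ?_, ⟨?_, ?_, ?_⟩, ?_, hl', by omega, hnf, ?_, Or.inr ⟨rfl, by omega, by omega⟩⟩
  · -- e4
    intro H hH
    have h1 := he4 (H.comap (QuotientAddGroup.mk' K)) (fun x => hH (QuotientAddGroup.mk x))
    rwa [AddSubgroup.index_comap_of_surjective _ (QuotientAddGroup.mk'_surjective K)] at h1
  · -- zero
    exact (hmem 0).1 h0
  · -- symmetric
    intro y hy
    obtain ⟨x, rfl⟩ := QuotientAddGroup.mk_surjective y
    have := hneg x ((hmem x).2 hy)
    exact (hmem (-x)).1 this
  · -- no element of order two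
    intro y hy hyy
    by_contra hy0
    have h1 := hr9 y hyy hy0
    rw [hfull y hy] at h1
    omega
  · -- generates
    have h1 : AddSubgroup.map (QuotientAddGroup.mk' K) (AddSubgroup.closure (D : Set G)) = ⊤ := by
      rw [hcl]
      exact AddSubgroup.map_top_of_surjective _ (QuotientAddGroup.mk'_surjective K)
    rw [AddMonoidHom.map_closure] at h1
    rw [← h1]
    congr 1
    unfold im
    rw [Finset.coe_image]
    rfl
  · -- dense cosets
    intro H γ hH hγ hden
    obtain ⟨y', rfl⟩ := QuotientAddGroup.mk_surjective γ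
    obtain ⟨y, rfl⟩ := QuotientAddGroup.mk_surjective y'
    set H' : AddSubgroup G := H.comap (QuotientAddGroup.mk' K) with hH'
    have hmemH : ∀ x, x ∈ H' ↔ (QuotientAddGroup.mk x : G ⧸ K) ∈ H := fun x => Iff.rfl
    have hcard : Nat.card H' = Nat.card K * Nat.card H := by
      have e1 := Qt_card K ((H : Set (G ⧸ K)).toFinite.toFinset) ((H' : Set G).toFinite.toFinset)
        (fun x => by
          rw [Set.Finite.mem_toFinset, Set.Finite.mem_toFinset]
          exact hmemH x)
      rw [← Set.ncard_eq_toFinset_card, ← Set.ncard_eq_toFinset_card] at e1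
      exact e1
    have hH1 : 1 < Nat.card H := (AddSubgroup.one_lt_card_iff_ne_bot H).2 hH
    have hrow : ∀ z : G, (rq D H' (QuotientAddGroup.mk z)).card =
        Nat.card K * (rq (im D K) H (QuotientAddGroup.mk (QuotientAddGroup.mk z : G ⧸ K))).card := by
      intro z
      refine Qt_card K _ _ fun x => ?_
      unfold rq
      rw [Finset.mem_filter, Finset.mem_filter, hmem x]
      refine and_congr_right fun _ => ?_
      rw [QuotientAddGroup.eq, QuotientAddGroup.eq, hmemH]
      rfl
    have e1 := hrow y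
    have e2 := hrow 0
    rw [hK3] at e1 e2 hcard
    have h2 := hdc H' (QuotientAddGroup.mk y) ?_ ?_ ?_
    · rw [hcard] at h2
      omega
    · intro h
      rw [h, AddSubgroup.card_bot] at hcard
      omega
    · intro h
      apply hγ
      rw [← QuotientAddGroup.mk_add, QuotientAddGroup.eq_zero_iff] at h ⊢
      exact h
    · have e2' : (rq D H' 0).card = 3 * (rq (im D K) H 0).card := e2
      rw [e1, e2', hcard]
      omega

end Pool.Agent.KAT
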