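import Pool.Agent.KAT.Rw

/-!
# KAT, Sg: strings (Lean: helper77)
-/

set_option autoImplicit false

noncomputable section

open Finset Pool.Agent.Helper64.Rho Pool.Agent.SDG Pool.Agent.MDR Pool.Agent.SSE
open scoped Classical Pointwise

namespace Pool.Agent.KAT

section

variable {G : Type} [AddCommGroup G]

private theorem Sg_mem_rq {D : Finset G} {K : AddSubgroup G} {γ : G ⧸ K} {x : G} :
    x ∈ rq D K γ ↔ x ∈ D ∧ (QuotientAddGroup.mk x : G ⧸ K) = γ := by
  unfold rq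
  rw [mem_filter]

private theorem Sg_mem_tq {D : Finset G} {K : AddSubgroup G} {d : G} {γ : G ⧸ K} {x : G} :
    x ∈ tq D K d γ ↔ x ∈ rq D K γ ∧ x + d ∉ D := by
  unfold tq
  rw [mem_filter]

private theorem Sg_mk {K : AddSubgroup G} {x y : G} :
    (QuotientAddGroup.mk x : G ⧸ K) = QuotientAddGroup.mk y ↔ x - y ∈ K := by
  rw [eq_comm, QuotientAddGroup.eq, neg_add_eq_sub]

/-- leaving a set by steps `d` -/
private theorem Sg_walk {D : Finset G} {d y : G} (hy : y ∈ D) {t : ℕ}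
    (ht : y + t • d ∉ D) : ∃ m, m < t ∧ (∀ j, j ≤ m → y + j • d ∈ D) ∧ y + (m + 1) • d ∉ D := by
  have hex : ∃ n, y + n • d ∉ D := ⟨t, ht⟩
  have h1 := Nat.find_spec hex
  have h2 : Nat.find hex ≠ 0 := by
    intro h
    rw [h, zero_smul, add_zero] at h1
    exact h1 hy
  have h3 : Nat.find hex ≤ t := Nat.find_min' hex ht
  refine ⟨Nat.find hex - 1, by omega, ?_, ?_⟩
  · intro j hj
    by_contra hcon
    have := Nat.find_min' hex hcon
    omega
  · rwa [show Nat.find hex - 1 + 1 = Nat.find hex by omega]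

/-- multiples in a finite cyclic group -/
private theorem Sg_zm [Finite G] {d x : G}
    (h : x ∈ AddSubgroup.zmultiples d) : ∃ t : ℕ, x = t • d ∧ t < addOrderOf d := by
  have h1 : x ∈ AddSubmonoid.multiples d := mem_multiples_iff_mem_zmultiples.2 h
  obtain ⟨n, hn⟩ := AddSubmonoid.mem_multiples_iff _ _ |>.1 h1
  refine ⟨n % addOrderOf d, ?_, Nat.mod_lt _ (addOrderOf_pos d)⟩
  rw [mod_addOrderOf_nsmul]
  exact hn.symm

private theorem Sg_mk_add {d x : G} (j : ℕ) :
    (QuotientAddGroup.mk (x + j • d) : G ⧸ AddSubgroup.zmultiples d) =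
      QuotientAddGroup.mk x := by
  rw [Sg_mk, add_sub_cancel_left]
  exact AddSubgroup.nsmul_mem_zmultiples d j

private theorem Sg_mk_sub {d x : G} (j : ℕ) :
    (QuotientAddGroup.mk (x - j • d) : G ⧸ AddSubgroup.zmultiples d) =
      QuotientAddGroup.mk x := by
  rw [Sg_mk]
  have h1 : x - j • d - x = -(j • d) := by abel
  rw [h1]
  exact AddSubgroup.neg_mem _ (AddSubgroup.nsmul_mem_zmultiples d j)

/-- two elements of a coset of `⟨d⟩` -/
private theorem Sg_reach [Finite G] {d x y : G} {γ : G ⧸ AddSubgroup.zmultiples d}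
    (hx : (QuotientAddGroup.mk x : G ⧸ AddSubgroup.zmultiples d) = γ)
    (hy : (QuotientAddGroup.mk y : G ⧸ AddSubgroup.zmultiples d) = γ) :
    ∃ t : ℕ, t < addOrderOf d ∧ x = y + t • d := by
  have h1 : x - y ∈ AddSubgroup.zmultiples d := Sg_mk.1 (hx.trans hy.symm)
  obtain ⟨t, ht, hto⟩ := Sg_zm h1
  refine ⟨t, hto, ?_⟩
  rw [← ht]
  abel

/-- one top -/
private theorem Sg_one [Finite G] {D : Finset G} {d : G} {γ : G ⧸ AddSubgroup.zmultiples d}
    (h : (tq D (AddSubgroup.zmultiples d) d γ).card = 1) :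
    ∃ x : G, (QuotientAddGroup.mk x : G ⧸ AddSubgroup.zmultiples d) = γ ∧ x ∈ D ∧ x + d ∉ D ∧
      ∀ y : G, y ∈ rq D (AddSubgroup.zmultiples d) γ ↔
        ∃ j : ℕ, j < (rq D (AddSubgroup.zmultiples d) γ).card ∧ y = x - j • d := by
  obtain ⟨x, hx⟩ := Finset.card_eq_one.1 h
  have hxt : x ∈ tq D (AddSubgroup.zmultiples d) d γ := by
    rw [hx]
    exact mem_singleton_self x
  have hun : ∀ y ∈ D, (QuotientAddGroup.mk y : G ⧸ AddSubgroup.zmultiples d) = γ →
      y + d ∉ D → y = x := by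
    intro y hy hyγ hyd
    have h1 : y ∈ tq D (AddSubgroup.zmultiples d) d γ := Sg_mem_tq.2 ⟨Sg_mem_rq.2 ⟨hy, hyγ⟩, hyd⟩
    rw [hx] at h1
    exact mem_singleton.1 h1
  obtain ⟨hxr, hxd⟩ := Sg_mem_tq.1 hxt
  obtain ⟨hxD, hxγ⟩ := Sg_mem_rq.1 hxr
  set R := rq D (AddSubgroup.zmultiples d) γ with hR
  have hform : ∀ y ∈ R, ∃ k : ℕ, k < R.card ∧ y = x - k • d := by
    intro y hy
    obtain ⟨hyD, hyγ⟩ := Sg_mem_rq.1 hy
    have hxdγ : (QuotientAddGroup.mk (x + d) : G ⧸ AddSubgroup.zmultiples d) = γ := by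
      have h1 := Sg_mk_add (d := d) (x := x) 1
      rw [one_nsmul] at h1
      rw [h1, hxγ]
    obtain ⟨t, hto, ht⟩ := Sg_reach hxdγ hyγ
    have h2 : y + t • d ∉ D := by
      rw [← ht]
      exact hxd
    obtain ⟨m, hm, hm1, hm2⟩ := Sg_walk hyD h2
    have h1 : y + m • d = x := by
      refine hun _ (hm1 m le_rfl) ?_ ?_
      · rw [Sg_mk_add, hyγ]
      · rwa [add_assoc, ← succ_nsmul]
    refine ⟨m, ?_, ?_⟩
    · have h2 : ((range (m + 1)).image fun j : ℕ => y + j • d) ⊆ R := by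
        intro z hz
        obtain ⟨j, hj, rfl⟩ := Finset.mem_image.1 hz
        refine Sg_mem_rq.2 ⟨hm1 j (by rw [mem_range] at hj; omega), ?_⟩
        rw [Sg_mk_add, hyγ]
      have h3 := Finset.card_le_card h2
      rw [Finset.card_image_of_injOn, card_range] at h3
      · omega
      · intro a ha b hb hab
        have ha' : a < m + 1 := mem_range.1 (Finset.mem_coe.1 ha)
        have hb' : b < m + 1 := mem_range.1 (Finset.mem_coe.1 hb)
        have h4 : a • d = b • d := add_left_cancel hab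
        have h5 := nsmul_inj_mod.1 h4
        rwa [Nat.mod_eq_of_lt (by omega), Nat.mod_eq_of_lt (by omega)] at h5
    · rw [← h1]
      abel
  have hDe : R = (range R.card).image fun k : ℕ => x - k • d := by
    refine Finset.eq_of_subset_of_card_le ?_ ?_
    · intro y hy
      obtain ⟨k, hk, hyk⟩ := hform y hy
      exact Finset.mem_image.2 ⟨k, mem_range.2 hk, hyk.symm⟩
    · refine Finset.card_image_le.trans ?_
      rw [card_range]
  refine ⟨x, hxγ, hxD, hxd, fun y => ⟨hform y, ?_⟩⟩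
  rintro ⟨j, hj, rfl⟩
  rw [hDe]
  exact Finset.mem_image.2 ⟨j, mem_range.2 hj, rfl⟩

/-- a symmetric string -/
private theorem Sg_sym {D : Finset G} {d x : G} {γ : G ⧸ AddSubgroup.zmultiples d}
    (hs : ∀ y ∈ D, -y ∈ D) (hγ : -γ = γ)
    (hxγ : (QuotientAddGroup.mk x : G ⧸ AddSubgroup.zmultiples d) = γ) (hxD : x ∈ D)
    (hxd : x + d ∉ D)
    (hR : ∀ y : G, y ∈ rq D (AddSubgroup.zmultiples d) γ ↔
        ∃ j : ℕ, j < (rq D (AddSubgroup.zmultiples d) γ).card ∧ y = x - j • d) :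
    ∃ k : ℕ, (rq D (AddSubgroup.zmultiples d) γ).card = k + 1 ∧ x + x = k • d := by
  have h1 : -x ∈ rq D (AddSubgroup.zmultiples d) γ := by
    rw [Sg_mem_rq, QuotientAddGroup.mk_neg, hxγ]
    exact ⟨hs x hxD, hγ⟩
  obtain ⟨k, hk, hxk⟩ := (hR _).1 h1
  refine ⟨k, ?_, ?_⟩
  · by_contra hne
    have h2 := (hR (x - (k + 1) • d)).2 ⟨k + 1, by omega, rfl⟩
    have h3 := hs _ (Sg_mem_rq.1 h2).1
    apply hxd
    have h4 : -(x - (k + 1) • d) = x + d := by
      rw [succ_nsmul]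
      have h3 : -(x - (k • d + d)) = -(x - k • d) + d := by abel
      rw [h3, ← hxk, neg_neg]
    rwa [h4] at h3
  · have h2 : x + x = k • d + (-x + x) := by
      nth_rewrite 1 [hxk]
      abel
    rw [h2, neg_add_cancel, add_zero]

end

theorem thm_Sg : St_Sg := by
  intro G _ _ D d γ
  obtain ⟨-, -, hRle, -, -, -, -, hRfull, hRpar, -⟩ := thm_Rw G D (AddSubgroup.zmultiples d)
  refine ⟨?_, ?_, ?_, ?_⟩
  · intro h
    by_cases h0 : (rq D (AddSubgroup.zmultiples d) γ).card = 0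
    · exact Or.inl h0
    · right
      rw [hRfull]
      intro x hx
      obtain ⟨y, hy⟩ := Finset.card_pos.1 (Nat.pos_of_ne_zero h0)
      obtain ⟨hyD, hyγ⟩ := Sg_mem_rq.1 hy
      by_contra hxD
      obtain ⟨t, -, ht⟩ := Sg_reach hx hyγ
      rw [ht] at hxD
      obtain ⟨m, -, hm1, hm2⟩ := Sg_walk hyD hxD
      have h1 : y + m • d ∈ tq D (AddSubgroup.zmultiples d) d γ := by
        refine Sg_mem_tq.2 ⟨Sg_mem_rq.2 ⟨hm1 m le_rfl, ?_⟩, ?_⟩
        · rw [Sg_mk_add, hyγ]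
        · rwa [add_assoc, ← succ_nsmul]
      rw [Finset.card_eq_zero] at h
      rw [h] at h1
      exact absurd h1 (Finset.notMem_empty _)
  · intro h
    refine ⟨?_, Sg_one h⟩
    obtain ⟨x, hxγ, hxD, hxd, -⟩ := Sg_one h
    have h1 := hRle γ
    by_contra hcon
    have h2 : (rq D (AddSubgroup.zmultiples d) γ).card = Nat.card (AddSubgroup.zmultiples d) := by
      omega
    apply hxd
    refine (hRfull γ).1 h2 _ ?_
    have h3 := Sg_mk_add (d := d) (x := x) 1
    rw [one_nsmul] at h3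
    rw [h3, hxγ]
  · intro hSY h hγ hγ0
    have hev := (hRpar hSY).1 γ hγ hγ0
    obtain ⟨x, hxγ, hxD, hxd, hR⟩ := Sg_one h
    obtain ⟨k, hk, hxk⟩ := Sg_sym hSY.2.1 (neg_eq_of_add_eq_zero_left hγ) hxγ hxD hxd hR
    refine ⟨hev, ?_⟩
    obtain ⟨s, hs⟩ : ∃ s, k = 2 * s + 1 := ⟨(k - 1) / 2, by omega⟩
    refine ⟨x - s • d, ?_, ?_⟩
    · rw [Sg_mk_sub, hxγ]
    · have h1 : x - s • d + (x - s • d) = (x + x) - (s • d + s • d) := by abel
      rw [h1, hxk, hs, ← add_nsmul, ← two_mul, add_nsmul, one_nsmul, add_sub_cancel_left]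
  · intro hSY h hγ
    have hodd := (hRpar hSY).2
    obtain ⟨x, hxγ, hxD, hxd, hR⟩ := Sg_one h
    have hneg : -γ = γ := by
      rw [hγ, neg_zero]
    obtain ⟨k, hk, hxk⟩ := Sg_sym hSY.2.1 hneg hxγ hxD hxd hR
    have hodd' : (rq D (AddSubgroup.zmultiples d) γ).card % 2 = 1 := by
      rw [hγ]
      exact hodd
    obtain ⟨t, ht⟩ : ∃ t, k = 2 * t := ⟨k / 2, by omega⟩
    refine ⟨t, by omega, ?_⟩
    have h2 : x - t • d ∈ rq D (AddSubgroup.zmultiples d) γ :=
      (hR _).2 ⟨t, by omega, rfl⟩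
    have h3 : x - t • d + (x - t • d) = 0 := by
      have h1 : x - t • d + (x - t • d) = (x + x) - (t • d + t • d) := by abel
      rw [h1, hxk, ht, ← add_nsmul, ← two_mul, sub_self]
    have h4 : x = t • d := sub_eq_zero.1 (hSY.2.2 _ (Sg_mem_rq.1 h2).1 h3)
    intro y
    rw [hR y]
    constructor
    · rintro ⟨j, hj, rfl⟩
      rcases Nat.le_total j t with hjt | hjt
      · refine ⟨t - j, by omega, Or.inl ?_⟩
        rw [h4]
        have h1 : t • d = (t - j) • d + j • d := by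
          rw [← add_nsmul, Nat.sub_add_cancel hjt]
        rw [h1, add_sub_cancel_right]
      · refine ⟨j - t, by omega, Or.inr ?_⟩
        rw [h4]
        have h1 : j • d = (j - t) • d + t • d := by
          rw [← add_nsmul, Nat.sub_add_cancel hjt]
        rw [h1]
        abel
    · rintro ⟨j, hj, h5 | h5⟩
      · refine ⟨t - j, by omega, ?_⟩
        rw [h5, h4]
        have h1 : t • d = (t - j) • d + j • d := by
          rw [← add_nsmul, Nat.sub_add_cancel hj]
        rw [h1]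
        abel
      · refine ⟨t + j, by omega, ?_⟩
        rw [h5, h4, add_nsmul]
        abel

end Pool.Agent.KAT

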