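import Pool.Agent.KAT.Rw
import Pool.Agent.KAT.Sg
import Pool.Agent.KAT.Fr
import Pool.Agent.KAT.Pk
import Pool.Agent.KAT.Ka
import Pool.Agent.KAT.Kt
import Pool.Agent.KAT.K4
import Pool.Agent.KAT.B1
import Pool.Agent.KAT.B2
import Pool.Agent.KAT.B3
import Pool.Agent.KAT.B4
import Pool.Agent.KAT.Kb
import Pool.Agent.KAT.C1
import Pool.Agent.KAT.C2
import Pool.Agent.KAT.C3
import Pool.Agent.KAT.C4
import Pool.Agent.KAT.Co
import Pool.Agent.KAT.Df
import Pool.Agent.KAT.E4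
import Pool.Agent.KAT.Qt
import Pool.Agent.KAT.GRO
import Pool.Agent.SSF.St

/-!
# KAT: assembly (helper86)
-/

set_option autoImplicit false

noncomputable section

open Finset Pool.Agent.Helper64.Rho Pool.Agent.SDG Pool.Agent.MDR Pool.Agent.SSE
open scoped Classical Pointwise

namespace Pool.Agent.KAT

theorem all_Pk : St_Pk := thm_Pk thm_Rw thm_Fr
theorem all_Ka : St_Ka := thm_Ka thm_Rw thm_Fr
theorem all_Kt : St_Kt := thm_Kt thm_Rw thm_Sg
theorem all_B1 : St_B1 := thm_B1 thm_Rw thm_Sg thm_Fr all_Pk thm_K4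
theorem all_B2 : St_B2 := thm_B2 thm_Rw thm_Fr thm_Sg thm_K4
theorem all_B3 : St_B3 := thm_B3 thm_Rw thm_Fr all_Pk
theorem all_B4 : St_B4 := thm_B4 thm_Rw thm_Sg thm_Fr
theorem all_Kb : St_Kb := thm_Kb thm_Rw all_Kt all_B1 all_B2 all_B3 all_B4
theorem all_C1 : St_C1 := thm_C1 thm_Rw thm_Sg
theorem all_C2 : St_C2 := thm_C2 thm_Rw thm_Sg
theorem all_C3 : St_C3 := thm_C3 thm_Rw thm_Sg
theorem all_C4 : St_C4 := thm_C4 thm_Rw thm_Sg
theorem all_Co : St_Co := thm_Co all_Ka all_Kb all_C1 all_C2 all_C3 all_C4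
theorem all_Df : St_Df := thm_Df thm_Rw
theorem all_Qt : St_Qt := thm_Qt thm_Rw thm_Fr
theorem all_GRO : St_GRO := thm_GRO thm_Rw thm_Fr all_Co all_Df thm_E4 all_Qt

/-- the growth theorem in the form of SSF -/
theorem ssf_GRO : Pool.Agent.SSF.St_GRO := by
  intro G ι _ _ u f hR hnc hAE hgen hu hDC hn
  exact all_GRO G ι u f hR hnc hAE hgen hu hDC hn

end Pool.Agent.KAT
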