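import Pool.Agent.KAT.St

/-!
# KAT [E4]: in rank at most two a quotient of exponent two has at most four elements
-/

set_option autoImplicit false

noncomputable section

open Finset Pool.Agent.Helper64.Rho Pool.Agent.SDG Pool.Agent.MDR Pool.Agent.SSE
open scoped Classical Pointwise

namespace Pool.Agent.KAT

private theorem E4_fst (G : Type) [AddCommGroup G] [Finite G] (h : R2 G) (K : AddSubgroup G)
    (hK : ∀ x : G, x + x ∈ K) : K.index ≤ 4 := by
  have h2 := h 2 Nat.prime_two
  let φ : G →+ G := nsmulAddMonoidHom 2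
  have hφ : ∀ x : G, φ x = 2 • x := fun x => rfl
  have hle : φ.range ≤ K := by
    rintro _ ⟨x, rfl⟩
    rw [hφ, two_nsmul]
    exact hK x
  have hker : Nat.card φ.ker = Nat.card {x : G // 2 • x = 0} :=
    Nat.card_congr (Equiv.subtypeEquivRight fun x => by rw [AddMonoidHom.mem_ker, hφ])
  have h3 : φ.ker.index = Nat.card φ.range := AddSubgroup.index_ker φ
  have h4 := AddSubgroup.card_mul_index φ.ker
  have h5 := AddSubgroup.card_mul_index φ.range
  have h6 : φ.range.index = Nat.card φ.ker := by
    have h7 : 0 < Nat.card φ.range := Nat.card_pos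
    apply Nat.eq_of_mul_eq_mul_left h7
    rw [h5, ← h4, h3, mul_comm]
  have h8 : K.index ∣ φ.range.index := AddSubgroup.index_dvd_of_le hle
  have h9 : 0 < φ.range.index := by
    rw [h6]
    exact Nat.card_pos
  have h10 := Nat.le_of_dvd h9 h8
  rw [h6, hker] at h10
  omega

theorem thm_E4 : St_E4 := by
  refine ⟨fun G _ _ h K hK => E4_fst G h K hK, fun G _ _ M h K hK => ?_⟩
  have h1 := h (K.comap (QuotientAddGroup.mk' M)) fun x => by
    rw [AddSubgroup.mem_comap, map_add]
    exact hK _
  rwa [AddSubgroup.index_comap_of_surjective K (QuotientAddGroup.mk'_surjective M)] at h1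

end Pool.Agent.KAT
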