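import Pool.Agent.KAT.St

/-!
# KAT, Rw: rows (Lean: helper77)
-/

set_option autoImplicit false

noncomputable section

open Finset Pool.Agent.Helper64.Rho Pool.Agent.SDG Pool.Agent.MDR Pool.Agent.SSE
open scoped Classical Pointwise

namespace Pool.Agent.KAT

section

variable {G : Type} [AddCommGroup G]

private theorem Rw_mem_st [Finite G] {A : Finset G} {H : AddSubgroup G} {x : G} :
    x ∈ st A H ↔ ∃ a ∈ A, x - a ∈ H := by
  unfold st
  simp

private theorem Rw_mk {K : AddSubgroup G} {x y : G} :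
    (QuotientAddGroup.mk x : G ⧸ K) = QuotientAddGroup.mk y ↔ x - y ∈ K := by
  rw [eq_comm, QuotientAddGroup.eq, neg_add_eq_sub]

/-- a coset -/
private def RwC [Finite G] (K : AddSubgroup G) (γ : G ⧸ K) : Finset G :=
  (Set.toFinite {x : G | (QuotientAddGroup.mk x : G ⧸ K) = γ}).toFinset

private theorem RwC_mem [Finite G] {K : AddSubgroup G} {γ : G ⧸ K} {x : G} :
    x ∈ RwC K γ ↔ (QuotientAddGroup.mk x : G ⧸ K) = γ := by
  unfold RwC
  simp

private theorem RwC_card [Finite G] (K : AddSubgroup G) (γ : G ⧸ K) :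
    (RwC K γ).card = Nat.card K := by
  obtain ⟨a, rfl⟩ := QuotientAddGroup.mk_surjective γ
  have h1 : ((Set.toFinite (K : Set G)).toFinset).card = Nat.card K := by
    rw [← Set.ncard_eq_toFinset_card (K : Set G) (Set.toFinite _)]
    rfl
  rw [← h1]
  have h3 : RwC K (QuotientAddGroup.mk a : G ⧸ K) =
      ((Set.toFinite (K : Set G)).toFinset).image fun k => a + k := by
    ext x
    rw [RwC_mem, mem_image]
    constructor
    · intro hx
      refine ⟨x - a, ?_, by abel⟩
      simpa using Rw_mk.1 hx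
    · rintro ⟨k, hk, rfl⟩
      have hk' : k ∈ K := by simpa using hk
      rw [Rw_mk, add_sub_cancel_left]
      exact hk'
  rw [h3, card_image_of_injective _ (add_right_injective a)]

private theorem Rw_mem_rq {D : Finset G} {K : AddSubgroup G} {γ : G ⧸ K} {x : G} :
    x ∈ rq D K γ ↔ x ∈ D ∧ (QuotientAddGroup.mk x : G ⧸ K) = γ := by
  unfold rq
  rw [mem_filter]

private theorem Rw_mem_tq {D : Finset G} {K : AddSubgroup G} {d : G} {γ : G ⧸ K} {x : G} :
    x ∈ tq D K d γ ↔ x ∈ rq D K γ ∧ x + d ∉ D := by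
  unfold tq
  rw [mem_filter]

private theorem Rw_mem_im {D : Finset G} {K : AddSubgroup G} {γ : G ⧸ K} :
    γ ∈ im D K ↔ ∃ x ∈ D, (QuotientAddGroup.mk x : G ⧸ K) = γ := by
  unfold im
  rw [mem_image]

private theorem Rw_card_st [Finite G] (D : Finset G) (K : AddSubgroup G) :
    (st D K).card = Nat.card K * (im D K).card := by
  have h1 : ∀ x ∈ st D K, (QuotientAddGroup.mk x : G ⧸ K) ∈ im D K := by
    intro x hx
    obtain ⟨a, ha, hxa⟩ := Rw_mem_st.1 hx
    exact Rw_mem_im.2 ⟨a, ha, (Rw_mk.2 hxa).symm⟩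
  rw [card_eq_sum_card_fiberwise (f := fun x : G => (QuotientAddGroup.mk x : G ⧸ K)) h1]
  have h2 : ∀ q ∈ im D K,
      ((st D K).filter fun x => (QuotientAddGroup.mk x : G ⧸ K) = q).card = Nat.card K := by
    intro q hq
    rw [← RwC_card K q]
    congr 1
    ext x
    rw [mem_filter, RwC_mem]
    constructor
    · exact fun h => h.2
    · intro hx
      refine ⟨?_, hx⟩
      obtain ⟨a, ha, hq⟩ := Rw_mem_im.1 hq
      refine Rw_mem_st.2 ⟨a, ha, Rw_mk.1 ?_⟩
      rw [hx, hq]
  rw [sum_congr rfl h2, sum_const, smul_eq_mul, mul_comm]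

private theorem Rw_sub_C [Finite G] (D : Finset G) (K : AddSubgroup G) (γ : G ⧸ K) :
    rq D K γ ⊆ RwC K γ := by
  intro x hx
  exact RwC_mem.2 (Rw_mem_rq.1 hx).2

private theorem Rw_full [Finite G] (D : Finset G) (K : AddSubgroup G) (γ : G ⧸ K) :
    (rq D K γ).card = Nat.card K ↔ ∀ x : G, (QuotientAddGroup.mk x : G ⧸ K) = γ → x ∈ D := by
  constructor
  · intro h x hx
    have h1 : rq D K γ = RwC K γ := by
      refine Finset.eq_of_subset_of_card_le (Rw_sub_C D K γ) ?_
      rw [RwC_card, h]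
    have h2 : x ∈ rq D K γ := by
      rw [h1, RwC_mem]
      exact hx
    exact (Rw_mem_rq.1 h2).1
  · intro h
    rw [← RwC_card K γ]
    congr 1
    ext x
    rw [Rw_mem_rq, RwC_mem]
    exact ⟨fun hx => hx.2, fun hx => ⟨h x hx, hx⟩⟩

/-- a set without fixed points of `x ↦ -x` has an even number of elements -/
private theorem Rw_even (S : Finset G) (hs : ∀ y ∈ S, -y ∈ S) (hf : ∀ y ∈ S, -y ≠ y) :
    S.card % 2 = 0 := by
  have h1 : ∑ _x ∈ S, (1 : ZMod 2) = 0 := by
    refine Finset.sum_involution (fun y _ => -y) ?_ ?_ ?_ ?_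
    · intro a _
      decide
    · intro a ha _
      exact hf a ha
    · intro a ha
      exact hs a ha
    · intro a _
      exact neg_neg a
  rw [sum_const, nsmul_eq_mul, mul_one] at h1
  exact Nat.mod_eq_zero_of_dvd ((ZMod.natCast_eq_zero_iff _ _).1 h1)

/-- the part of a row that stays in `D` -/
private def RwA (D : Finset G) (K : AddSubgroup G) (d : G) (γ : G ⧸ K) : Finset G :=
  (rq D K γ).filter fun x => x + d ∈ D

private theorem RwA_card (D : Finset G) (K : AddSubgroup G) (d : G) (γ : G ⧸ K) :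
    (RwA D K d γ).card + (tq D K d γ).card = (rq D K γ).card := by
  unfold RwA tq
  exact Finset.card_filter_add_card_filter_not (s := rq D K γ) fun x => x + d ∈ D

private theorem RwA_le (D : Finset G) (K : AddSubgroup G) (hs : ∀ y ∈ D, -y ∈ D) {d : G}
    (hd : d ∈ K) (γ : G ⧸ K) : (RwA D K d γ).card ≤ (RwA D K d (-γ)).card := by
  refine Finset.card_le_card_of_injOn (fun x => -(x + d)) ?_ ?_
  · intro x hx
    have hx' : x ∈ RwA D K d γ := hx
    unfold RwA at hx'
    rw [mem_filter, Rw_mem_rq] at hx'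
    obtain ⟨⟨h1, h2⟩, h3⟩ := hx'
    have h4 : -(x + d) ∈ RwA D K d (-γ) := by
      unfold RwA
      rw [mem_filter, Rw_mem_rq]
      refine ⟨⟨hs _ h3, ?_⟩, ?_⟩
      · rw [← h2, QuotientAddGroup.mk_neg, neg_inj, Rw_mk, add_sub_cancel_left]
        exact hd
      · have h5 : -(x + d) + d = -x := by abel
        rw [h5]
        exact hs x h1
    exact h4
  · intro x _ y _ hxy
    exact add_right_cancel (neg_injective hxy)

private theorem Rw_rq_le (D : Finset G) (K : AddSubgroup G) (hs : ∀ y ∈ D, -y ∈ D) (γ : G ⧸ K) :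
    (rq D K γ).card ≤ (rq D K (-γ)).card := by
  refine Finset.card_le_card_of_injOn (fun x => -x) ?_ ?_
  · intro x hx
    have hx' : x ∈ rq D K γ := hx
    rw [Rw_mem_rq] at hx'
    have h4 : -x ∈ rq D K (-γ) := by
      rw [Rw_mem_rq]
      refine ⟨hs _ hx'.1, ?_⟩
      rw [← hx'.2, QuotientAddGroup.mk_neg]
    exact h4
  · intro x _ y _ hxy
    exact neg_injective hxy

private theorem Rw_rq_neg (D : Finset G) (K : AddSubgroup G) (hs : ∀ y ∈ D, -y ∈ D)
    (γ : G ⧸ K) : (rq D K (-γ)).card = (rq D K γ).card := by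
  refine le_antisymm ?_ (Rw_rq_le D K hs γ)
  have h := Rw_rq_le D K hs (-γ)
  rwa [neg_neg] at h

private theorem RwA_neg (D : Finset G) (K : AddSubgroup G) (hs : ∀ y ∈ D, -y ∈ D) {d : G}
    (hd : d ∈ K) (γ : G ⧸ K) : (RwA D K d (-γ)).card = (RwA D K d γ).card := by
  refine le_antisymm ?_ (RwA_le D K hs hd γ)
  have h := RwA_le D K hs hd (-γ)
  rwa [neg_neg] at h

end

theorem thm_Rw : St_Rw := by
  intro G _ _ D K
  have him : ∀ x ∈ D, (QuotientAddGroup.mk x : G ⧸ K) ∈ im D K :=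
    fun x hx => Rw_mem_im.2 ⟨x, hx, rfl⟩
  refine ⟨Rw_card_st D K, ?_, ?_, ?_, ?_, ?_, ?_, Rw_full D K, ?_, ?_⟩
  · exact card_eq_sum_card_fiberwise him
  · intro γ
    rw [← RwC_card K γ]
    exact Finset.card_le_card (Rw_sub_C D K γ)
  · intro d
    have h1 : ∀ x ∈ D.filter (fun x => x + d ∉ D), (QuotientAddGroup.mk x : G ⧸ K) ∈ im D K :=
      fun x hx => him x (mem_filter.1 hx).1
    have h2 : lam D d = (D.filter (fun x => x + d ∉ D)).card := by
      unfold lam
      congr 1
    rw [h2, card_eq_sum_card_fiberwise h1]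
    refine sum_congr rfl fun γ _ => ?_
    congr 1
    ext x
    rw [mem_filter, mem_filter, Rw_mem_tq, Rw_mem_rq]
    tauto
  · intro γ
    rw [Rw_mem_im, Nat.one_le_iff_ne_zero, ← Nat.pos_iff_ne_zero, Finset.card_pos]
    constructor
    · rintro ⟨x, hx, h⟩
      exact ⟨x, Rw_mem_rq.2 ⟨hx, h⟩⟩
    · rintro ⟨x, hx⟩
      exact ⟨x, (Rw_mem_rq.1 hx).1, (Rw_mem_rq.1 hx).2⟩
  · intro hs γ
    exact Rw_rq_neg D K hs γ
  · intro hs d hd γ
    have h1 := RwA_card D K d γ
    have h2 := RwA_card D K d (-γ)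
    have h3 := Rw_rq_neg D K hs γ
    have h4 := RwA_neg D K hs hd γ
    omega
  · rintro ⟨h0, hs, h2⟩
    constructor
    · intro γ hγ hγ0
      refine Rw_even _ ?_ ?_
      · intro y hy
        rw [Rw_mem_rq] at hy ⊢
        refine ⟨hs y hy.1, ?_⟩
        rw [QuotientAddGroup.mk_neg, hy.2]
        exact neg_eq_of_add_eq_zero_left hγ
      · intro y hy hyy
        rw [Rw_mem_rq] at hy
        have h3 : y + y = 0 := by
          nth_rewrite 1 [← hyy]
          exact neg_add_cancel y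
        have h4 := h2 y hy.1 h3
        rw [h4] at hy
        exact hγ0 hy.2.symm
    · have h3 : (0 : G) ∈ rq D K 0 := Rw_mem_rq.2 ⟨h0, rfl⟩
      have h4 := Finset.card_erase_add_one h3
      have h5 : ((rq D K 0).erase 0).card % 2 = 0 := by
        refine Rw_even _ ?_ ?_
        · intro y hy
          rw [mem_erase, Rw_mem_rq] at hy ⊢
          refine ⟨neg_ne_zero.2 hy.1, hs y hy.2.1, ?_⟩
          rw [QuotientAddGroup.mk_neg, hy.2.2, neg_zero]
        · intro y hy hyy
          rw [mem_erase, Rw_mem_rq] at hy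
          have h3 : y + y = 0 := by
            nth_rewrite 1 [← hyy]
            exact neg_add_cancel y
          exact hy.1 (h2 y hy.2.1 h3)
      omega
  · intro d hd γ h
    rw [Finset.card_eq_zero, Finset.eq_empty_iff_forall_notMem]
    intro x hx
    rw [Rw_mem_tq, Rw_mem_rq] at hx
    apply hx.2
    refine (Rw_full D K γ).1 h _ ?_
    rw [← hx.1.2, Rw_mk, add_sub_cancel_left]
    exact hd

end Pool.Agent.KAT

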