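import Mathlib
import Pool.Agent.Helper58.Atoms

/-!
# KAT: 2-atoms for every excess `m` (MP_ec93d3_co)

helper86.  `F`, `sat`, `stab`, `Sidon`, `cls` : Pool.Agent.Helper58.
Main result `two_atom`: if `|X + D| ≤ |X| + |D| + m`, `2 ≤ |X|`, `|X + D| + 2 ≤ |G|`, then a proper nonzero subgroup `K` satisfies
`|D + K| ≤ |D| + |K| + m`, or there is a Sidon set `A ∋ 0` with `2 ≤ |A| ≤ m + 3` and `|A + D| ≤ |A| + |D| + m`.
-/

set_option autoImplicit false
set_option linter.unusedSectionVars false

open Finset Pointwise Pool.Agent.Helper58
open scoped Classical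

namespace Pool.Agent.KAT

variable {G : Type*} [AddCommGroup G] [Fintype G]

/-- admissible sets -/
structure Adm (B : Finset G) (Q : AddSubgroup G) (X : Finset G) : Prop where
  sub : X ⊆ F Q
  two : 2 ≤ X.card
  room : (X + B).card + 2 ≤ (F Q).card

lemma card_le_add {X B : Finset G} (hB : B.Nonempty) : X.card ≤ (X + B).card := by
  obtain ⟨b, hb⟩ := hB
  calc X.card = (X + {b}).card := by rw [add_comm, card_single_add]
    _ ≤ _ := Finset.card_le_card (Finset.add_subset_add_left (Finset.singleton_subset_iff.2 hb))

/-- a minimal admissible set -/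
lemma exists_min {B : Finset G} {Q : AddSubgroup G} {X : Finset G} (hX : Adm B Q X) :
    ∃ M, Adm B Q M ∧ (M + B).card + X.card ≤ (X + B).card + M.card ∧
      ∀ Y, Adm B Q Y → (M + B).card + Y.card ≤ (Y + B).card + M.card ∧
        ((Y + B).card + M.card ≤ (M + B).card + Y.card → M.card ≤ Y.card) := by
  set N := Fintype.card G + 1 with hN
  obtain ⟨M, hM, hmin⟩ := Finset.exists_min_image (univ.filter (fun X => Adm B Q X))
    (fun X => ((X + B).card + (N - X.card)) * N + X.card) ⟨X, by simp [hX]⟩
  simp only [Finset.mem_filter, Finset.mem_univ, true_and] at hM hmin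
  have hle : ∀ Y : Finset G, Y.card ≤ N - 1 := by
    intro Y
    have : Y.card ≤ Fintype.card G := Finset.card_le_univ Y
    omega
  have hN1 : 1 ≤ N := by omega
  have key : ∀ Y, Adm B Q Y → (M + B).card + Y.card ≤ (Y + B).card + M.card ∧
        ((Y + B).card + M.card ≤ (M + B).card + Y.card → M.card ≤ Y.card) := by
    intro Y hY
    have h1 := hmin Y hY
    have h2 := hle Y
    have h3 := hle M
    constructor
    · by_contra hc
      push Not at hc
      have h4 : (Y + B).card + (N - Y.card) + 1 ≤ (M + B).card + (N - M.card) := by omega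
      have h5 := Nat.mul_le_mul_right N h4
      have h6 : ((Y + B).card + (N - Y.card) + 1) * N = ((Y + B).card + (N - Y.card)) * N + N := by ring
      omega
    · intro hc
      have h4 : (Y + B).card + (N - Y.card) ≤ (M + B).card + (N - M.card) := by omega
      have h5 := Nat.mul_le_mul_right N h4
      omega
  exact ⟨M, hM, (key X hX).1, key⟩

/-- a 2-atom: a coset of a nonzero subgroup, or a set with small intersections -/
lemma exists_atom' {B : Finset G} {Q : AddSubgroup G} (hB : B.Nonempty) (hBQ : B ⊆ F Q)
    {X : Finset G} (hX : Adm B Q X) :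
    ∃ M, Adm B Q M ∧ (M + B).card + X.card ≤ (X + B).card + M.card ∧
      (Sidon M ∨ ∃ (H : AddSubgroup G) (x : G), H ≠ ⊥ ∧ M = coset H x) := by
  obtain ⟨M, hM, hMX, hmin⟩ := exists_min hX
  refine ⟨M, hM, hMX, ?_⟩
  have hMne : M.Nonempty := Finset.card_pos.1 (by have := hM.two; omega)
  have hMBsub : M + B ⊆ F Q := by
    intro x hx
    obtain ⟨a, ha, b, hb, rfl⟩ := Finset.mem_add.1 hx
    rw [mem_F]
    exact Q.add_mem (mem_F.1 (hM.sub ha)) (mem_F.1 (hBQ hb))
  have hgle := card_le_add (X := M) hB
  -- dual set
  have hdual : 2 * M.card + ((M + B).card - M.card) ≤ (F Q).card := by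
    set Ms := (F Q \ (M + B)).image (fun x => -x) with hMs
    have hMsc : Ms.card + (M + B).card = (F Q).card := by
      rw [hMs, Finset.card_image_of_injective _ neg_injective]
      exact Finset.card_sdiff_add_card_eq_card hMBsub
    have hMsB : Ms + B ⊆ F Q \ (M.image (fun x => -x)) := by
      intro x hx
      obtain ⟨a, ha, b, hb, rfl⟩ := Finset.mem_add.1 hx
      obtain ⟨y, hy, rfl⟩ := Finset.mem_image.1 ha
      rw [Finset.mem_sdiff] at hy ⊢
      constructor
      · rw [mem_F]
        exact Q.add_mem (Q.neg_mem (mem_F.1 hy.1)) (mem_F.1 (hBQ hb))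
      · intro h
        obtain ⟨m, hm, hme⟩ := Finset.mem_image.1 h
        apply hy.2
        have : y = m + b := by
          have h2 : -y + b = -m := hme.symm
          have h3 : y = b + m := by
            have : y = b - (-y + b) := by abel
            rw [this, h2]; abel
          rw [h3]; abel
        rw [this]
        exact Finset.add_mem_add hm hb
    have hMsBc : (Ms + B).card + M.card ≤ (F Q).card := by
      have h1 := Finset.card_le_card hMsB
      have h2 : M.image (fun x => -x) ⊆ F Q := by
        intro x hx
        obtain ⟨y, hy, rfl⟩ := Finset.mem_image.1 hx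
        rw [mem_F]; exact Q.neg_mem (mem_F.1 (hM.sub hy))
      have h3 := Finset.card_sdiff_add_card_eq_card h2
      rw [Finset.card_image_of_injective _ neg_injective] at h3
      omega
    have hr := hM.room
    have ht := hM.two
    have hMsadm : Adm B Q Ms := by
      refine ⟨?_, by omega, by omega⟩
      intro x hx
      obtain ⟨y, hy, rfl⟩ := Finset.mem_image.1 hx
      rw [mem_F]; exact Q.neg_mem (mem_F.1 (Finset.mem_sdiff.1 hy).1)
    have h4 := hmin Ms hMsadm
    have h5 := h4.2 (by omega)
    omega
  have hstabor : ∀ g : G, g ∉ stab M → (M ∩ ({g} + M)).card ≤ 1 := by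
    intro g hg
    by_contra hcon
    push Not at hcon
    have hcard2 : 2 ≤ (M ∩ ({g} + M)).card := hcon
    have hgQ : g ∈ Q := by
      have : (M ∩ ({g} + M)).Nonempty := Finset.card_pos.1 (by omega)
      obtain ⟨x, hx⟩ := this
      rw [Finset.mem_inter, mem_single_add] at hx
      have h1 := mem_F.1 (hM.sub hx.1)
      have h2 := mem_F.1 (hM.sub hx.2)
      have := Q.sub_mem h1 h2
      simpa using this
    have hM1lt : (M ∩ ({g} + M)).card < M.card := by
      apply Finset.card_lt_card
      refine ⟨Finset.inter_subset_left, fun h => hg ?_⟩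
      have hsub : M ⊆ {g} + M := fun x hx => (Finset.mem_inter.1 (h hx)).2
      have heq : M = {g} + M := Finset.eq_of_subset_of_card_le hsub (by rw [card_single_add])
      apply mem_stab_of_forall
      intro x hx
      rw [heq, mem_single_add]
      simpa using hx
    have hsub1 : (M ∩ ({g} + M)) + B ⊆ M + B := Finset.add_subset_add_right Finset.inter_subset_left
    have hsub1c := Finset.card_le_card hsub1
    have hr := hM.room
    have hI : Adm B Q (M ∩ ({g} + M)) := ⟨Finset.inter_subset_left.trans hM.sub, hcard2, by omega⟩
    have h6 := hmin _ hI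
    have h7 : (M + B).card + (M ∩ ({g} + M)).card + 1 ≤ ((M ∩ ({g} + M)) + B).card + M.card := by
      by_contra hc
      have := h6.2 (by omega)
      omega
    have hsm := submod M ({g} + M) B
    have htr : (({g} + M) + B).card = (M + B).card := by
      rw [add_assoc, card_single_add]
    have hcu := Finset.card_union_add_card_inter M ({g} + M)
    rw [card_single_add] at hcu
    have hM2sub : M ∪ ({g} + M) ⊆ F Q := by
      apply Finset.union_subset hM.sub
      intro x hx
      rw [mem_single_add] at hx
      have h1 := mem_F.1 (hM.sub hx)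
      rw [mem_F]
      have := Q.add_mem h1 hgQ
      simpa using this
    by_cases hroom : ((M ∪ ({g} + M)) + B).card + 2 ≤ (F Q).card
    · have hU : Adm B Q (M ∪ ({g} + M)) := by
        refine ⟨hM2sub, ?_, hroom⟩
        have := Finset.card_le_card (Finset.subset_union_left (s₁ := M) (s₂ := {g} + M))
        have := hM.two
        omega
      have := (hmin _ hU).1
      omega
    · omega
  by_cases hst : stab M = ⊥
  · left
    apply sidon_of
    intro g hg
    apply hstabor
    rw [hst]
    simpa using hg
  · right
    obtain ⟨m₀, hm₀⟩ := hMne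
    refine ⟨stab M, m₀, hst, ?_⟩
    apply Finset.Subset.antisymm
    · intro x hx
      rw [mem_coset]
      by_contra hn
      have h1 := hstabor _ hn
      obtain ⟨h, hh, h0⟩ := exists_ne_zero_of_ne_bot hst
      have hx1 : x ∈ M ∩ ({x - m₀} + M) := by
        rw [Finset.mem_inter, mem_single_add]
        exact ⟨hx, by simpa using hm₀⟩
      have hx2 : h + x ∈ M ∩ ({x - m₀} + M) := by
        rw [Finset.mem_inter, mem_single_add]
        refine ⟨(mem_stab.1 hh x).2 hx, ?_⟩
        have e : h + x - (x - m₀) = h + m₀ := by abel
        rw [e]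
        exact (mem_stab.1 hh m₀).2 hm₀
      have h2 := Finset.card_le_one.1 h1 _ hx1 _ hx2
      apply h0
      have : x = h + x := h2
      simpa using this
    · intro x hx
      rw [mem_coset] at hx
      have := (mem_stab.1 hx m₀).2 hm₀
      simpa using this

lemma sidon_four {M N : Finset G} (hM : Sidon M) (hN : 4 ≤ N.card) :
    4 * M.card ≤ (N + M).card + 6 := by
  obtain ⟨N', hN', hc⟩ := Finset.exists_subset_card_eq hN
  obtain ⟨a, b, c, d, hab, hac, had, hbc, hbd, hcd, hNe⟩ := Finset.card_eq_four.1 hc
  have ha : a ∈ N := hN' (by rw [hNe]; simp)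
  have hb : b ∈ N := hN' (by rw [hNe]; simp)
  have hcc : c ∈ N := hN' (by rw [hNe]; simp)
  have hd : d ∈ N := hN' (by rw [hNe]; simp)
  have h1 := hM a b hab
  have h2 := Finset.card_union_add_card_inter ({a} + M) ({b} + M)
  rw [card_single_add, card_single_add] at h2
  have h5 := Finset.card_union_add_card_inter (({a} + M) ∪ ({b} + M)) ({c} + M)
  rw [card_single_add] at h5
  have h6 : ((({a} + M) ∪ ({b} + M)) ∩ ({c} + M)).card ≤ 2 := by
    rw [Finset.union_inter_distrib_right]
    refine (Finset.card_union_le _ _).trans ?_
    have := hM a c hac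
    have := hM b c hbc
    omega
  have h7 := Finset.card_union_add_card_inter ((({a} + M) ∪ ({b} + M)) ∪ ({c} + M)) ({d} + M)
  rw [card_single_add] at h7
  have h8 : (((({a} + M) ∪ ({b} + M)) ∪ ({c} + M)) ∩ ({d} + M)).card ≤ 3 := by
    rw [Finset.union_inter_distrib_right, Finset.union_inter_distrib_right]
    have i1 := Finset.card_union_le ((({a} + M) ∩ ({d} + M)) ∪ (({b} + M) ∩ ({d} + M))) (({c} + M) ∩ ({d} + M))
    have i2 := Finset.card_union_le (({a} + M) ∩ ({d} + M)) (({b} + M) ∩ ({d} + M))
    have := hM a d had
    have := hM b d hbd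
    have := hM c d hcd
    omega
  have h3 : ((({a} + M) ∪ ({b} + M)) ∪ ({c} + M)) ∪ ({d} + M) ⊆ N + M := by
    apply Finset.union_subset (Finset.union_subset (Finset.union_subset _ _) _)
    · exact Finset.add_subset_add_right (Finset.singleton_subset_iff.2 hd)
    · exact Finset.add_subset_add_right (Finset.singleton_subset_iff.2 ha)
    · exact Finset.add_subset_add_right (Finset.singleton_subset_iff.2 hb)
    · exact Finset.add_subset_add_right (Finset.singleton_subset_iff.2 hcc)
  have h4 := Finset.card_le_card h3
  omega


/-- counting in the classes modulo `Q` -/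
lemma class_count' {m : ℕ} {B A : Finset G} {Q : AddSubgroup G} (hA0 : 0 ∈ A) (hAQ : A ⊆ F Q)
    (hA4 : m + 4 ≤ A.card) (hs : Sidon A)
    (hgen : ∀ K : AddSubgroup G, (∀ x ∈ A, x ∈ K) → Q ≤ K)
    (hle : (A + B).card ≤ A.card + B.card + m)
    (hno : ∀ Y, Adm A Q Y → A.card + Y.card + m < (Y + A).card) :
    (sat B Q).card ≤ B.card + (F Q).card + m := by
  set q := (F Q).card with hq
  set T := B.image (QuotientAddGroup.mk' Q) with hT
  have hB : B.card = ∑ c ∈ T, (cls B Q c).card :=
    Finset.card_eq_sum_card_fiberwise (fun x hx => Finset.mem_image_of_mem _ hx)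
  have hMB : (A + B).card = ∑ c ∈ T, (A + cls B Q c).card := by
    rw [Finset.card_eq_sum_card_fiberwise (f := QuotientAddGroup.mk' Q) (t := T)]
    · apply Finset.sum_congr rfl
      intro c hc
      congr 1
      ext x
      simp only [Finset.mem_filter, Finset.mem_add, cls]
      constructor
      · rintro ⟨⟨m, hm, b, hb, rfl⟩, hx⟩
        refine ⟨m, hm, b, ⟨hb, ?_⟩, rfl⟩
        rw [← hx, mk_eq_iff]
        have e : b - (m + b) = -m := by abel
        rw [e]
        exact Q.neg_mem (mem_F.1 (hAQ hm))
      · rintro ⟨m, hm, b, ⟨hb, hx⟩, rfl⟩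
        refine ⟨⟨m, hm, b, hb, rfl⟩, ?_⟩
        rw [← hx, mk_eq_iff]
        have e : m + b - b = m := by abel
        rw [e]
        exact mem_F.1 (hAQ hm)
    · intro x hx
      obtain ⟨m, hm, b, hb, rfl⟩ := Finset.mem_add.1 hx
      rw [hT]
      simp only [Finset.coe_image, Set.mem_image, Finset.mem_coe]
      refine ⟨b, hb, ?_⟩
      rw [mk_eq_iff]
      have e : b - (m + b) = -m := by abel
      rw [e]
      exact Q.neg_mem (mem_F.1 (hAQ hm))
  have hS : (sat B Q).card = ∑ c ∈ T, q := by
    rw [Finset.card_eq_sum_card_fiberwise (f := QuotientAddGroup.mk' Q) (t := T)]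
    · apply Finset.sum_congr rfl
      intro c hc
      obtain ⟨b, hb, rfl⟩ := Finset.mem_image.1 hc
      rw [hq, ← card_coset Q b]
      congr 1
      ext x
      simp only [Finset.mem_filter, mem_coset, mk_eq_iff]
      constructor
      · exact fun h => h.2
      · exact fun h => ⟨mem_sat.2 ⟨b, hb, h⟩, h⟩
    · intro x hx
      obtain ⟨b, hb, hxb⟩ := mem_sat.1 hx
      rw [hT]
      simp only [Finset.coe_image, Set.mem_image, Finset.mem_coe]
      refine ⟨b, hb, ?_⟩
      rw [mk_eq_iff]
      have := Q.neg_mem hxb
      simpa using this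
  have hge : ∀ c ∈ T, (cls B Q c).card ≤ (A + cls B Q c).card := by
    intro c hc
    apply Finset.card_le_card
    intro x hx
    have := Finset.add_mem_add hA0 hx
    simpa using this
  have hdsum : ∑ c ∈ T, ((A + cls B Q c).card - (cls B Q c).card) + B.card = (A + B).card := by
    rw [hB, hMB, ← Finset.sum_add_distrib]
    apply Finset.sum_congr rfl
    intro c hc
    have := hge c hc
    omega
  have hAq : A.card ≤ q := Finset.card_le_card hAQ
  have hq1 : A.card + 1 ≤ q := by
    have h1 := hs.two (by omega : 2 ≤ A.card)
    have h2 : A + A ⊆ F Q := by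
      intro x hx
      obtain ⟨a, ha, b, hb, rfl⟩ := Finset.mem_add.1 hx
      rw [mem_F]
      exact Q.add_mem (mem_F.1 (hAQ ha)) (mem_F.1 (hAQ hb))
    have h3 := Finset.card_le_card h2
    omega
  have hclq : ∀ c ∈ T, (cls B Q c).card ≤ q := by
    intro c hc
    obtain ⟨b, hb, rfl⟩ := Finset.mem_image.1 hc
    rw [hq, ← card_coset Q b]
    apply Finset.card_le_card
    intro x hx
    simp only [cls, Finset.mem_filter] at hx
    rw [mem_coset]
    exact mk_eq_iff.1 hx.2
  -- the types
  have htype : ∀ c ∈ T, q ≤ (A + cls B Q c).card ∨
      (A.card ≤ (A + cls B Q c).card - (cls B Q c).card + 1 ∧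
        A.card ≤ (A + cls B Q c).card) := by
    intro c hc
    obtain ⟨b, hb, rfl⟩ := Finset.mem_image.1 hc
    have hg := hge _ hc
    set Bc := cls B Q (QuotientAddGroup.mk' Q b) with hBc
    have hbBc : b ∈ Bc := Finset.mem_filter.2 ⟨hb, rfl⟩
    have hBcsub : Bc ⊆ coset Q b := by
      intro x hx
      simp only [hBc, cls, Finset.mem_filter] at hx
      rw [mem_coset]
      exact mk_eq_iff.1 hx.2
    have hpos : 1 ≤ Bc.card := Finset.card_pos.2 ⟨b, hbBc⟩
    have hMBcsub : A + Bc ⊆ coset Q b := by
      intro x hx
      obtain ⟨m, hm, y, hy, rfl⟩ := Finset.mem_add.1 hx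
      rw [mem_coset]
      have h1 := mem_coset.1 (hBcsub hy)
      have e : m + y - b = m + (y - b) := by abel
      rw [e]
      exact Q.add_mem (mem_F.1 (hAQ hm)) h1
    have hAle : A.card ≤ (A + Bc).card := by
      calc A.card = (A + {b}).card := by rw [add_comm, card_single_add]
        _ ≤ _ := Finset.card_le_card (Finset.add_subset_add_left (Finset.singleton_subset_iff.2 hbBc))
    by_cases h1 : Bc.card = 1
    · right
      refine ⟨by omega, hAle⟩
    · by_cases hroom : (A + Bc).card + 2 ≤ q
      · right
        have hY : Adm A Q ({-b} + Bc) := by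
          refine ⟨?_, ?_, ?_⟩
          · intro x hx
            rw [mem_single_add] at hx
            have := mem_coset.1 (hBcsub hx)
            rw [mem_F]
            have e : x - -b - b = x := by abel
            rwa [e] at this
          · rw [card_single_add]; omega
          · rw [add_assoc, card_single_add, add_comm Bc A]; exact hroom
        have h2 := hno _ hY
        rw [card_single_add, add_assoc ({-b} : Finset G) Bc A, card_single_add, add_comm Bc A] at h2
        refine ⟨by omega, hAle⟩
      · by_cases hfull : q ≤ (A + Bc).card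
        · left; exact hfull
        · right
          refine ⟨?_, hAle⟩
          -- some `x` of the coset is missing in `A + Bc`
          obtain ⟨x, hx, hxn⟩ : ∃ x ∈ coset Q b, x ∉ A + Bc := by
            by_contra hcon
            push Not at hcon
            have h4 : coset Q b ⊆ A + Bc := fun x hx => hcon x hx
            have h5 := Finset.card_le_card h4
            rw [card_coset] at h5
            omega
          have hdis : Disjoint (A.image fun a => x - a) Bc := by
            rw [Finset.disjoint_left]
            intro y hy hyB
            obtain ⟨a, ha, rfl⟩ := Finset.mem_image.1 hy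
            apply hxn
            have := Finset.add_mem_add ha hyB
            simpa using this
          have hsub : (A.image fun a => x - a) ∪ Bc ⊆ coset Q b := by
            apply Finset.union_subset _ hBcsub
            intro y hy
            obtain ⟨a, ha, rfl⟩ := Finset.mem_image.1 hy
            rw [mem_coset] at hx ⊢
            have e : x - a - b = (x - b) - a := by abel
            rw [e]
            exact Q.sub_mem hx (mem_F.1 (hAQ ha))
          have h6 := Finset.card_le_card hsub
          rw [Finset.card_union_of_disjoint hdis, card_coset,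
            Finset.card_image_of_injective _ (fun a b h => by simpa using h)] at h6
          omega
  have hsum : ∑ c ∈ T, ((A + cls B Q c).card - (cls B Q c).card) ≤ A.card + m := by omega
  have hgoal : ∑ c ∈ T, (q - (cls B Q c).card) ≤ q + m := by
    by_cases hex : ∃ c ∈ T, ¬ q ≤ (A + cls B Q c).card
    · obtain ⟨c0, hc0, hc0n⟩ := hex
      have h1 := (htype c0 hc0).resolve_left hc0n
      have hoth : ∀ c ∈ T.erase c0, q - (cls B Q c).card ≤ (A + cls B Q c).card - (cls B Q c).card := by
        intro c hc
        rw [Finset.mem_erase] at hc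
        have hc2 : q ≤ (A + cls B Q c).card := by
          by_contra hcn
          have h2 := (htype c hc.2).resolve_left hcn
          have h3 : ((A + cls B Q c0).card - (cls B Q c0).card) + ((A + cls B Q c).card - (cls B Q c).card) ≤
              ∑ c ∈ T, ((A + cls B Q c).card - (cls B Q c).card) := by
            have h4 : ({c0, c} : Finset (G ⧸ Q)) ⊆ T := by
              intro z hz
              rw [Finset.mem_insert, Finset.mem_singleton] at hz
              rcases hz with h | h
              · rw [h]; exact hc0
              · rw [h]; exact hc.2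
            have h5 := Finset.sum_le_sum_of_subset (f := fun c => (A + cls B Q c).card - (cls B Q c).card) h4
            rw [Finset.sum_pair (Ne.symm hc.1)] at h5
            exact h5
          omega
        omega
      have h2 := Finset.sum_le_sum hoth
      have h3 := Finset.add_sum_erase T (fun c => (A + cls B Q c).card - (cls B Q c).card) hc0
      have h4 := Finset.add_sum_erase T (fun c => q - (cls B Q c).card) hc0
      have h5 := hclq c0 hc0
      have h6 := hge c0 hc0
      obtain ⟨h7, h8⟩ := h1
      have h9 : (A + cls B Q c0).card ≤ q - 1 := by omega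
      omega
    · push Not at hex
      have hoth : ∀ c ∈ T, q - (cls B Q c).card ≤ (A + cls B Q c).card - (cls B Q c).card := by
        intro c hc
        have := hex c hc
        omega
      have h2 := Finset.sum_le_sum hoth
      omega
  have hfin : ∑ c ∈ T, q = ∑ c ∈ T, (q - (cls B Q c).card) + B.card := by
    rw [hB, ← Finset.sum_add_distrib]
    apply Finset.sum_congr rfl
    intro c hc
    have := hclq c hc
    omega
  rw [hS, hfin]
  omega


/-- a Sidon set with `m + 4` or more elements has no admissible set of excess `≤ m` inside the group that it generates -/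
lemma no_big_sidon {m : ℕ} {A : Finset G} {Q : AddSubgroup G} (hA0 : 0 ∈ A) (hAQ : A ⊆ F Q)
    (hA4 : m + 4 ≤ A.card) (hs : Sidon A)
    (hgen : ∀ K : AddSubgroup G, (∀ x ∈ A, x ∈ K) → Q ≤ K) {Y : Finset G} (hY : Adm A Q Y)
    (hYle : (Y + A).card ≤ A.card + Y.card + m) : False := by
  obtain ⟨N, hN, hNY, hNor⟩ := exists_atom' ⟨0, hA0⟩ hAQ hY
  have hNle : (N + A).card ≤ A.card + N.card + m := by omega
  rcases hNor with hNs | ⟨H, x, hH, rfl⟩
  · have h1 := hs.two hN.two
    have h2 := hN.two
    by_cases h3 : N.card = 2
    · omega
    · have h4 := hs.three (by omega : 3 ≤ N.card)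
      have h5 := hNs.three (by omega : 3 ≤ A.card)
      rw [add_comm A N] at h5
      omega
  · have hcard : (coset H x).card = (F H).card := card_coset H x
    have h2 := hN.two
    have h1 := hs.two hN.two
    by_cases h3 : 3 ≤ (coset H x).card
    · have h4 := hs.three h3
      by_cases h5 : 4 ≤ (coset H x).card
      · have h6 := sidon_four hs h5
        -- `A` is not contained in `H`
        have hAH : ∃ a ∈ A, a ∉ H := by
          by_contra hcon
          push Not at hcon
          have h7 := hgen H hcon
          have h8 := hN.room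
          have h9 : coset H x ⊆ coset H x + A := by
            intro y hy
            have := Finset.add_mem_add hy hA0
            simpa using this
          have h10 := Finset.card_le_card h9
          have h11 := card_F_mono h7
          omega
        obtain ⟨a, ha, haH⟩ := hAH
        have h7 : coset H x ∪ ({a} + coset H x) ⊆ coset H x + A := by
          apply Finset.union_subset
          · intro y hy
            have := Finset.add_mem_add hy hA0
            simpa using this
          · intro y hy
            rw [mem_single_add] at hy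
            have := Finset.add_mem_add hy ha
            simpa using this
        have h8 : Disjoint (coset H x) ({a} + coset H x) := by
          rw [Finset.disjoint_left]
          intro y hy hy2
          rw [mem_single_add, mem_coset] at hy2
          rw [mem_coset] at hy
          apply haH
          have := H.sub_mem hy hy2
          have e : y - x - (y - a - x) = a := by abel
          rwa [e] at this
        have h9 := Finset.card_le_card h7
        rw [Finset.card_union_of_disjoint h8, card_single_add] at h9
        omega
      · omega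
    · omega

/-- **2-atoms**.  `|X + D| ≤ |X| + |D| + m` -/
theorem two_atom (m : ℕ) {D X : Finset G} (hD : 2 ≤ D.card) (hX : 2 ≤ X.card)
    (hroom : (X + D).card + 2 ≤ Fintype.card G) (hle : (X + D).card ≤ X.card + D.card + m) :
    (∃ K : AddSubgroup G, K ≠ ⊥ ∧ K ≠ ⊤ ∧ (sat D K).card ≤ D.card + (F K).card + m) ∨
    (∃ A : Finset G, 0 ∈ A ∧ Sidon A ∧ 2 ≤ A.card ∧ A.card ≤ m + 3 ∧
      (A + D).card ≤ A.card + D.card + m ∧ (A + D).card + 2 ≤ Fintype.card G) := by
  have hFtop : F (⊤ : AddSubgroup G) = univ := by ext x; simp
  have hFc : (F (⊤ : AddSubgroup G)).card = Fintype.card G := by rw [hFtop]; exact Finset.card_univ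
  have hDne : D.Nonempty := Finset.card_pos.1 (by omega)
  have hXadm : Adm D ⊤ X := ⟨by rw [hFtop]; exact Finset.subset_univ _, hX, by rw [hFc]; exact hroom⟩
  obtain ⟨M, hM, hMX, hMor⟩ := exists_atom' hDne (by rw [hFtop]; exact Finset.subset_univ _) hXadm
  have hMle : (M + D).card ≤ M.card + D.card + m := by omega
  have hMroom := hM.room
  rw [hFc] at hMroom
  rcases hMor with hMs | ⟨H, x, hH, rfl⟩
  · -- Sidon
    obtain ⟨m₀, hm₀⟩ : M.Nonempty := Finset.card_pos.1 (by have := hM.two; omega)
    set A := ({-m₀} + M : Finset G) with hA
    have hAs : Sidon A := sidon_translate hMs _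
    have hA0 : (0 : G) ∈ A := by rw [hA, mem_single_add]; simpa using hm₀
    have hAcard : A.card = M.card := card_single_add _ _
    have hADcard : (A + D).card = (M + D).card := by rw [hA, add_assoc, card_single_add]
    have htwo := hM.two
    by_cases h3 : A.card ≤ m + 3
    · right
      exact ⟨A, hA0, hAs, by omega, h3, by omega, by omega⟩
    · left
      set Q := AddSubgroup.closure (A : Set G) with hQ
      have hAQ : A ⊆ F Q := by
        intro x hx
        rw [mem_F]
        exact AddSubgroup.subset_closure hx
      have hgen : ∀ K : AddSubgroup G, (∀ x ∈ A, x ∈ K) → Q ≤ K := by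
        intro K hK
        rw [hQ, AddSubgroup.closure_le]
        intro x hx
        exact hK x hx
      have hno : ∀ Y, Adm A Q Y → A.card + Y.card + m < (Y + A).card := by
        intro Y hY
        by_contra hc
        push Not at hc
        exact no_big_sidon hA0 hAQ (by omega) hAs hgen hY hc
      refine ⟨Q, ?_, ?_, class_count' hA0 hAQ (by omega) hAs hgen (by omega) hno⟩
      · intro hbot
        have h1 := Finset.card_le_card hAQ
        rw [hbot, F_bot_card] at h1
        omega
      · intro htop
        have hYD : Adm A Q D := by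
          refine ⟨?_, hD, ?_⟩
          · rw [htop, hFtop]; exact Finset.subset_univ _
          · rw [htop, hFc, add_comm D A]; omega
        have := hno _ hYD
        rw [add_comm D A] at this
        omega
  · left
    refine ⟨H, hH, ?_, ?_⟩
    · intro htop
      rw [htop] at hMroom
      have h1 : (coset (⊤ : AddSubgroup G) x) = univ := by ext y; simp [mem_coset]
      have h2 : (univ : Finset G).card ≤ (coset (⊤ : AddSubgroup G) x + D).card := by
        rw [h1]
        exact card_le_add hDne
      rw [Finset.card_univ] at h2
      omega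
    · have h1 : coset H x + D = {x} + sat D H := by
        ext y
        rw [mem_single_add, mem_sat, Finset.mem_add]
        constructor
        · rintro ⟨u, hu, d, hd, rfl⟩
          refine ⟨d, hd, ?_⟩
          rw [mem_coset] at hu
          have e : u + d - x - d = u - x := by abel
          rw [e]; exact hu
        · rintro ⟨d, hd, h⟩
          refine ⟨y - d, ?_, d, hd, by abel⟩
          rw [mem_coset]
          have e : y - d - x = y - x - d := by abel
          rw [e]; exact h
      rw [h1, card_single_add, card_coset] at hMle
      omega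

end Pool.Agent.KAT
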