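import Mathlib
import Pool.Agent.SSE.St
import Pool.Agent.KAT.Tool

/-!
# KAT: growth of symmetric sets in noncyclic groups with two generators (MP_ec93d3_co)

Architect helper86.  Definitions: `lam` (Helper64.Rho), `it`, `st`, `Aper`, `gen` (Pool.Agent.SDG.St), `AS`, `sym`, `NearP`, `ins` (Pool.Agent.MDR.St), `AE`, `NF`,
`APK`, `im` (Pool.Agent.SSE.St).  `im D K` = image of `D` in `G / K` (a finset of `G ⧸ K`), `st D K = D + K`, `lam D d` = number of `x ∈ D` with `x + d ∉ D`,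
`it D i = D + ... + D` (`i` times).  A ROW is the part of `D` in one coset `γ : G ⧸ K`.

Aim: `St_GRO`.  Notation in the docstrings: `n = |G|`, `k = |K|`, `w γ = |rq D K γ|` (size of the row), `D̄ = im D K`, `i D = it D i`.
Every `St_X` is a statement; its proof is in the docstring.  A module proves `thm_X : St_A → St_B → ... → St_X` with exactly the hypotheses listed in the
docstring (if none are listed there are none; landed theorems such as `Pool.Agent.SSE.thm_GS`, `Pool.Agent.SDG.thm_Kn` may be imported and used directly).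
DO NOT use the tactic `convert`; for two decidability instances use `Subsingleton.elim`.
-/

set_option autoImplicit false

noncomputable section

open Finset Pool.Agent.Helper64.Rho Pool.Agent.SDG Pool.Agent.MDR Pool.Agent.SSE
open scoped Classical Pointwise

namespace Pool.Agent.KAT

/-- the row `γ` of `D` -/
def rq {G : Type} [AddCommGroup G] (D : Finset G) (K : AddSubgroup G) (γ : G ⧸ K) : Finset G :=
  D.filter fun x => (QuotientAddGroup.mk x : G ⧸ K) = γ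

/-- the tops of the row: the elements `x` with `x + d ∉ D` -/
def tq {G : Type} [AddCommGroup G] (D : Finset G) (K : AddSubgroup G) (d : G) (γ : G ⧸ K) : Finset G :=
  (rq D K γ).filter fun x => x + d ∉ D

/-- symmetric, contains `0`, no element of order 2 -/
def SY {G : Type} [AddCommGroup G] (D : Finset G) : Prop :=
  (0 : G) ∈ D ∧ (∀ y ∈ D, -y ∈ D) ∧ (∀ y ∈ D, y + y = 0 → y = 0)

/-- dense cosets exist only for subgroups of order at most `κ` -/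
def DCs {G : Type} [AddCommGroup G] (κ : ℕ) (D : Finset G) : Prop :=
  ∀ (K : AddSubgroup G) (γ : G ⧸ K), K ≠ ⊥ → γ + γ ≠ 0 → 2 * Nat.card K + 1 ≤ 2 * (rq D K γ).card + (rq D K 0).card →
    Nat.card K ≤ κ

/-- a family has dense cosets only for subgroups of order at most 4 -/
def DCf {G ι : Type} [AddCommGroup G] (u : Finset ι) (f : ι → G) : Prop :=
  ∀ (K : AddSubgroup G) (c : G), K ≠ ⊥ → c + c ∉ K →
    Nat.card K ≤ (u.filter fun i => f i - c ∈ K ∨ f i + c ∈ K).card + (ins u f K).card → Nat.card K ≤ 4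

/-- rank at most two -/
def R2 (G : Type) [AddCommGroup G] : Prop := ∀ p : ℕ, p.Prime → Nat.card {x : G // p • x = 0} ≤ p ^ 2

/-- hypotheses of the core; `κ = 1` is used for the quotient by a group of order 3 -/
structure Hyp {G : Type} [AddCommGroup G] [Finite G] (κ l : ℕ) (D : Finset G) : Prop where
  nc : ¬ IsAddCyclic G
  e4 : ∀ K : AddSubgroup G, (∀ x : G, x + x ∈ K) → K.index ≤ 4
  sy : SY D
  cl : AddSubgroup.closure (D : Set G) = ⊤
  cd : D.card = 2 * l + 1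
  nG : 4 * l + 1 ≤ Nat.card G
  nf : ¬ NearP D
  dc : DCs κ D
  kl : (κ = 4 ∧ 5 ≤ l) ∨ (κ = 1 ∧ 2 ≤ l ∧ 4 * l + 2 ≤ Nat.card G)

/-- no subgroup fills `D` nearly or almost nearly -/
def NK1 {G : Type} [AddCommGroup G] [Finite G] (D : Finset G) : Prop :=
  ∀ K : AddSubgroup G, K ≠ ⊥ → K ≠ ⊤ → D.card + Nat.card K + 1 ≤ (st D K).card

/-- the growth -/
def Gro {G : Type} [AddCommGroup G] [Finite G] (κ l : ℕ) (D : Finset G) : Prop :=
  ∀ i, 1 ≤ i → Nat.card G ≤ (it D i).card + κ ∨ i * (2 * l + 2) ≤ (it D i).card + 1 ∨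
    (i * (2 * l + 2) ≤ (it D i).card + 2 ∧ (i = 2 ∨ κ = 1))

/-- the growth from the third step on -/
def Gr3 {G : Type} [AddCommGroup G] [Finite G] (κ l : ℕ) (D : Finset G) : Prop :=
  ∀ i, 3 ≤ i → Nat.card G ≤ (it D i).card + κ ∨ i * (2 * l + 2) ≤ (it D i).card + 1 ∨
    (i * (2 * l + 2) ≤ (it D i).card + 2 ∧ κ = 1)

/-- `K = ⟨d⟩`: exactly two rows of `D` are incomplete, each of them is one string of step `d` -/
def Two {G : Type} [AddCommGroup G] [Finite G] (D : Finset G) (d : G) (γ1 γ2 : G ⧸ AddSubgroup.zmultiples d) : Prop :=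
  d ≠ 0 ∧ γ1 ≠ γ2 ∧ 1 ≤ (rq D (AddSubgroup.zmultiples d) γ1).card ∧ 1 ≤ (rq D (AddSubgroup.zmultiples d) γ2).card ∧
  (tq D (AddSubgroup.zmultiples d) d γ1).card = 1 ∧ (tq D (AddSubgroup.zmultiples d) d γ2).card = 1 ∧
  (∀ γ ∈ im D (AddSubgroup.zmultiples d), γ ≠ γ1 → γ ≠ γ2 →
    (rq D (AddSubgroup.zmultiples d) γ).card = Nat.card (AddSubgroup.zmultiples d)) ∧
  (rq D (AddSubgroup.zmultiples d) γ1).card + (rq D (AddSubgroup.zmultiples d) γ2).card + 1 ≤ Nat.card (AddSubgroup.zmultiples d)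

/-- a three-element 2-atom `{0, a, b}` -/
def Tri {G : Type} [AddCommGroup G] (D : Finset G) (a b : G) : Prop :=
  lam D a = 3 ∧ (∀ x ∈ D, x + b ∈ D ∨ x + b - a ∈ D) ∧ (∀ x : G, x ≠ 0 → 3 ≤ lam D x) ∧ a ≠ 0 ∧ b ≠ 0 ∧ a ≠ b

/-! ## Rows, strings -/

/-- **Rw** (1.5 h, no hypotheses).  Rows.  Proofs.  (1) as `Gn_card_st` in Pool/Agent/SSE/Gn.lean.  (2) `card_eq_sum_card_fiberwise`.  (3) a row is contained in a
coset, which has `|K|` elements.  (4) fiberwise, as (2), for the filtered set `{x ∈ D | x + d ∉ D}`.  (5), (8) clear from the definitions and (3).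
(6) `x ↦ -x` maps the row `γ` onto the row `-γ`.  (7) let `R = rq D K γ`, `d ∈ K`: for `x ∈ R` one has `x + d ∈ D ↔ x + d ∈ R`, so `|tq γ| = |R| - |{x ∈ R | x + d ∈ R}|`; the
map `x ↦ -(x + d)` is a bijection of `{x ∈ R | x + d ∈ R}` onto `{y ∈ -R | y + d ∈ -R}`, and `-R` is the row `-γ`.  (9) `x ↦ -x` is an involution of the row `γ` (if
`γ ≠ 0`), resp. of `(rq D K 0).erase 0`, without fixed points by `SY` (see the parity arguments in Pool/Agent/SSE/Cy.lean, `Finset.sum_involution` in `ZMod 2`, or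
`Finset.card_involution`).  (10) if `d ∈ K` and the row is a whole coset then it has no tops. -/
def St_Rw : Prop :=
  ∀ (G : Type) [AddCommGroup G] [Finite G] (D : Finset G) (K : AddSubgroup G),
    (st D K).card = Nat.card K * (im D K).card ∧
    D.card = ∑ γ ∈ im D K, (rq D K γ).card ∧
    (∀ γ, (rq D K γ).card ≤ Nat.card K) ∧
    (∀ d : G, lam D d = ∑ γ ∈ im D K, (tq D K d γ).card) ∧
    (∀ γ, γ ∈ im D K ↔ 1 ≤ (rq D K γ).card) ∧
    ((∀ y ∈ D, -y ∈ D) → ∀ γ, (rq D K (-γ)).card = (rq D K γ).card) ∧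
    ((∀ y ∈ D, -y ∈ D) → ∀ d ∈ K, ∀ γ, (tq D K d (-γ)).card = (tq D K d γ).card) ∧
    (∀ γ, (rq D K γ).card = Nat.card K ↔ ∀ x : G, (QuotientAddGroup.mk x : G ⧸ K) = γ → x ∈ D) ∧
    (SY D → (∀ γ, γ + γ = 0 → γ ≠ 0 → (rq D K γ).card % 2 = 0) ∧ (rq D K 0).card % 2 = 1) ∧
    (∀ d ∈ K, ∀ γ, (rq D K γ).card = Nat.card K → (tq D K d γ).card = 0)

/-- **Sg** (1.5 h, no hypotheses; compare the second half of Pool/Agent/SSE/GS.lean).  Strings.  `K = ⟨d⟩`, `R = rq D K γ`, `w = |R|`.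
Proofs.  (1) no tops: `R + d ⊆ R`, so `R` is empty or the whole coset (`k` elements).  (2) one top `x`: for every `y ∈ R` walk `y, y + d, ...` until the last element in `D` (the walk leaves
`D`, because it reaches every element of the coset, e.g. `x + d`): this last element is a top, so it is `x`; so `y = x - j d` and all `x - i d`, `i ≤ j`, are in `R`.  As in GS this gives
`R = {x - j d | j < w}` and the elements are different; `w < k` since `x + d ∉ R`.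
(3) `γ + γ = 0`, `γ ≠ 0`, `SY D`, one top `x`: `-x ∈ R`, and `-x - d = -(x + d) ∉ D`; so `-x = x - (w - 1) d` (the only element `y` of `R` with `y - d ∉ D`: for `j + 1 < w`, `x - j d - d ∈ R`).
So `x + x = (w - 1) d`.  If `w` is odd, `y = x - ((w-1)/2) d ∈ R` satisfies `y + y = 0`, so `y = 0`, against `γ ≠ 0`.  So `w` is even, and `g = x - (w/2 - 1) d` has `g + g = (w - 1) d - (w - 2) d = d`.
(4) `γ = 0`, `SY D`, one top `x`: again `x + x = (w - 1) d`; `0 ∈ R`, the nonzero elements of `R` are paired by `y ↦ -y` (no involutions), so `w = 2 t + 1` (or use the argument of (3): if `w` is even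
then `0 = x - j d` gives `2 j d = (w-1) d` with `|2 j - (w - 1)| < k`, so `2 j = w - 1`, a contradiction).  `y = x - t d ∈ R`, `y + y = 0`, so `y = 0`, `x = t d`. -/
def St_Sg : Prop :=
  ∀ (G : Type) [AddCommGroup G] [Finite G] (D : Finset G) (d : G) (γ : G ⧸ AddSubgroup.zmultiples d),
    ((tq D (AddSubgroup.zmultiples d) d γ).card = 0 → (rq D (AddSubgroup.zmultiples d) γ).card = 0 ∨
      (rq D (AddSubgroup.zmultiples d) γ).card = Nat.card (AddSubgroup.zmultiples d)) ∧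
    ((tq D (AddSubgroup.zmultiples d) d γ).card = 1 → (rq D (AddSubgroup.zmultiples d) γ).card + 1 ≤ Nat.card (AddSubgroup.zmultiples d) ∧
      ∃ x : G, (QuotientAddGroup.mk x : G ⧸ AddSubgroup.zmultiples d) = γ ∧ x ∈ D ∧ x + d ∉ D ∧
        ∀ y : G, y ∈ rq D (AddSubgroup.zmultiples d) γ ↔ ∃ j : ℕ, j < (rq D (AddSubgroup.zmultiples d) γ).card ∧ y = x - j • d) ∧
    (SY D → (tq D (AddSubgroup.zmultiples d) d γ).card = 1 → γ + γ = 0 → γ ≠ 0 →
      (rq D (AddSubgroup.zmultiples d) γ).card % 2 = 0 ∧ ∃ g : G, (QuotientAddGroup.mk g : G ⧸ AddSubgroup.zmultiples d) = γ ∧ g + g = d) ∧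
    (SY D → (tq D (AddSubgroup.zmultiples d) d γ).card = 1 → γ = 0 →
      ∃ t : ℕ, (rq D (AddSubgroup.zmultiples d) γ).card = 2 * t + 1 ∧
        ∀ y : G, y ∈ rq D (AddSubgroup.zmultiples d) γ ↔ ∃ j : ℕ, j ≤ t ∧ (y = j • d ∨ y = -(j • d)))

/-- **Fr** (1.2 h, no hypotheses).  Full rows.  Proofs.  (1) induction on `i` (the map `G → G / K` is a homomorphism; `im (E + F) K = im E K + im F K`).
(2) `x` in the coset `α + β`, `y ∈ rq F K β`: `x - y` is in the coset `α`, so in `E`.  (3) `x` in the coset `α + β`: the sets `{x - y | y ∈ rq F K β}` and `rq E K α` are subsets of the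
coset `α`, together more than `|K|` elements: they meet.  (4) `|st E K| = |K| |im E K|` and `|E| = ∑_{γ ∈ im E K} |rq E K γ|` (St_Rw, or directly: the elements of `st E K` outside `E` lie in the
cosets of `X`, at most `e` in each).  (5), (6) `0 ∈ D`: induction. -/
def St_Fr : Prop :=
  ∀ (G : Type) [AddCommGroup G] [Finite G] (D : Finset G) (K : AddSubgroup G),
    (∀ i, im (it D i) K = it (im D K) i) ∧
    (∀ (E F : Finset G) (α β : G ⧸ K), (rq E K α).card = Nat.card K → β ∈ im F K → (rq (E + F) K (α + β)).card = Nat.card K) ∧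
    (∀ (E F : Finset G) (α β : G ⧸ K), 1 ≤ (rq E K α).card → 1 ≤ (rq F K β).card → Nat.card K + 1 ≤ (rq E K α).card + (rq F K β).card →
      (rq (E + F) K (α + β)).card = Nat.card K) ∧
    (∀ (E : Finset G) (X : Finset (G ⧸ K)) (e : ℕ), (∀ γ ∈ im E K, γ ∉ X → (rq E K γ).card = Nat.card K) →
      (∀ γ ∈ X, Nat.card K ≤ (rq E K γ).card + e) → (st E K).card ≤ E.card + X.card * e) ∧
    ((0 : G) ∈ D → ∀ i j, i ≤ j → it D i ⊆ it D j) ∧
    (∀ i j, it D (i + j) = it D i + it D j)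

/-- **Pk** (1.5 h, from Rw, Fr; SDG.Kn).  Growth by Kneser.  Proof.  `E = st (it D i) K`; `S` = the subgroup of all `g` with `x + g ∈ E` for all `x ∈ E` (finite, so a subgroup), `K ≤ S`, `E` is a union of `S`-cosets:
`E = st (it D i) S`, `|E| = |S| |im (it D i) S| = |S| |it D' i|`, `D' = im D S` (Rw (1), Fr (1)).  If `S = ⊤` then `E = G`: first alternative.  Otherwise: `it D' i` is aperiodic (a period `mk g` gives
`E + g ⊆ E`, `g ∈ S`).  For `1 ≤ j ≤ i`, `it D' i = it D' j + it D' (i - j)`, so `it D' j` is aperiodic, and by induction on `j` and `SDG.thm_Kn` (1) (`|A| + |B| ≤ |A + B| + 1`)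
`|it D' j| + j ≥ j |D'| + 1`.  So `|E| = |S| |it D' i| ≥ i |S| |D'| - i |S| + |S| = i (|st D S| - |S|) + |S| ≥ i (|D| + 1) + |S|` by `NK1` (`S ≠ ⊥` as `K ≤ S`), and `|S| ≥ |K|`. -/
def St_Pk : Prop :=
  ∀ (G : Type) [AddCommGroup G] [Finite G] (D : Finset G) (K : AddSubgroup G) (i e : ℕ), (0 : G) ∈ D → NK1 D → K ≠ ⊥ → 1 ≤ i →
    (st (it D i) K).card ≤ (it D i).card + e →
      Nat.card G ≤ (it D i).card + e ∨ i * (D.card + 1) + Nat.card K ≤ (it D i).card + e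

/-! ## Almost nearly filled sets -/

/-- **Ka** (2 h, from Rw, Fr; SSE.GS).  Proof.  Choose `K ≠ ⊥, ⊤` with `|st D K| ≤ |D| + |K|` and `|K|` maximal.  As `D` is not nearly filled, `|st D K| = |D| + k`; with `m = |D̄|`: `k m = 2 l + 1 + k`, so `k` is odd and `m` is
even.  `|it D 2| ≥ 4 l + 2` or `≥ n - 1` (GS with `E = D`; `¬ APK D ⊥` since `G` is not cyclic).
(A) All `γ ∈ D̄` have `γ + γ = 0`.  `D` generates `G`, so `x + x ∈ K` for all `x`, `K.index ≤ 4`; the index divides... `G / K` has exponent 2, so the index is 2 or 4 (index 3 is impossible: an element of order 3).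
Index 2: `m ≤ 2`, so `m = 2`, `k = 2 l + 1`, `n = 4 l + 2`: `|it D 2| ≥ n - 1` and `|it D i| ≥ |it D 2|`: first alternative (`κ ≥ 1`).  Index 4: `m ≥ 3` (`D` is not contained in the preimage of a group of
order 2), so `m = 4`, `3 k = 2 l + 1`, `n = 4 k`, and `4 l + 1 ≤ n` gives `6 k - 1 ≤ 4 k`: impossible.
(B) `γ ∈ D̄` with `γ + γ ≠ 0`.  `D̄` is symmetric with an even number of elements and contains `0`, so it contains `η ≠ 0` with `η + η = 0`; `w η` is even (Rw (9)), `k` is odd, so `w η ≤ k - 1`.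
`k = ∑_{δ ∈ D̄} (k - w δ) ≥ (k - w 0) + (k - w η) + (k - w γ) + (k - w (-γ)) ≥ 3 k + 1 - w 0 - 2 w γ`, so `DCs` gives `k ≤ κ`; so `κ = 4` and `k = 3`.  The total deficit `∑ (3 - w δ)` is 3.  If `δ ≠ 0`, `δ ∈ D̄`, then `w δ ≥ 2`:
`δ = -δ`: `w δ` is even and positive; `δ ≠ -δ`: `w δ = w (-δ) = 1` would be a deficit 4.  So for `δ, δ' ∈ D̄ \ {0}` the coset `δ + δ'` is full in `D + D` (Fr (3)).  Let `i ≥ 3`: every `γ' ∈ it D̄ i` is full in
`it D i`: `γ' = δ_1 + ... + δ_i`; if two of the `δ_j` are not 0: full.  Otherwise at least two are 0 (`i ≥ 3`); replace them by `γ, -γ`.  (A clean way: show by induction that for `i ≥ 3` every `γ' ∈ it D̄ i` is in `(δ + δ') + it D̄ (i - 2)` for some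
`δ, δ' ∈ D̄ \ {0}`: for `γ' = 0 + 0 + 0`, `γ' = δ + 0 + 0` use `γ, -γ`.)  So `|it D i| = 3 |it D̄ i|`.
`D̄` is not nearly filled: if `|st D̄ K̄'| + 1 ≤ |D̄| + |K̄'|`, `K̄' ≠ ⊥, ⊤`, its preimage `K'` has `|K'| = 3 |K̄'|`, `|st D K'| = 3 |st D̄ K̄'| ≤ 3 |D̄| + |K'| - 3 = |D| + |K'|`, against the maximality of `|K|` (see Pool/Agent/SSE/Mx.lean).
`¬ APK D̄ ⊥` (`|D̄| = m` is even; `APK` gives `2 a + 1`).  GS for `D̄` in `G / K` repeatedly (see `Gn_ind` in Pool/Agent/SSE/Gn.lean): `|it D̄ i| ≥ i m` or `|it D̄ i| + 1 ≥ n / 3`.  So `|it D i| ≥ 3 i m = i (2 l + 4)`, or `|it D i| ≥ n - 3`. -/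
def St_Ka : Prop :=
  ∀ (G : Type) [AddCommGroup G] [Finite G] (κ l : ℕ) (D : Finset G), Hyp κ l D →
    (∃ K : AddSubgroup G, K ≠ ⊥ ∧ K ≠ ⊤ ∧ (st D K).card ≤ D.card + Nat.card K) → Gr3 κ l D

/-! ## At most two strings -/

/-- **Kt** (1 h, from Rw, Sg).  Proof.  `K = ⟨d⟩ ≠ ⊥`, and `K ≠ ⊤` since `G` is not cyclic.  `NK1`: `|D| + k + 1 ≤ |st D K|`, i.e. `k + 1 ≤ ∑_{γ ∈ D̄} (k - w γ)` (Rw (1), (2), (3)).  Rows without tops are full (Sg (1)), and `∑ |tq γ| = lam D d ≤ 2` (Rw (4)).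
A row that is not full has at least one top, and `k - w γ ≤ k - 1` for `γ ∈ D̄`; so there are at least two rows with tops, hence exactly two, each with one top.  Their deficits sum up to at least `k + 1`: `2 k - w γ1 - w γ2 ≥ k + 1`. -/
def St_Kt : Prop :=
  ∀ (G : Type) [AddCommGroup G] [Finite G] (κ l : ℕ) (D : Finset G) (d : G), Hyp κ l D → NK1 D → d ≠ 0 → lam D d ≤ 2 →
    ∃ γ1 γ2 : G ⧸ AddSubgroup.zmultiples d, Two D d γ1 γ2

/-- **K4** (1 h, no hypotheses).  Quotients of exponent two.  If all `γ ∈ D̄` have `γ + γ = 0` (`K ≠ ⊤`) and three different cosets `0, α, β` meet `D`, then the index is 4 and the fourth coset is `α + β`.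
Proof.  `{x | x + x ∈ K}` is a subgroup that contains `D`, so it is `⊤`; `Hyp.e4` gives `K.index ≤ 4`; `G / K` has exponent 2 and the four elements `0, α, β, α + β` are different (`α + β = 0` gives `α = β`, `α + β = α` gives `β = 0`), so it has exactly these four elements. -/
def St_K4 : Prop :=
  ∀ (G : Type) [AddCommGroup G] [Finite G] (κ l : ℕ) (D : Finset G) (K : AddSubgroup G) (α β : G ⧸ K), Hyp κ l D →
    (∀ γ ∈ im D K, γ + γ = 0) → α ∈ im D K → β ∈ im D K → α ≠ 0 → β ≠ 0 → α ≠ β →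
      K.index = 4 ∧ ∀ γ : G ⧸ K, γ = 0 ∨ γ = α ∨ γ = β ∨ γ = α + β

/-- **B1** (2 h, from Rw, Sg, Fr, Pk, K4).  The row 0 is incomplete.  Proof.  `K = ⟨d⟩`, `w 0 + w γ + 1 ≤ k`.  The row `-γ` is incomplete (Rw (6)) and `-γ ≠ 0`, so `-γ = γ`.  Sg (3): `w γ` is even, so `w γ ≥ 2`, and there is `g` in the coset `γ` with `g + g = d`.
(a) There is `δ ∈ D̄` with `δ + δ ≠ 0`.  Then `δ ≠ 0, γ`, the rows `δ`, `-δ` are full.  `DCs`: `2 k + w 0 ≥ 2 k + 1`, so `k ≤ κ`, `κ = 4`, `k ≤ 4`.  `w 0 ≥ 1`, `w γ ≥ 2`, so `k = 4`.  Let `i ≥ 3`: every row of `it D i` is full.  Let `F` = set of the full rows of `D`; `D̄ = {0, γ} ∪ F`;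
by induction on `i ≥ 1`: `it D̄ i ⊆ {0, γ} ∪ (F + it D̄ (i - 1))` (`γ + γ = 0`; `0 ∈ D̄`).  `0 = δ + (-δ) ∈ F + it D̄ (i-1)` and `γ = δ + (-δ + γ) ∈ F + it D̄ (i - 1)` for `i ≥ 3`.  So `it D̄ i ⊆ F + it D̄ (i-1)` and Fr (2): the rows are full.
Pk with `e = 0`: `n ≤ |it D i|` or `i (2 l + 2) + 4 ≤ |it D i|`.
(b) All `δ ∈ D̄` have `δ + δ = 0`.  If `D̄ = {0, γ}`: then `G` is generated by `K` and `g`, i.e. by `g` (`d = g + g`): `G` is cyclic, a contradiction.  So there is `δ ∈ D̄`, `δ ≠ 0, γ`, a full row.  K4: index 4, the cosets are `0, γ, δ, γ + δ`.  For `i ≥ 3` all of them are full in `it D i`: the coset `δ` is full in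
`D`; `0 = δ + δ`, `γ + δ`, `δ + 0` are full in `D + D` (Fr (2)), `γ = δ + (γ + δ)` is full in `D + D + D` (`γ + δ ∈ im (D + D) K`), and `it D 3 ⊆ it D i`; for `δ`, `0`, `γ+δ` use `it D 2 ⊆ it D i`.  So `it D i = G`. -/
def St_B1 : Prop :=
  ∀ (G : Type) [AddCommGroup G] [Finite G] (κ l : ℕ) (D : Finset G) (d : G) (γ : G ⧸ AddSubgroup.zmultiples d), Hyp κ l D → NK1 D →
    Two D d 0 γ → Gr3 κ l D

/-- **B2** (1.2 h, from Rw, Fr, Sg, K4).  The row 0 is full, two incomplete rows of order two.  Proof.  `w 0 = k` is odd (Rw (9)).  `-γ1 = γ1`; so `-γ2 = γ2` as well (`-γ2` is an incomplete row, not `γ1`).  `w γ1`, `w γ2` are even, at least 2 and `w γ1 + w γ2 + 1 ≤ k`, so `k ≥ 5`.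
If `δ ∈ D̄`, `δ + δ ≠ 0`, then the row `δ` is full, `DCs` gives `k ≤ κ ≤ 4`: contradiction.  So all `δ ∈ D̄` have `δ + δ = 0`; K4: the cosets are `0, γ1, γ2, γ1 + γ2`.  The row 0 is full in `D`, so `0, γ1, γ2` are full in `it D 2`, and `γ1 + γ2` is full in `it D 3` (Fr (2)).  So `it D i = G` for `i ≥ 3`. -/
def St_B2 : Prop :=
  ∀ (G : Type) [AddCommGroup G] [Finite G] (κ l : ℕ) (D : Finset G) (d : G) (γ1 γ2 : G ⧸ AddSubgroup.zmultiples d), Hyp κ l D → NK1 D →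
    Two D d γ1 γ2 → γ1 ≠ 0 → γ2 ≠ 0 → γ1 + γ1 = 0 → Gr3 κ l D

/-- **B3** (1.5 h, from Rw, Fr, Pk).  The row 0 is full, the incomplete rows are `±γ`, and there is another row `δ`.  Proof.  `w 0 = k` is odd (Rw (9)).  The row `δ ≠ 0, ±γ` is full.  `δ + δ ≠ 0`: otherwise `w δ = k` would be even (Rw (9)).  `DCs`: `k ≤ κ`, so `κ = 4`, `k = 3` (`k ≥ 2` odd).
`w γ = w (-γ) ≥ 1`, `2 w γ + 1 ≤ 3`.  Let `i ≥ 1` (we need `i ≥ 3`).  The rows of `it D i` different from `± i γ` are full: if `η ∈ it D̄ (i - 1)` then `η = 0 + η` is full (the row 0 of `D` is full; Fr (2)).  If `η = δ_1 + ... + δ_i` is not in `it D̄ (i - 1)` then no `δ_j` is 0; if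
some `δ_j` is a full row, then `η` is full; otherwise all `δ_j = ±γ`, and if both signs occur then `η ∈ it D̄ (i - 2) ⊆ it D̄ (i-1)`; so `η = ± i γ`.  (Clean: induction: every `η ∈ it D̄ i` is full in `it D i` or `η = i γ` or `η = - i γ`.)
The rows `± i γ` contain at least one element, so they miss at most 2.  Fr (4) with `X = {i γ, - i γ}`, `e = 2`: `|st (it D i) K| ≤ |it D i| + 4`.  Pk: `n ≤ |it D i| + 4`, or `i (2 l + 2) + 3 ≤ |it D i| + 4`. -/
def St_B3 : Prop :=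
  ∀ (G : Type) [AddCommGroup G] [Finite G] (κ l : ℕ) (D : Finset G) (d : G) (γ δ : G ⧸ AddSubgroup.zmultiples d), Hyp κ l D → NK1 D →
    Two D d γ (-γ) → γ ≠ 0 → γ + γ ≠ 0 → δ ∈ im D (AddSubgroup.zmultiples d) → δ ≠ 0 → δ ≠ γ → δ ≠ -γ → Gr3 κ l D

/-- **B4** (2.5 h, from Rw, Sg, Fr).  The rows are exactly `0` (full) and `±γ` (incomplete).  Proof.  `k = w 0` is odd (Rw (9)), `w = w γ = w (-γ) ≥ 1`, `2 w + 1 ≤ k`, `2 l + 1 = |D| = k + 2 w`.  `G / K` is generated by `γ` (`D` generates `G`), it is cyclic of order `q`, `q k = n`, and `q ≥ 3` (`γ + γ ≠ 0`).  Let `i ≥ 3`.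
For `|j| ≤ i - 1` the coset `j γ` is full in `it D i` (`j γ ∈ it D̄ (i - 1)`, add the full row 0).  So if `q ≤ 2 i - 1` then `it D i = G`.
The coset `i γ` of `it D i` contains at least `v = min (k, i (w - 1) + 1)` elements: by Sg (2) `rq D K γ = {x - j d | j < w}`, and `i x - j d ∈ it D i` for all `j ≤ i (w - 1)` (write `j = j_1 + ... + j_i`, `j_t ≤ w - 1`; induction on `i`).  The same for `- i γ` (symmetry).
`q ≥ 2 i + 1`: the `2 i + 1` cosets `j γ`, `|j| ≤ i`, are different: `|it D i| ≥ (2 i - 1) k + 2 v`.  If `v = k`: `(2 i + 1) k ≥ i (k + 2 w + 1)`.  Otherwise `(2 i - 1) k + 2 i (w - 1) + 2 - (i (k + 2 w + 1) - 1) = (i - 1)(k - 3) ≥ 0`.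
`q = 2 i`: the cosets `j γ`, `|j| ≤ i - 1`, and `i γ` are different, `|it D i| ≥ (2 i - 1) k + v`, `n = 2 i k`.  If `v = k`: `it D i = G`.  Otherwise `(2 i - 1) k + i (w - 1) + 1 - (i (k + 2 w + 1) - 1) = (i - 1)(k - 2) - i w`, and twice this is `≥ 2 (i-1)(k-2) - i (k - 1) = (i - 2)(k - 3) - 2`.  If `k ≥ 5` this is `≥ 0`
(`i ≥ 3`).  If `k = 3`: `w = 1`, `|it D i| ≥ (2 i - 1) 3 + 1 = n - 2`: first alternative if `κ = 4`; if `κ = 1`, `(i - 1)(k - 2) - i w = -1`: last alternative. -/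
def St_B4 : Prop :=
  ∀ (G : Type) [AddCommGroup G] [Finite G] (κ l : ℕ) (D : Finset G) (d : G) (γ : G ⧸ AddSubgroup.zmultiples d), Hyp κ l D → NK1 D →
    Two D d γ (-γ) → γ ≠ 0 → γ + γ ≠ 0 → (∀ δ ∈ im D (AddSubgroup.zmultiples d), δ = 0 ∨ δ = γ ∨ δ = -γ) → Gr3 κ l D

/-- **Kb** (0.7 h, from Rw, Kt, B1, B2, B3, B4).  Assembly.  Kt gives `γ1, γ2`.  If one of them is 0: B1 (`Two` is symmetric in `γ1, γ2`).  Otherwise if `γ1 + γ1 = 0` or `γ2 + γ2 = 0`: B2.  Otherwise `-γ1 ≠ γ1` is an incomplete row (Rw (6), and it is in `im D K` by Rw (5)), so `-γ1 = γ2`; B3 or B4. -/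
def St_Kb : Prop :=
  ∀ (G : Type) [AddCommGroup G] [Finite G] (κ l : ℕ) (D : Finset G) (d : G), Hyp κ l D → NK1 D → d ≠ 0 → lam D d ≤ 2 → Gr3 κ l D

/-! ## Three-element 2-atoms -/

/-- **C1** (2 h, from Rw, Sg).  `a, b` generate `G`.  Proof.  Suppose `Q = ⟨a, b⟩ ≠ ⊤`, `K = ⟨a⟩ ≤ Q`.  `NK1` for `Q`: `|D| + |Q| + 1 ≤ |st D Q|`.  For a coset `Γ` of `Q` let `D_Γ = D ∩ Γ`, `e_Γ` = number of `x ∈ D_Γ` with `x + a ∉ D`; `∑ e_Γ = lam D a = 3`.
(i) `Γ` meets `D`, then `D` meets every `K`-coset in `Γ`: if `x ∈ D` then `x + b` or `x + b - a` is in `D`, so the `K`-coset of `x + b` meets `D`; and these cosets exhaust `Γ` (all multiples of `b`).  (ii) `e_Γ = 0`: then all `K`-cosets in `Γ` are full, `D_Γ = Γ`.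
(iii) `e_Γ = 1`: `|D_Γ| = |Q| - 1`.  All `K`-cosets in `Γ` but one, `ρ`, are full; the row `ρ` is a string with `w < r = |K|` elements (Sg (2)).  If there is another `K`-coset in `Γ`: the coset `ρ - b` is full (it is `≠ ρ` then, otherwise `b ∈ K` and `Γ = ρ`), and `x + b ∈ D` or `x + b - a ∈ D` for all `x` in it: so every `y ∈ ρ` satisfies
`y ∈ D` or `y - a ∈ D`; so `r ≤ w + 1` (`rq ∪ (rq + a)` has `w + 1` elements: `rq = {x - j a | j < w}`).  If `Γ = ρ`: `b = t a`, `2 ≤ t ≤ r - 1` (`b ≠ 0, a`).  Suppose `w ≤ r - 2`.  `rq = {x - j a | j < w}`.  The elements `x - j a + b`, `j < w`, are in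
`{x + a - j a | j ≤ w}` (`w + 1 ≤ r - 1` elements).  With `b = t a`, `s = r + 1 - t` (`2 ≤ s ≤ r - 1`): `x - j a + b = x + a - (s + j) a` [since `t = 1 - s` modulo `r`], so `s + j` is congruent to an element of `[0, w]` modulo `r` for all `0 ≤ j < w`.  `j = 0`: `s ≤ w`.  `j = w + 1 - s`
(`0 ≤ j < w` since `2 ≤ s ≤ w + 1`): `s + j = w + 1 ≤ r - 1` is not congruent to an element of `[0, w]`.  Contradiction.  So `w = r - 1`.
Now the cosets `Γ` with `e_Γ ≥ 1`: one: `|st D Q| - |D| ≤ |Q| - 1`.  Two (with `e = 1, 2`): `≤ 1 + (|Q| - 1)`.  Three (with `e = 1`): `3`.  All contradict `|Q| + 1` (`|Q| ≥ 3` since `0, a, b` are different). -/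
def St_C1 : Prop :=
  ∀ (G : Type) [AddCommGroup G] [Finite G] (D : Finset G) (a b : G), NK1 D → Tri D a b → (∀ y ∈ D, -y ∈ D) → (0 : G) ∈ D →
    AddSubgroup.closure {a, b} = ⊤

/-- **C2** (2 h, from Rw, Sg).  No full row.  `K = ⟨a⟩`, `r = |K|`, `s = K.index ≥ 2`, `n = r s`, `b` generates `G / K` (`β = mk b`); all rows are met (`im D K = univ`): as in C1 (i).  `∑_γ |tq γ| = lam D a = 3` (Rw (4)), so at most three rows have tops, the others are full (Sg (1)), every row has at least one element.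
Proof of the claim.  (i) `|D| ≥ (s - 3) r + 3` and `2 |D| ≤ n + 1` give `(6 - s) r ≥ 5`, `s ≤ 5`.  (ii) A full row `δ` with `δ + δ ≠ 0` would give `r ≤ κ` by `DCs` (`2 r + w 0 ≥ 2 r + 1`): `κ = 4`, `n = r s ≤ 20 < 4 l + 1`, contradiction (`κ = 1`: `r ≤ 1`, impossible).
Suppose the row `ρ` is full; so `ρ + ρ = 0`.  If `s = 2`, then only one row is incomplete and `|st D K| ≤ |D| + r - 1` contradicts `NK1`.  So `s ≥ 3`, `β + β ≠ 0`, `ρ + β ≠ ρ - β`, `-(ρ + β) = ρ - β`.  The rows `ρ ± β` are not full (ii), have the same number of tops (Rw (7)), so exactly one each (three in total).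
The row `ρ` is full, so every `y` in the coset `ρ + β` satisfies `y ∈ D` or `y - a ∈ D`; so `r ≤ w (ρ + β) + 1` (Sg (2)), `w (ρ ± β) = r - 1`.  If `w 0 ≥ 3`, then `2 (r - 1) + w 0 ≥ 2 r + 1` and `DCs` for `ρ + β` gives `r ≤ κ`: contradiction as in (ii).  So `w 0 = 1` (odd, Rw (9)).
If `ρ = 0`: `r = w 0 = 1`, but `r ≥ 2`.  So `ρ ≠ 0`, the row 0 has a top (`w 0 = 1 < r`), and then all three tops are in the rows `0, ρ ± β` (`0 ≠ ρ ± β`, because `0 + 0 = 0` but `(ρ + β) + (ρ + β) = β + β ≠ 0`).  All other rows are full, hence of the form `δ + δ = 0`, `δ ≠ 0`; in the cyclic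
group `G / K` there is at most one such element: `s = 4`.  `|D| = 1 + r + 2 (r - 1) = 3 r - 1`, and `2 |D| ≤ n + 1 = 4 r + 1` gives `r ≤ 1`.  Contradiction.
So no row is full, every row has a top, `s ≤ 3`. -/
def St_C2 : Prop :=
  ∀ (G : Type) [AddCommGroup G] [Finite G] (κ l : ℕ) (D : Finset G) (a b : G), Hyp κ l D → NK1 D → Tri D a b →
    AddSubgroup.closure {a, b} = ⊤ →
      (∀ γ : G ⧸ AddSubgroup.zmultiples a, 1 ≤ (rq D (AddSubgroup.zmultiples a) γ).card) ∧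
      (∀ γ : G ⧸ AddSubgroup.zmultiples a, 1 ≤ (tq D (AddSubgroup.zmultiples a) a γ).card) ∧
      (∀ γ : G ⧸ AddSubgroup.zmultiples a, (rq D (AddSubgroup.zmultiples a) γ).card + 1 ≤ Nat.card (AddSubgroup.zmultiples a)) ∧
      ((AddSubgroup.zmultiples a).index = 2 ∨ (AddSubgroup.zmultiples a).index = 3)

/-- **C3** (2 h, from Rw, Sg).  Index 3 is impossible.  `K = ⟨a⟩`, `r = |K|`, `n = 3 r`, the rows are `0, β, -β` (`β = mk b ≠ 0` since `a, b` generate `G` and `K ≠ ⊤`), each has exactly one top (they have at least one, and three in total).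
Proof.  Sg (4): `rq 0 = {j a | |j| ≤ t}`, `w 0 = 2 t + 1`.  Sg (2): `rq β = {x - j a | j < L}`, `x + a ∉ D`; `L = w β = w (-β)`.  `rq (-β) = -(rq β)`, its top is `x' = -(x - (L-1) a)`, `rq (-β) = {x' - j a | j < L}`.  `2 |D| ≤ n + 1`: `2 (2 t + 1 + 2 L) ≤ 3 r + 1`.
The property `y ∈ D → y + b ∈ D or y + b - a ∈ D`:
(1) rows `0 → β`: `b + (t - j) a ∈ {x + a - i a | 0 ≤ i ≤ L}` for `0 ≤ j ≤ 2 t`.  (2) rows `β → -β`: `b + x - j a ∈ {x' + a - i a | 0 ≤ i ≤ L}` for `0 ≤ j < L`.  (3) rows `-β → 0`: `b + x' - j a ∈ {(t + 1 - i) a | 0 ≤ i ≤ 2 t + 1}` for `0 ≤ j < L`.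
Each says that an interval (of step `a`) lies in an interval; the outer one has at most `r - 1` elements (w γ + 1 ≤ r; if it has exactly `r` elements, i.e. `L + 1 = r` or `2 t + 2 = r`, the size condition gives a contradiction or `r ≤ 4`: `L = r - 1`: `2 (2 t + 2 r - 1) ≤ 3 r + 1` gives `r + 4 t ≤ 3`, with `r ≥ 2`: `t = 0`, `r ≤ 3`, but
`n = 3 r ≤ 9` while `n ≥ 10`; `2 t + 1 = r - 1`: (2) and (3) are used only to bound `L`: `|rq| ` counts give `2 t + 1 ≤ L + 1` and `L ≤ 2 t + 2` from (1), (3): `L ≥ 2 t = r - 2`, `2 (r - 1 + 2 (r - 2)) ≤ 3 r + 1`, `3 r ≤ 11`, `n ≤ 11`, `r ≤ 3`, `n ≤ 9`: contradiction).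
So: `b + t a = x + a - i1 a` with `0 ≤ i1`, `i1 + 2 t ≤ L`; `b + x = x' + a - i2 a`, `0 ≤ i2`, `i2 + (L - 1) ≤ L`; `b + x' = (t + 1) a - i3 a`, `0 ≤ i3`, `i3 + (L - 1) ≤ 2 t + 1`.  Adding: `3 b = (3 - i1 - i2 - i3) a`, `0 ≤ i1 + i2 + i3 ≤ (L - 2 t) + 1 + (2 t + 2 - L) = 3`.
`3 b = a`: then `⟨b⟩ ⊇ K`, `⟨b⟩ = ⊤`, `G` cyclic.  `3 b = 2 a`: `3 (a - b) = a`, `⟨a - b⟩ = ⊤`, cyclic.
`3 b = 0`: all three extremal: `i1 = L - 2 t`, `i2 = 1`, `i3 = 2 t + 2 - L`: `x = b + (L - t - 1) a`, `x' = b + x`, and `x' = -x + (L - 1) a`, so `b + 2 x = (L-1) a`, `3 b + (2 L - 2 t - 2) a = (L - 1) a`, `(L - 2 t - 1) a = 0`, `|L - 2 t - 1| ≤ 1 < r`, `L = 2 t + 1`: `D = {j a} + {0, b, -b}`, `x = b + t a`, so `D + b = D`: `lam D b = 0 < 3`.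
`3 b = 3 a`: `i1 = i2 = i3 = 0`, `b' = b - a`, `3 b' = 0`: `x = b' + t a`, `x' = b' + x`, again `(2 t + 1 - L) a = 0`, `L = 2 t + 1`, `D + b' = D`: `lam D b' = 0 < 3` (`b' ≠ 0`). -/
def St_C3 : Prop :=
  ∀ (G : Type) [AddCommGroup G] [Finite G] (κ l : ℕ) (D : Finset G) (a b : G), Hyp κ l D → NK1 D → Tri D a b →
    AddSubgroup.closure {a, b} = ⊤ →
      (∀ γ : G ⧸ AddSubgroup.zmultiples a, 1 ≤ (rq D (AddSubgroup.zmultiples a) γ).card) →
      (∀ γ : G ⧸ AddSubgroup.zmultiples a, 1 ≤ (tq D (AddSubgroup.zmultiples a) a γ).card) →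
      (∀ γ : G ⧸ AddSubgroup.zmultiples a, (rq D (AddSubgroup.zmultiples a) γ).card + 1 ≤ Nat.card (AddSubgroup.zmultiples a)) →
      (AddSubgroup.zmultiples a).index ≠ 3

/-- **C4** (2.5 h, from Rw, Sg).  Index 2 is impossible.  `K = ⟨a⟩`, `r = |K|`, `n = 2 r`, the rows are `0` and `β = mk b`, `β + β = 0`; three tops in total.
Proof.  `|tq β| = 1` would give `g ∉ K` with `g + g = a` (Sg (3)), `⟨g⟩ ⊇ K`, `⟨g⟩ = ⊤`: `G` cyclic.  So `|tq β| = 2`, `|tq 0| = 1`.  Sg (4): `rq 0 = {j a | |j| ≤ t}`, `w 0 = 2 t + 1 ≤ r - 1`.  `Y = rq β`, `|Y|` is even (Rw (9)) and positive, `Y = -Y`.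
(1) `y ∈ Y`: `y + b ∈ D` or `y + b - a ∈ D`, so `y + b ∈ {j a | -t ≤ j ≤ t + 1}`; as `-y ∈ Y`: `y ∈ W := {b + j a | -t - 1 ≤ j ≤ t}`.  (2) for `|j| ≤ t`: `b + j a ∈ Y` or `b + (j - 1) a ∈ Y`.  So `|W| ≤ 2 t + 2`, and (2) says that `Y ∪ (Y + a)` (which has `|Y| + 2` elements) contains `2 t + 1` elements: `|Y| ≥ 2 t - 1`, even:
`|Y| = 2 t` or `|Y| ≥ 2 t + 2`, in the latter case `Y = W`, which has at most one top, a contradiction.  So `|Y| = 2 t`, `t ≥ 1`, `2 l + 1 = |D| = 4 t + 1`, `l = 2 t`, `2 r = n ≥ 8 t + 1`: `r ≥ 4 t + 1 ≥ 2 t + 3`.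
So the `2 t + 2` elements of `W` are different and `b + (t + 1) a`, `b - (t + 2) a` are not in `W`; exactly two indices `p < p'` in `[-t-1, t]` are missing in `Y`; `p' ≠ p + 1` by (2) (if `p' = p + 1` then `j = p'` violates (2)).  Number of tops: the indices `j ∈ Y` with `j + 1 ∉ Y`: `p - 1` (if `p ≠ -t-1`), `p' - 1`, `t` (if `p' ≠ t`): this is 2, so exactly one of
`p = -t-1`, `p' = t` holds.  So with `b'' = b` (if `p = -t-1`) or `b'' = b - a` (if `p' = t`): `Y = {b'' + j a | |j| ≤ t, j ≠ π}` for some `|π| ≤ t - 1`.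
`b'' ± t a ∈ Y`, so `-(b'' + t a) = b'' + j1 a`, `-(b'' - t a) = b'' + j2 a`, `|j1|, |j2| ≤ t`: `2 b'' = -(t + j1) a = (t - j2) a`, so `(2 t + j1 - j2) a = 0`, `0 ≤ 2 t + j1 - j2 ≤ 4 t < r`, so `2 t + j1 - j2 = 0`, `j1 = -t`, `2 b'' = 0`.
`g = b'' + π a ∉ Y` and `-g = b'' - π a ∉ Y` (`Y = -Y`), so `-π = π` modulo `r` among the indices `|j| ≤ t`, `π = 0`, `g = b''`, `2 g = 0`, `g ∉ K`, `g ≠ 0`.  So `D ∪ {g} = {j a | |j| ≤ t} + {0, g}`, and `st D ⟨g⟩ = D ∪ {g}` has `|D| + 1` elements, `|⟨g⟩| = 2`, `⟨g⟩ ≠ ⊥, ⊤`: `NearP D` (or directly against `NK1`). -/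
def St_C4 : Prop :=
  ∀ (G : Type) [AddCommGroup G] [Finite G] (κ l : ℕ) (D : Finset G) (a b : G), Hyp κ l D → NK1 D → Tri D a b →
    AddSubgroup.closure {a, b} = ⊤ →
      (∀ γ : G ⧸ AddSubgroup.zmultiples a, 1 ≤ (rq D (AddSubgroup.zmultiples a) γ).card) →
      (∀ γ : G ⧸ AddSubgroup.zmultiples a, 1 ≤ (tq D (AddSubgroup.zmultiples a) a γ).card) →
      (∀ γ : G ⧸ AddSubgroup.zmultiples a, (rq D (AddSubgroup.zmultiples a) γ).card + 1 ≤ Nat.card (AddSubgroup.zmultiples a)) →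
      (AddSubgroup.zmultiples a).index ≠ 2

/-! ## The core and the theorem -/

/-- **Co** (1.2 h, from Ka, Kb, C1, C2, C3, C4; SSE.GS, KAT.two_atom).  The core.  Proof.  `¬ APK D ⊥` (`G` is not cyclic).  `i = 1`: `|D| = 2 l + 1`.  `i = 2`: GS with `E = D`: `|D + D| + 1 ≥ n` or `|D + D| ≥ 4 l + 2`.  Let `i ≥ 3`.  If some `K ≠ ⊥, ⊤` has `|st D K| ≤ |D| + |K|`: Ka.  Otherwise `NK1 D`.
If `lam D d ≤ 2` for some `d ≠ 0`: Kb.  Otherwise we show `|E + D| ≥ |E| + |D| + 1` whenever `2 ≤ |E|`, `|E + D| + 2 ≤ n`: suppose `|E + D| ≤ |E| + |D|`; `two_atom 0`: the first alternative contradicts `NK1` (`sat` and `st` are the same set, see the beginning of Pool/Agent/SSE/GS.lean).  Second alternative: `A` Sidon, `0 ∈ A`, `|A| = 2` or `3`,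
`|A + D| ≤ |A| + |D|`.  `|A| = 2`, `A = {0, d}`: `|D ∪ (D + d)| ≤ |D| + 2`, `lam D d ≤ 2` (`Helper64.Rho.card_union_shift`): contradiction.  `|A| = 3`, `A = {0, a, b}`: `|D| + lam D a = |D ∪ (D + a)| ≤ |A + D| ≤ |D| + 3`, so `lam D a = 3` and `D ∪ (D + a) = A + D ⊇ D + b`: `Tri D a b`.  C1, C2, then C3, C4: contradiction.
Growth: by induction on `i ≥ 1`: `n ≤ |it D i| + 1` or `i (2 l + 2) ≤ |it D i| + 1`. -/
def St_Co : Prop :=
  ∀ (G : Type) [AddCommGroup G] [Finite G] (κ l : ℕ) (D : Finset G), Hyp κ l D → Gro κ l D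

/-- **Df** (1 h, from Rw; SSE.SyE).  From families to sets.  Proof.  `D = sym u f`.  For `c + c ∉ K`: each `i` with `f i - c ∈ K` or `f i + c ∈ K` contributes exactly one of `± f i` to the coset `c + K` (if both `f i - c` and `- f i - c` are in `K` then `c + c ∈ K`), different members contribute different elements (`AS`: `f j ≠ ± f i` for `j ≠ i`), and `0 ∉ c + K`; so the row `γ = mk c` has
`|{i | ...}|` elements.  The row 0 has `1 + 2 |ins u f K|` elements (`0` and `± f i`, `f i ≠ - f i`).  So `2 k + 1 ≤ 2 w γ + w 0` means `k ≤ |{i | ...}| + |ins u f K|`.  `SY`: SSE.SyE. -/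
def St_Df : Prop :=
  ∀ (G ι : Type) [AddCommGroup G] [Finite G] (u : Finset ι) (f : ι → G), AE u f → DCf u f → DCs 4 (sym u f) ∧ SY (sym u f)

/-- **E4** (1 h, no hypotheses).  Rank at most two: a quotient of exponent 2 has at most 4 elements; this passes to quotients.  Proof.  `p = 2`: `|{x | 2 x = 0}| ≤ 4`.  The homomorphism `x ↦ x + x` has this kernel, its image `2 G` has index `|{x | 2 x = 0}| ≤ 4`.  If `x + x ∈ K` for all `x` then `2 G ≤ K`, so `K.index ≤ 4`.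
Second part: for `K̄ ≤ G / M` with `x̄ + x̄ ∈ K̄` for all `x̄` take the preimage (`AddSubgroup.index_comap_of_surjective`). -/
def St_E4 : Prop :=
  (∀ (G : Type) [AddCommGroup G] [Finite G], R2 G → ∀ K : AddSubgroup G, (∀ x : G, x + x ∈ K) → K.index ≤ 4) ∧
  (∀ (G : Type) [AddCommGroup G] [Finite G] (M : AddSubgroup G), (∀ K : AddSubgroup G, (∀ x : G, x + x ∈ K) → K.index ≤ 4) →
    ∀ K : AddSubgroup (G ⧸ M), (∀ x : G ⧸ M, x + x ∈ K) → K.index ≤ 4)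

/-- **Qt** (1.2 h, from Rw, Fr, E4).  The quotient of a periodic set by a subgroup `K` of order 3.  `|st D K| = |D|` (so `D` is `K`-periodic, all rows are full), `D̄ = im D K`.  Proof.  `SY D̄`: `0 ∈ D̄`, symmetric; `γ ∈ D̄`, `γ + γ = 0`, `γ ≠ 0`: the row `γ` has 3 elements, against Rw (9).  `|D̄| = (2 l + 1) / 3`, `l = 3 l' + 1`, `|D̄| = 2 l' + 1`.  `l ≥ 5` gives
`l' ≥ 2`; `n = 3 q`, `3 q ≥ 4 l + 1 = 12 l' + 5`, so `q ≥ 4 l' + 2`.  `DCs 1 D̄`: for `H̄ ≠ ⊥` and `γ̄` let `H` be the preimage, `|H| = 3 |H̄|`, the rows of `D` for `H` are three times as large as those of `D̄` for `H̄`; `2 |H̄| + 1 ≤ 2 w + w0` gives `2 |H| + 1 ≤ 6 w + 3 w0`, so `|H| ≤ 4`, `|H̄| ≤ 1`.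
`D̄` generates `G / K`. -/
def St_Qt : Prop :=
  ∀ (G : Type) [AddCommGroup G] [Finite G] (l : ℕ) (D : Finset G) (K : AddSubgroup G),
    (∀ K : AddSubgroup G, (∀ x : G, x + x ∈ K) → K.index ≤ 4) → SY D → AddSubgroup.closure (D : Set G) = ⊤ → D.card = 2 * l + 1 →
    4 * l + 1 ≤ Nat.card G → DCs 4 D → 5 ≤ l → Nat.card K = 3 → (st D K).card = D.card → ¬ NearP (im D K) → ¬ IsAddCyclic (G ⧸ K) →
      ∃ l' : ℕ, l = 3 * l' + 1 ∧ Hyp 1 l' (im D K)

/-- **GRO** (1.5 h, from Rw, Fr, Co, Df, E4, Qt; SSE.GS, GwE, Gk, Mx, Cy).  THE THEOREM.  Proof.  `D = sym u f`, `l = |u|`, `|D| = 2 l + 1`.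
`¬ NearP D`: `Hyp 4 l D`, Co (`κ = 4`).
`NearP D`: SSE.Mx gives `K`, `NF D K`, `|st D K| = |K| |D̄|`, `¬ NearP D̄`.  `|K| ≤ 4`: if some `γ ∈ D̄` has `γ + γ ≠ 0`: `∑_{δ ∈ D̄} (k - w δ) ≤ k - 1` and it is `≥ (k - w 0) + 2 (k - w γ)`, so `2 k + 1 ≤ w 0 + 2 w γ`, `DCs` gives `k ≤ 4`.  Otherwise `x + x ∈ K` for all `x ∈ G`, the index of `K` is at most 4, so 2 or 4 (exponent 2, not `⊤`);
`m = |D̄| = 2` resp. `m ≥ 3` (`D` generates `G`); `(m - 1) k + 1 ≤ |D| = 2 l + 1`: `n = 2 k ≤ 4 l`, resp. `n = 4 k ≤ 2 (m - 1) k ≤ 4 l`: contradiction to `4 l + 1 ≤ n`.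
So some `γ = mk y ∈ D̄` has `γ + γ ≠ 0`, i.e. `y + y ∉ K`, `y ∈ D` (the last step shows this too).  Now as in SSE.Gn (Pool/Agent/SSE/Gn.lean): `|it D i| = |K| |it D̄ i|` for `i ≥ 2` (SSE.Gk).  `APK D̄ ⊥` gives `APK D K` (first alternative).  Otherwise GS repeatedly (`Gn_ind`): `|it D̄ i| ≥ i m` or `|it D̄ i| + 1 ≥ q`; in the second case `|it D i| ≥ n - |K| ≥ n - 4`.
In the first case `|it D i| ≥ i |K| m`, and `|K| m ≥ 2 l + 1`; if `|K| m ≥ 2 l + 2` done.  If `|K| m = 2 l + 1`: `|K|` is odd, so `|K| = 3`, `|st D K| = |D|`.  If `G / K` is cyclic: GwE as in Gn.  Otherwise Qt and Co with `κ = 1`: for `i ≥ 2`: `|it D̄ i| + 1 ≥ q`: `|it D i| ≥ n - 3`; or `|it D̄ i| + 2 ≥ i (2 l' + 2)`: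
`|it D i| ≥ 3 i (2 l' + 2) - 6 = i (2 l + 2) + 2 i - 6`: for `i ≥ 3` fine, for `i = 2` it is `4 l + 2`.  `i = 1`: `|D| = 2 l + 1`. -/
def St_GRO : Prop :=
  ∀ (G ι : Type) [AddCommGroup G] [Finite G] (u : Finset ι) (f : ι → G), R2 G → ¬ IsAddCyclic G → AE u f → gen u f = ⊤ → 5 ≤ u.card →
    DCf u f → 4 * u.card + 1 ≤ Nat.card G →
      (∃ K : AddSubgroup G, NF (sym u f) K ∧ Nat.card K ≤ 4 ∧ APK (sym u f) K) ∨
      ∀ i, 1 ≤ i → Nat.card G ≤ (it (sym u f) i).card + 4 ∨ i * (2 * u.card + 2) ≤ (it (sym u f) i).card + 1 ∨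
        (i = 2 ∧ 4 * u.card + 2 ≤ (it (sym u f) i).card)

end Pool.Agent.KAT
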